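import Pool.Agent.TPP2.Conn

/-!
# Approximations of an arbitrary object
-/

set_option autoImplicit false
set_option linter.unusedSectionVars false

namespace Pool.Agent.TPP2

open CategoryTheory CategoryTheory.Limits MonoidalCategory
open scoped ZeroObject
open Pool.Agent.TPP

universe v u

variable {C : Type u} [Category.{v} C] [Abelian C] [MonoidalCategory C] [MonoidalPreadditive C]
  [RigidCategory C]

/-- `f : F ⟶ T` is a right approximation of the object `T` by objects of `J`. -/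
def IsApproxT (J : C → Prop) (T F : C) (f : F ⟶ T) : Prop :=
  J F ∧ ∀ X : C, J X → ∀ g : X ⟶ T, ∃ h : X ⟶ F, h ≫ f = g

section Linear

variable (k : Type*) [Field k] [Linear k C]

/-- A finite list of objects of `J` has a common approximation. -/
lemma exists_approx_familyT [∀ X Y : C, FiniteDimensional k (X ⟶ Y)] {J : C → Prop}
    (hJ : ThickIdeal J) (T : C) {n : ℕ} (F : Fin n → C) :
    ∃ (G : C) (f : G ⟶ T), J G ∧ ∀ i, J (F i) → ∀ g : F i ⟶ T, ∃ h, h ≫ f = g := by
  induction n with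
  | zero =>
    refine ⟨0, 0, hJ.proj (isZero_zero C).projective, fun i => i.elim0⟩
  | succ n ih =>
    obtain ⟨G, f, hG, h⟩ := ih (fun i => F i.castSucc)
    by_cases hl : J (F (Fin.last n))
    · -- add copies of the last object
      have key : ∀ (m : ℕ) (b : Fin m → (F (Fin.last n) ⟶ T)),
          ∃ (H : C) (f' : H ⟶ T), J H ∧ ∀ g ∈ Submodule.span k (Set.range b),
            ∃ h, h ≫ f' = g := by
        intro m
        induction m with
        | zero =>
          intro b
          refine ⟨0, 0, hJ.proj (isZero_zero C).projective, fun g hg => ⟨0, ?_⟩⟩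
          have : Set.range b = ∅ := Set.range_eq_empty b
          rw [this, Submodule.span_empty, Submodule.mem_bot] at hg
          rw [hg]; simp
        | succ m ihm =>
          intro b
          obtain ⟨H, f', hH, h'⟩ := ihm (fun i => b i.castSucc)
          refine ⟨H ⊞ F (Fin.last n), biprod.desc f' (b (Fin.last m)), hJ.biprod hH hl, ?_⟩
          intro g hg
          have hspan : g ∈ Submodule.span k (Set.range fun i : Fin m => b i.castSucc) ⊔
              Submodule.span k {b (Fin.last m)} := by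
            rw [← Submodule.span_union]
            refine Submodule.span_mono ?_ hg
            rintro _ ⟨i, rfl⟩
            rcases Fin.eq_castSucc_or_eq_last i with ⟨j, rfl⟩ | rfl
            · exact Or.inl ⟨j, rfl⟩
            · exact Or.inr rfl
          obtain ⟨g₁, hg₁, g₂, hg₂, rfl⟩ := Submodule.mem_sup.1 hspan
          obtain ⟨a₁, ha₁⟩ := h' g₁ hg₁
          obtain ⟨c, rfl⟩ := Submodule.mem_span_singleton.1 hg₂
          refine ⟨biprod.lift a₁ (c • 𝟙 _), ?_⟩
          simp [ha₁]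
      obtain ⟨b⟩ : Nonempty (Module.Basis (Fin (Module.finrank k (F (Fin.last n) ⟶ T))) k
        (F (Fin.last n) ⟶ T)) := ⟨Module.finBasis k _⟩
      obtain ⟨H, f', hH, h'⟩ := key _ b
      refine ⟨G ⊞ H, biprod.desc f f', hJ.biprod hG hH, fun i hi g => ?_⟩
      rcases Fin.eq_castSucc_or_eq_last i with ⟨j, rfl⟩ | rfl
      · obtain ⟨a, ha⟩ := h j hi g
        exact ⟨a ≫ biprod.inl, by simp [ha]⟩
      · obtain ⟨a, ha⟩ := h' g (by rw [b.span_eq]; trivial)
        exact ⟨a ≫ biprod.inr, by simp [ha]⟩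
    · refine ⟨G, f, hG, fun i hi g => ?_⟩
      rcases Fin.eq_castSucc_or_eq_last i with ⟨j, rfl⟩ | rfl
      · exact h j hi g
      · exact absurd hi hl

lemma exists_approxT [EnoughProjectives C] [∀ X Y : C, FiniteDimensional k (X ⟶ Y)]
    {J R : C → Prop} (hJ : ThickIdeal J)
    (hR : ∀ {X Y : C} (i : X ⟶ Y) (r : Y ⟶ X), i ≫ r = 𝟙 X → R Y → R X) (T : C)
    (hfin : ∃ (n : ℕ) (F : Fin n → C), ∀ X : C, R X → Indecomposable X →
      (∃ f : X ⟶ T, ¬ StableZero f) → ∃ i, Nonempty (X ≅ F i)) :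
    ∃ (F : C) (f : F ⟶ T), J F ∧ ∀ X, J X → R X → ∀ g : X ⟶ T, ∃ h : X ⟶ F, h ≫ f = g := by
  obtain ⟨n, F, hF⟩ := hfin
  obtain ⟨G, f, hG, h⟩ := exists_approx_familyT k hJ T F
  have hPJ : J (Projective.over (T)) := hJ.proj inferInstance
  refine ⟨G ⊞ Projective.over (T), biprod.desc f (Projective.π _), hJ.biprod hG hPJ, ?_⟩
  -- strong induction on the dimension of the endomorphism ring
  have key : ∀ (d : ℕ) (X : C), Module.finrank k (X ⟶ X) ≤ d → J X → R X → ∀ g : X ⟶ T,
      ∃ h, h ≫ biprod.desc f (Projective.π T) = g := by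
    intro d
    induction d using Nat.strong_induction_on with
    | _ d ih =>
      intro X hd hX hXR g
      by_cases hz : IsZero X
      · exact ⟨0, hz.eq_of_src _ _⟩
      by_cases hind : Indecomposable X
      · by_cases hs : StableZero g
        · obtain ⟨P, hP, a, b, rfl⟩ := hs
          refine ⟨a ≫ Projective.factorThru b (Projective.π (T)) ≫ biprod.inr, ?_⟩
          simp
        · obtain ⟨i, ⟨e⟩⟩ := hF X hXR hind ⟨g, hs⟩
          obtain ⟨a, ha⟩ := h i (hJ.iso e.symm hX) (e.inv ≫ g)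
          refine ⟨e.hom ≫ a ≫ biprod.inl, ?_⟩
          simp [ha]
      · -- decompose
        have : ∃ Y Z, Nonempty (X ≅ Y ⊞ Z) ∧ ¬ IsZero Y ∧ ¬ IsZero Z := by
          by_contra hcon
          apply hind
          refine ⟨hz, fun Y Z e => ?_⟩
          by_contra hYZ
          rw [not_or] at hYZ
          exact hcon ⟨Y, Z, ⟨e⟩, hYZ.1, hYZ.2⟩
        obtain ⟨Y, Z, ⟨e⟩, hY, hZ⟩ := this
        have h1 : Module.finrank k (Y ⟶ Y) < Module.finrank k (X ⟶ X) := by
          refine finrank_end_lt k (biprod.inl ≫ e.inv) (e.hom ≫ biprod.fst) (by simp) ?_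
          intro hcon
          apply hZ
          rw [IsZero.iff_id_eq_zero]
          calc 𝟙 Z = (biprod.inr ≫ e.inv) ≫ 𝟙 X ≫ (e.hom ≫ biprod.snd) := by simp
            _ = 0 := by rw [← hcon]; simp
        have h2 : Module.finrank k (Z ⟶ Z) < Module.finrank k (X ⟶ X) := by
          refine finrank_end_lt k (biprod.inr ≫ e.inv) (e.hom ≫ biprod.snd) (by simp) ?_
          intro hcon
          apply hY
          rw [IsZero.iff_id_eq_zero]
          calc 𝟙 Y = (biprod.inl ≫ e.inv) ≫ 𝟙 X ≫ (e.hom ≫ biprod.fst) := by simp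
            _ = 0 := by rw [← hcon]; simp
        have hYJ : J Y := hJ.retract (biprod.inl ≫ e.inv) (e.hom ≫ biprod.fst) (by simp) hX
        have hZJ : J Z := hJ.retract (biprod.inr ≫ e.inv) (e.hom ≫ biprod.snd) (by simp) hX
        have hYR : R Y := hR (biprod.inl ≫ e.inv) (e.hom ≫ biprod.fst) (by simp) hXR
        have hZR : R Z := hR (biprod.inr ≫ e.inv) (e.hom ≫ biprod.snd) (by simp) hXR
        obtain ⟨a, ha⟩ := ih _ (lt_of_lt_of_le h1 hd) Y le_rfl hYJ hYR (biprod.inl ≫ e.inv ≫ g)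
        obtain ⟨b, hb⟩ := ih _ (lt_of_lt_of_le h2 hd) Z le_rfl hZJ hZR (biprod.inr ≫ e.inv ≫ g)
        refine ⟨e.hom ≫ biprod.desc a b, ?_⟩
        rw [Category.assoc, ← Iso.eq_inv_comp]
        apply biprod.hom_ext'
        · simpa using ha
        · simpa using hb
  intro X hX hXR g
  exact key _ X le_rfl hX hXR g

lemma exists_minimal_approxT [∀ X Y : C, FiniteDimensional k (X ⟶ Y)] {J : C → Prop}
    (hJ : ThickIdeal J) {T : C} (hap : ∃ (F : C) (f : F ⟶ T), IsApproxT J T F f) :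
    ∃ (F : C) (f : F ⟶ T), IsApproxT J T F f ∧ ∀ h : F ⟶ F, h ≫ f = f → IsIso h := by
  classical
  have hex : ∃ d : ℕ, ∃ (F : C) (f : F ⟶ T), IsApproxT J T F f ∧ Module.finrank k (F ⟶ F) = d := by
    obtain ⟨F, f, h⟩ := hap
    exact ⟨_, F, f, h, rfl⟩
  obtain ⟨F, f, hF, hd⟩ := Nat.find_spec hex
  refine ⟨F, f, hF, fun h hhf => ?_⟩
  by_contra hiso
  obtain ⟨e, he, hne, hef⟩ := fitting' k h hiso f hhf
  obtain ⟨G, i, r, hir, hri⟩ := IsIdempotentComplete.idempotents_split F e he
  have hG : IsApproxT J T G (i ≫ f) := by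
    refine ⟨hJ.retract i r hir hF.1, fun X hX g => ?_⟩
    obtain ⟨a, ha⟩ := hF.2 X hX g
    refine ⟨a ≫ r, ?_⟩
    rw [Category.assoc, ← Category.assoc r, hri, hef, ha]
  have hlt : Module.finrank k (G ⟶ G) < Module.finrank k (F ⟶ F) :=
    finrank_end_lt k i r hir (by rw [hri]; exact hne)
  have := Nat.find_min' hex ⟨G, i ≫ f, hG, rfl⟩
  omega

end Linear

/-- The kernel of a minimal approximation has no extensions by objects of `J`. -/
lemma wakamatsuT {J : C → Prop} (hJ : ThickIdeal J) {T F : C} {f : F ⟶ T} (hF : IsApproxT J T F f)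
    (hmin : ∀ h : F ⟶ F, h ≫ f = f → IsIso h) {U V : C} (a : U ⟶ V) [Mono a]
    (hZ : J (cokernel a)) (u : U ⟶ kernel f) : ∃ v : V ⟶ kernel f, a ≫ v = u := by
  let i := kernel.ι f
  have h0 : (u ≫ i) ≫ (0 : F ⟶ cokernel a) = a ≫ cokernel.π a := by
    rw [comp_zero, cokernel.condition]
  have hS := shortExact_pushout a (u ≫ i) (pushout.desc 0 (cokernel.π a) h0)
    (pushout.inl_desc _ _ _) (pushout.inr_desc _ _ _)
  have hE : J (pushout (u ≫ i) a) := hJ.ext hS hF.1 hZ
  have hui : (u ≫ i) ≫ f = a ≫ 0 := by simp [i]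
  obtain ⟨h, hh⟩ := hF.2 _ hE (pushout.desc f 0 hui)
  have hθ : (pushout.inl (u ≫ i) a ≫ h) ≫ f = f := by
    rw [Category.assoc, hh, pushout.inl_desc]
  have hiso := hmin _ hθ
  have hinv : inv (pushout.inl (u ≫ i) a ≫ h) ≫ f = f := by
    rw [IsIso.inv_comp_eq, hθ]
  have hv' : (pushout.inr (u ≫ i) a ≫ h ≫ inv (pushout.inl (u ≫ i) a ≫ h)) ≫ f = 0 := by
    simp only [Category.assoc]
    rw [hinv, hh, pushout.inr_desc]
  refine ⟨kernel.lift f _ hv', ?_⟩
  rw [← cancel_mono (kernel.ι f), Category.assoc, kernel.lift_ι]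
  rw [← Category.assoc, ← pushout.condition]
  simp only [Category.assoc]
  have h3 : pushout.inl (u ≫ i) a ≫ h ≫ inv (pushout.inl (u ≫ i) a ≫ h) = 𝟙 _ := by
    rw [← Category.assoc, IsIso.hom_inv_id]
  rw [h3, Category.comp_id]

/-- For `Z` in `J` the object `Z ⊗ ker f` is injective. -/
lemma injective_tensor_kernelT {J : C → Prop} (hJ : ThickIdeal J) {T F : C} {f : F ⟶ T}
    (hF : IsApproxT J T F f) (hmin : ∀ h : F ⟶ F, h ≫ f = f → IsIso h) {Z : C} (hZ : J Z) :
    Injective (Z ⊗ kernel f) where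
  factors {L M} g m _ := by
    let adj := tensorLeftAdjunction Z (Zᘁ)
    have hcok : J (cokernel ((tensorLeft (Zᘁ)).map m)) :=
      hJ.iso (PreservesCokernel.iso (tensorLeft (Zᘁ)) m).symm (hJ.right _ (hJ.rightDual hZ))
    have : Mono ((tensorLeft (Zᘁ)).map m) := inferInstance
    obtain ⟨v, hv⟩ := wakamatsuT hJ hF hmin ((tensorLeft (Zᘁ)).map m) hcok
      ((adj.homEquiv L (kernel f)).symm g)
    refine ⟨adj.homEquiv M (kernel f) v, ?_⟩
    rw [← Adjunction.homEquiv_naturality_left, hv]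
    exact (adj.homEquiv L (kernel f)).apply_symm_apply g


end Pool.Agent.TPP2
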