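import Pool.Agent.TPP.Main

/-!
# The category with the total Ext groups as morphisms (MP_4f3b9e_al)
-/

set_option autoImplicit false
set_option linter.unusedSectionVars false

namespace Pool.Agent.TPP2

open CategoryTheory CategoryTheory.Limits CategoryTheory.Abelian MonoidalCategory
open Pool.Agent.TPP

universe w v u

section Big

variable {C : Type u} [Category.{v} C] [Abelian C] [HasExt.{w} C]

/-- The total Ext group. -/
abbrev G (X Y : C) : Type w := DirectSum ℕ fun n => Ext.{w} X Y n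

/-- The product of the total Ext groups. -/
noncomputable def bcomp (X Y Z : C) : G.{w} X Y →+ G.{w} Y Z →+ G.{w} X Z :=
  DirectSum.toAddMonoid fun a => AddMonoidHom.flip (DirectSum.toAddMonoid fun b =>
    AddMonoidHom.flip ((AddMonoidHom.compHom (DirectSum.of (fun n => Ext.{w} X Z n) (a + b))).comp
      (Ext.bilinearComp X Y Z a b (a + b) rfl)))

lemma bcomp_of {X Y Z : C} {a b : ℕ} (x : Ext.{w} X Y a) (y : Ext.{w} Y Z b) :
    bcomp X Y Z (DirectSum.of _ a x) (DirectSum.of _ b y) =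
      DirectSum.of (fun n => Ext.{w} X Z n) (a + b) (x.comp y rfl) := by
  simp [bcomp]

lemma bcomp_of' {X Y Z : C} {a b c : ℕ} (x : Ext.{w} X Y a) (y : Ext.{w} Y Z b)
    (h : a + b = c) :
    bcomp X Y Z (DirectSum.of _ a x) (DirectSum.of _ b y) =
      DirectSum.of (fun n => Ext.{w} X Z n) c (x.comp y h) := by
  subst h
  exact bcomp_of x y

variable (C) in
/-- The objects of the category with the total Ext groups as morphisms. -/
structure BC where
  /-- the underlying object -/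
  obj : C

noncomputable instance : Category.{w} (BC C) where
  Hom X Y := G.{w} X.obj Y.obj
  id X := DirectSum.of (fun n => Ext.{w} X.obj X.obj n) 0 (Ext.mk₀ (𝟙 X.obj))
  comp f g := bcomp _ _ _ f g
  id_comp := by
    intro X Y f
    induction f using DirectSum.induction_on with
    | zero => rw [map_zero]
    | of a x => rw [bcomp_of' _ _ (zero_add a), Ext.mk₀_id_comp]
    | add x y hx hy => rw [map_add, hx, hy]
  comp_id := by
    intro X Y f
    induction f using DirectSum.induction_on with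
    | zero => rw [map_zero, AddMonoidHom.zero_apply]
    | of a x => rw [bcomp_of' _ _ (add_zero a), Ext.comp_mk₀_id]
    | add x y hx hy => rw [map_add, AddMonoidHom.add_apply, hx, hy]
  assoc := by
    intro X Y Z T f g h
    induction f using DirectSum.induction_on with
    | zero => simp
    | add x y hx hy => simp only [map_add, AddMonoidHom.add_apply, hx, hy]
    | of a x =>
      induction g using DirectSum.induction_on with
      | zero => simp
      | add x y hx hy => simp only [map_add, AddMonoidHom.add_apply, hx, hy]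
      | of b y =>
        induction h using DirectSum.induction_on with
        | zero => simp
        | add x y hx hy => simp only [map_add, hx, hy]
        | of c z =>
          rw [bcomp_of x y, bcomp_of (x.comp y rfl) z, bcomp_of y z,
            bcomp_of' x _ (by omega : a + (b + c) = a + b + c)]
          congr 1
          exact Ext.comp_assoc _ _ _ _ _ rfl

noncomputable instance : Preadditive (BC C) where
  homGroup X Y := inferInstanceAs (AddCommGroup (G.{w} X.obj Y.obj))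
  add_comp := by
    intro X Y Z f f' g
    exact DFunLike.congr_fun ((bcomp X.obj Y.obj Z.obj).map_add f f') g
  comp_add := by
    intro X Y Z f g g'
    exact (bcomp X.obj Y.obj Z.obj f).map_add g g'

/-- The object. -/
abbrev b (X : C) : BC C := ⟨X⟩

/-- The morphism of a homogeneous class. -/
noncomputable def e {X Y : C} {n : ℕ} (x : Ext.{w} X Y n) : b X ⟶ b Y :=
  DirectSum.of (fun n => Ext.{w} X Y n) n x

/-- The morphism of a morphism of degree `0`. -/
noncomputable def m {X Y : C} (f : X ⟶ Y) : b X ⟶ b Y := e (Ext.mk₀ f)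

lemma e_comp {X Y Z : C} {a b' c : ℕ} (x : Ext.{w} X Y a) (y : Ext.{w} Y Z b')
    (h : a + b' = c) : e (x.comp y h) = e x ≫ e y :=
  (bcomp_of' x y h).symm

lemma e_add {X Y : C} {n : ℕ} (x y : Ext.{w} X Y n) : e (x + y) = e x + e y :=
  map_add (DirectSum.of (fun n => Ext.{w} X Y n) n) x y

lemma e_neg {X Y : C} {n : ℕ} (x : Ext.{w} X Y n) : e (-x) = -e x :=
  map_neg (DirectSum.of (fun n => Ext.{w} X Y n) n) x

lemma e_sub {X Y : C} {n : ℕ} (x y : Ext.{w} X Y n) : e (x - y) = e x - e y :=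
  map_sub (DirectSum.of (fun n => Ext.{w} X Y n) n) x y

@[simp] lemma e_zero {X Y : C} {n : ℕ} : e (0 : Ext.{w} X Y n) = 0 :=
  map_zero (DirectSum.of (fun n => Ext.{w} X Y n) n)

lemma e_inj {X Y : C} {n : ℕ} {x y : Ext.{w} X Y n} (h : e x = e y) : x = y :=
  DirectSum.of_injective n h

lemma e_eq_zero {X Y : C} {n : ℕ} {x : Ext.{w} X Y n} (h : e x = 0) : x = 0 :=
  e_inj (h.trans e_zero.symm)

lemma e_cast {X Y : C} {n n' : ℕ} (h : n = n') (x : Ext.{w} X Y n) : e (h ▸ x) = e x := by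
  subst h; rfl

@[simp] lemma m_id (X : C) : (m (𝟙 X) : b X ⟶ b X) = 𝟙 _ := rfl

lemma m_comp {X Y Z : C} (f : X ⟶ Y) (g : Y ⟶ Z) : (m (f ≫ g) : b X ⟶ b Z) = m f ≫ m g := by
  unfold m
  rw [← Ext.mk₀_comp_mk₀, e_comp]

lemma m_add {X Y : C} (f g : X ⟶ Y) : (m (f + g) : b X ⟶ b Y) = m f + m g := by
  unfold m
  rw [Ext.mk₀_add, e_add]

lemma m_neg {X Y : C} (f : X ⟶ Y) : (m (-f) : b X ⟶ b Y) = -m f := by
  unfold m
  rw [Ext.mk₀_neg, e_neg]

lemma m_sub {X Y : C} (f g : X ⟶ Y) : (m (f - g) : b X ⟶ b Y) = m f - m g := by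
  rw [sub_eq_add_neg, m_add, m_neg, ← sub_eq_add_neg]

@[simp] lemma m_zero {X Y : C} : (m (0 : X ⟶ Y) : b X ⟶ b Y) = 0 := by
  unfold m
  rw [Ext.mk₀_zero, e_zero]

/-- Homogeneous of degree `n`. -/
def Hg {X Y : BC C} (n : ℕ) (f : X ⟶ Y) : Prop := ∃ x : Ext.{w} X.obj Y.obj n, f = e x

lemma hg_e {X Y : C} {n : ℕ} (x : Ext.{w} X Y n) : Hg n (e x) := ⟨x, rfl⟩

lemma hg_m {X Y : C} (f : X ⟶ Y) : Hg.{w} 0 (m f) := ⟨_, rfl⟩

lemma Hg.comp {X Y Z : BC C} {a c n : ℕ} {f : X ⟶ Y} {g : Y ⟶ Z} (hf : Hg.{w} a f)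
    (hg : Hg.{w} c g) (h : a + c = n) : Hg n (f ≫ g) := by
  obtain ⟨x, rfl⟩ := hf
  obtain ⟨y, rfl⟩ := hg
  exact ⟨x.comp y h, (e_comp x y h).symm⟩

lemma Hg.add {X Y : BC C} {n : ℕ} {f g : X ⟶ Y} (hf : Hg.{w} n f) (hg : Hg.{w} n g) :
    Hg n (f + g) := by
  obtain ⟨x, rfl⟩ := hf
  obtain ⟨y, rfl⟩ := hg
  exact ⟨x + y, (e_add x y).symm⟩

lemma Hg.neg {X Y : BC C} {n : ℕ} {f : X ⟶ Y} (hf : Hg.{w} n f) : Hg n (-f) := by
  obtain ⟨x, rfl⟩ := hf
  exact ⟨-x, (e_neg x).symm⟩

lemma Hg.sub {X Y : BC C} {n : ℕ} {f g : X ⟶ Y} (hf : Hg.{w} n f) (hg : Hg.{w} n g) :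
    Hg n (f - g) := by
  rw [sub_eq_add_neg]; exact hf.add hg.neg

lemma hg_zero {X Y : BC C} (n : ℕ) : Hg.{w} n (0 : X ⟶ Y) := ⟨0, e_zero.symm⟩

/-- Induction over the homogeneous components. -/
lemma hom_induction {X Y : BC C} {P : (X ⟶ Y) → Prop} (f : X ⟶ Y) (h0 : P 0)
    (h1 : ∀ (n : ℕ) (x : Ext.{w} X.obj Y.obj n), P (e x)) (h2 : ∀ f g, P f → P g → P (f + g)) :
    P f := by
  induction f using DirectSum.induction_on with
  | zero => exact h0
  | of a x => exact h1 a x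
  | add x y hx hy => exact h2 x y hx hy

/-- The component of degree `n`. -/
noncomputable def cmp {X Y : BC C} (n : ℕ) (f : X ⟶ Y) : Ext.{w} X.obj Y.obj n :=
  (show G.{w} X.obj Y.obj from f) n

lemma cmp_add {X Y : BC C} (n : ℕ) (f g : X ⟶ Y) : cmp.{w} n (f + g) = cmp n f + cmp n g :=
  DirectSum.add_apply _ _ _

lemma cmp_zero {X Y : BC C} (n : ℕ) : cmp.{w} n (0 : X ⟶ Y) = 0 := rfl

lemma cmp_e {X Y : C} {n : ℕ} (x : Ext.{w} X Y n) : cmp n (e x) = x :=
  DirectSum.of_eq_same _ _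

lemma cmp_e_ne {X Y : C} {n n' : ℕ} (x : Ext.{w} X Y n) (h : n ≠ n') : cmp n' (e x) = 0 :=
  DirectSum.of_eq_of_ne _ _ _ h.symm

lemma Hg.cmp_eq {X Y : BC C} {n : ℕ} {f : X ⟶ Y} (hf : Hg.{w} n f) : e (cmp n f) = f := by
  obtain ⟨x, rfl⟩ := hf
  rw [cmp_e]

end Big

end Pool.Agent.TPP2
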