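import Pool.Agent.TPP2.Fun

/-!
# Centrality of the even classes
-/

set_option autoImplicit false
set_option linter.unusedSectionVars false

namespace Pool.Agent.TPP2

open CategoryTheory CategoryTheory.Limits CategoryTheory.Abelian MonoidalCategory
open Pool.Agent.TPP

universe w v u

section Cent

variable {C : Type u} [Category.{v} C] [Abelian C] [HasExt.{w} C]
  [MonoidalCategory C] [MonoidalPreadditive C] [RigidCategory C]

/-- Tensor product with an object on the right. -/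
noncomputable def tR (X : C) {U V : C} : (b U ⟶ b V) →+ (b (U ⊗ X) ⟶ b (V ⊗ X)) :=
  bf (tensorRight X)

/-- Tensor product with an object on the left. -/
noncomputable def tL (X : C) {U V : C} : (b U ⟶ b V) →+ (b (X ⊗ U) ⟶ b (X ⊗ V)) :=
  bf (tensorLeft X)

lemma tR_m (X : C) {U V : C} (f : U ⟶ V) : tR.{w} X (m f) = m (f ▷ X) := bf_m _ f

lemma tL_m (X : C) {U V : C} (f : U ⟶ V) : tL.{w} X (m f) = m (X ◁ f) := bf_m _ f

lemma tR_id (X U : C) : tR X (𝟙 (b U)) = 𝟙 (b (U ⊗ X)) := by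
  rw [← m_id, tR_m, id_whiskerRight, m_id]

lemma tL_id (X U : C) : tL X (𝟙 (b U)) = 𝟙 (b (X ⊗ U)) := by
  rw [← m_id, tL_m, whiskerLeft_id, m_id]

lemma tR_comp (X : C) {U V W : C} (f : b U ⟶ b V) (g : b V ⟶ b W) :
    tR X (f ≫ g) = tR X f ≫ tR X g := bf_comp _ f g

lemma tL_comp (X : C) {U V W : C} (f : b U ⟶ b V) (g : b V ⟶ b W) :
    tL X (f ≫ g) = tL X f ≫ tL X g := bf_comp _ f g

lemma tR_hg (X : C) {U V : C} {n : ℕ} {f : b U ⟶ b V} (hf : Hg.{w} n f) : Hg n (tR X f) :=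
  bf_hg _ hf

lemma tL_hg (X : C) {U V : C} {n : ℕ} {f : b U ⟶ b V} (hf : Hg.{w} n f) : Hg n (tL X f) :=
  bf_hg _ hf

/-- The short complex tensored with an object on the right. -/
abbrev sR (T : ShortComplex C) (X : C) : ShortComplex C :=
  ShortComplex.mk (T.f ▷ X) (T.g ▷ X) (by
    rw [← comp_whiskerRight, T.zero, MonoidalPreadditive.zero_whiskerRight])

/-- The short complex tensored with an object on the left. -/
abbrev sL (X : C) (T : ShortComplex C) : ShortComplex C :=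
  ShortComplex.mk (X ◁ T.f) (X ◁ T.g) (by
    rw [← MonoidalCategory.whiskerLeft_comp, T.zero, MonoidalPreadditive.whiskerLeft_zero])

variable {T S : ShortComplex C}

lemma sR_exact (hT : T.ShortExact) (X : C) : (sR T X).ShortExact :=
  hT.map_of_exact (tensorRight X)

lemma sL_exact (hT : T.ShortExact) (X : C) : (sL X T).ShortExact :=
  hT.map_of_exact (tensorLeft X)

lemma tR_dl (hT : T.ShortExact) (X : C) : tR.{w} X (dl hT) = dl (sR_exact hT X) := bf_dl _ hT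

lemma tL_dl (hT : T.ShortExact) (X : C) : tL.{w} X (dl hT) = dl (sL_exact hT X) := bf_dl _ hT

lemma ex_lift (hS : S.ShortExact) {A : C} (k : A ⟶ S.X₂) (hk : k ≫ S.g = 0) :
    ∃ a : A ⟶ S.X₁, a ≫ S.f = k := by
  have := hS.mono_f
  exact ⟨hS.exact.lift k hk, hS.exact.lift_f k hk⟩

lemma three_aux {P Q R U V W : BC C} (δ : P ⟶ Q) (a : Q ⟶ R) (b' : Q ⟶ U) (i : R ⟶ W)
    (i' : U ⟶ W) (D : W ⟶ V) (h : (a ≫ i + b' ≫ i') ≫ D = 0) :
    (δ ≫ a) ≫ (i ≫ D) + (δ ≫ b') ≫ (i' ≫ D) = 0 := by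
  have : (δ ≫ a) ≫ (i ≫ D) + (δ ≫ b') ≫ (i' ≫ D) = δ ≫ ((a ≫ i + b' ≫ i') ≫ D) := by
    simp only [Category.assoc, Preadditive.add_comp, Preadditive.comp_add]
  rw [this, h, comp_zero]

/-- The connecting morphisms of two short exact sequences anticommute. -/
lemma three (hT : T.ShortExact) (hS : S.ShortExact) :
    tR.{w} S.X₃ (dl hT) ≫ tL T.X₁ (dl hS) + tL T.X₃ (dl hS) ≫ tR S.X₁ (dl hT) = 0 := by
  have hT1 := sR_exact hT S.X₁
  have hT2 := sR_exact hT S.X₂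
  have hT3 := sR_exact hT S.X₃
  have hS1 := sL_exact hS T.X₁
  have hS2 := sL_exact hS T.X₂
  have hS3 := sL_exact hS T.X₃
  have := hT1.mono_f
  have := hT2.mono_f
  have := hT3.mono_f
  have := hS1.mono_f
  have := hS2.mono_f
  have := hS3.mono_f
  have := hT1.epi_g
  have := hT2.epi_g
  have := hT3.epi_g
  have := hS1.epi_g
  have := hS2.epi_g
  have := hS3.epi_g
  have hgg : Epi (T.g ▷ S.X₂ ≫ T.X₃ ◁ S.g) := epi_comp (T.g ▷ S.X₂) (T.X₃ ◁ S.g)
  set gg : T.X₂ ⊗ S.X₂ ⟶ T.X₃ ⊗ S.X₃ := T.g ▷ S.X₂ ≫ T.X₃ ◁ S.g with hggdef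
  have hgg' : gg = T.X₂ ◁ S.g ≫ T.g ▷ S.X₃ := (whisker_exchange T.g S.g).symm
  have hcond : kernel.ι gg ≫ gg = 0 := kernel.condition gg
  have h2 := shortExact_ker gg
  -- the two maps out of the kernel
  obtain ⟨a, ha⟩ := ex_lift hT3 (kernel.ι gg ≫ T.X₂ ◁ S.g) (by
    change (kernel.ι gg ≫ T.X₂ ◁ S.g) ≫ T.g ▷ S.X₃ = 0
    rw [Category.assoc, ← hgg', hcond])
  obtain ⟨b', hb⟩ := ex_lift hS3 (kernel.ι gg ≫ T.g ▷ S.X₂) (by
    change (kernel.ι gg ≫ T.g ▷ S.X₂) ≫ T.X₃ ◁ S.g = 0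
    rw [Category.assoc, ← hggdef, hcond])
  change a ≫ T.f ▷ S.X₃ = _ at ha
  change b' ≫ T.X₃ ◁ S.f = _ at hb
  -- the maps into the kernel
  have hc0 : (T.f ▷ S.X₂) ≫ gg = 0 := by
    rw [hggdef, ← Category.assoc, ← comp_whiskerRight, T.zero,
      MonoidalPreadditive.zero_whiskerRight, zero_comp]
  have hd0 : (T.X₂ ◁ S.f) ≫ gg = 0 := by
    rw [hgg', ← Category.assoc, ← MonoidalCategory.whiskerLeft_comp, S.zero,
      MonoidalPreadditive.whiskerLeft_zero, zero_comp]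
  let c : T.X₁ ⊗ S.X₂ ⟶ kernel gg := kernel.lift gg _ hc0
  let d : T.X₂ ⊗ S.X₁ ⟶ kernel gg := kernel.lift gg _ hd0
  have hc : c ≫ kernel.ι gg = T.f ▷ S.X₂ := kernel.lift_ι _ _ _
  have hd : d ≫ kernel.ι gg = T.X₂ ◁ S.f := kernel.lift_ι _ _ _
  have hca : c ≫ a = T.X₁ ◁ S.g := by
    rw [← cancel_mono (T.f ▷ S.X₃), Category.assoc, ha, ← Category.assoc, hc, whisker_exchange]
  have hcb : c ≫ b' = 0 := by
    rw [← cancel_mono (T.X₃ ◁ S.f), Category.assoc, hb, ← Category.assoc, hc,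
      ← comp_whiskerRight, T.zero, MonoidalPreadditive.zero_whiskerRight, zero_comp]
  have hda : d ≫ a = 0 := by
    rw [← cancel_mono (T.f ▷ S.X₃), Category.assoc, ha, ← Category.assoc, hd,
      ← MonoidalCategory.whiskerLeft_comp, S.zero, MonoidalPreadditive.whiskerLeft_zero, zero_comp]
  have hdb : d ≫ b' = T.g ▷ S.X₁ := by
    rw [← cancel_mono (T.X₃ ◁ S.f), Category.assoc, hb, ← Category.assoc, hd, whisker_exchange]
  have hcd : T.X₁ ◁ S.f ≫ c = T.f ▷ S.X₁ ≫ d := by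
    rw [← cancel_mono (kernel.ι gg), Category.assoc, Category.assoc, hc, hd, whisker_exchange]
  -- the second short exact sequence
  let j : T.X₁ ⊗ S.X₁ ⟶ kernel gg := T.X₁ ◁ S.f ≫ c
  have hj : j = T.f ▷ S.X₁ ≫ d := hcd
  have hjι : j ≫ kernel.ι gg = T.X₁ ◁ S.f ≫ T.f ▷ S.X₂ := by
    change (T.X₁ ◁ S.f ≫ c) ≫ _ = _
    rw [Category.assoc, hc]
  have hjι' : j ≫ kernel.ι gg = T.f ▷ S.X₁ ≫ T.X₂ ◁ S.f := by
    rw [hj, Category.assoc, hd]
  have hja : j ≫ a = 0 := by rw [hj, Category.assoc, hda, comp_zero]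
  have hjb : j ≫ b' = 0 := by
    change (T.X₁ ◁ S.f ≫ c) ≫ b' = 0
    rw [Category.assoc, hcb, comp_zero]
  have hjmono : Mono j := by
    have : Mono (j ≫ kernel.ι gg) := by rw [hjι]; exact mono_comp _ _
    exact mono_of_mono j (kernel.ι gg)
  have hepi : Epi (biprod.lift a b') := by
    have h1 : biprod.desc c d ≫ biprod.lift a b' =
        biprod.map (T.X₁ ◁ S.g) (T.g ▷ S.X₁) := by
      apply biprod.hom_ext'
      · rw [biprod.inl_desc_assoc, biprod.inl_map]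
        apply biprod.hom_ext
        · simp [hca]
        · simp [hcb]
      · rw [biprod.inr_desc_assoc, biprod.inr_map]
        apply biprod.hom_ext
        · simp [hda]
        · simp [hdb]
    have h2 : Epi (biprod.desc c d ≫ biprod.lift a b') := by
      rw [h1]; infer_instance
    exact epi_of_epi (biprod.desc c d) _
  have h1 : (ShortComplex.mk j (biprod.lift a b') (by
      apply biprod.hom_ext
      · simp [hja]
      · simp [hjb])).ShortExact := by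
    refine { exact := ?_, mono_f := hjmono, epi_g := hepi }
    have hz : ∀ {A : C} (k : A ⟶ kernel gg), k ≫ biprod.lift a b' = 0 →
        ∃ l : A ⟶ T.X₁ ⊗ S.X₁, l ≫ j = k := by
      intro A k hk
      have hka : k ≫ a = 0 := by
        have := congrArg (fun t => t ≫ biprod.fst) hk
        simpa using this
      have hkb : k ≫ b' = 0 := by
        have := congrArg (fun t => t ≫ biprod.snd) hk
        simpa using this
      obtain ⟨z, hz⟩ := ex_lift hS2 (k ≫ kernel.ι gg) (by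
        change (k ≫ kernel.ι gg) ≫ T.X₂ ◁ S.g = 0
        rw [Category.assoc, ← ha, ← Category.assoc, hka, zero_comp])
      change z ≫ T.X₂ ◁ S.f = _ at hz
      obtain ⟨z', hz'⟩ := ex_lift hT1 z (by
        change z ≫ T.g ▷ S.X₁ = 0
        rw [← cancel_mono (T.X₃ ◁ S.f), Category.assoc, ← whisker_exchange, ← Category.assoc,
          hz, Category.assoc, ← hb, ← Category.assoc, hkb, zero_comp])
      change z' ≫ T.f ▷ S.X₁ = _ at hz'
      refine ⟨z', ?_⟩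
      rw [← cancel_mono (kernel.ι gg), Category.assoc, hjι', ← Category.assoc, hz', hz]
    exact ShortComplex.exact_of_f_is_kernel _
      (KernelFork.IsLimit.ofι' _ _ fun k hk => ⟨(hz k hk).choose, (hz k hk).choose_spec⟩)
  -- the morphisms of short exact sequences
  have e1 : dl h2 ≫ m.{w} a = tR S.X₃ (dl hT) := by
    have h := dl_nat h2 hT3 ⟨a, T.X₂ ◁ S.g, 𝟙 _, ha, by
      change _ ≫ T.g ▷ S.X₃ = gg ≫ 𝟙 _
      rw [Category.comp_id, hgg']⟩
    change dl h2 ≫ m a = m (𝟙 _) ≫ dl hT3 at h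
    rw [m_id, Category.id_comp] at h
    rw [h, tR_dl]
  have e2 : dl h2 ≫ m.{w} b' = tL T.X₃ (dl hS) := by
    have h := dl_nat h2 hS3 ⟨b', T.g ▷ S.X₂, 𝟙 _, hb, by
      change _ ≫ T.X₃ ◁ S.g = gg ≫ 𝟙 _
      rw [Category.comp_id, hggdef]⟩
    change dl h2 ≫ m b' = m (𝟙 _) ≫ dl hS3 at h
    rw [m_id, Category.id_comp] at h
    rw [h, tL_dl]
  have e3 : m.{w} biprod.inl ≫ dl h1 = tL T.X₁ (dl hS) := by
    have h := dl_nat hS1 h1 ⟨𝟙 _, c, biprod.inl, by
      change 𝟙 _ ≫ j = T.X₁ ◁ S.f ≫ c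
      rw [Category.id_comp], by
      change c ≫ biprod.lift a b' = T.X₁ ◁ S.g ≫ biprod.inl
      apply biprod.hom_ext
      · simp [hca]
      · simp [hcb]⟩
    change dl hS1 ≫ m (𝟙 _) = m biprod.inl ≫ dl h1 at h
    rw [m_id, Category.comp_id] at h
    rw [← h, tL_dl]
  have e4 : m.{w} biprod.inr ≫ dl h1 = tR S.X₁ (dl hT) := by
    have h := dl_nat hT1 h1 ⟨𝟙 _, d, biprod.inr, by
      change 𝟙 _ ≫ j = T.f ▷ S.X₁ ≫ d
      rw [Category.id_comp, hj], by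
      change d ≫ biprod.lift a b' = T.g ▷ S.X₁ ≫ biprod.inr
      apply biprod.hom_ext
      · simp [hda]
      · simp [hdb]⟩
    change dl hT1 ≫ m (𝟙 _) = m biprod.inr ≫ dl h1 at h
    rw [m_id, Category.comp_id] at h
    rw [← h, tR_dl]
  have e5 : m.{w} (biprod.lift a b') ≫ dl h1 = 0 := g_dl h1
  have e6 : biprod.lift a b' = a ≫ biprod.inl + b' ≫ biprod.inr := by
    apply biprod.hom_ext
    · simp
    · simp
  have e7 : m.{w} (biprod.lift a b') = m a ≫ m biprod.inl + m b' ≫ m biprod.inr :=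
    (congrArg m e6).trans (by rw [m_add, m_comp, m_comp])
  have e5' : (m a ≫ m biprod.inl + m b' ≫ m biprod.inr) ≫ dl h1 = 0 := by rw [← e7]; exact e5
  rw [← e1, ← e2, ← e3, ← e4]
  exact three_aux _ _ _ _ _ _ e5'

/-- Positive classes vanish on projective objects. -/
lemma hg_proj {P Y : C} (hP : Projective P) {n : ℕ} {z : b P ⟶ b Y} (hz : Hg.{w} (n + 1) z) :
    z = 0 := by
  obtain ⟨x, rfl⟩ := hz
  rw [Ext.eq_zero_of_projective x, e_zero]

variable [EnoughProjectives C]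

/-- The syzygy. -/
noncomputable abbrev Om (X : C) : C := kernel (Projective.π X)

/-- The class of the syzygy sequence. -/
noncomputable abbrev dO (X : C) : b X ⟶ b (Om X) := dl (shortExact_ker (Projective.π X))

lemma hg_dO (X : C) : Hg.{w} 1 (dO X) := hg_dl _

lemma hg_succ {X Y : C} {n : ℕ} {z : b X ⟶ b Y} (hz : Hg.{w} (n + 1) z) :
    ∃ z' : b (Om X) ⟶ b Y, Hg n z' ∧ dO X ≫ z' = z :=
  desc₃ (shortExact_ker (Projective.π X)) hz
    (hg_proj (Projective.projective_over X) ((hg_m _).comp hz (Nat.zero_add _)))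

lemma cent_dl {n : ℕ} : ∀ {U V : C} {f : b U ⟶ b V}, Hg.{w} n f → ∀ {S : ShortComplex C}
    (hS : S.ShortExact), tR S.X₃ f ≫ tL V (dl hS) =
      ((-1 : ℤ) ^ n) • (tL U (dl hS) ≫ tR S.X₁ f) := by
  induction n with
  | zero =>
    rintro U V f ⟨x, rfl⟩ S hS
    obtain ⟨i, rfl⟩ := (Ext.mk₀_bijective U V).2 x
    change tR S.X₃ (m i) ≫ tL V (dl hS) = ((-1 : ℤ) ^ 0) • (tL U (dl hS) ≫ tR S.X₁ (m i))
    rw [pow_zero, one_smul, tR_m, tR_m, tL_dl, tL_dl]
    exact (dl_nat (sL_exact hS U) (sL_exact hS V) ⟨i ▷ S.X₁, i ▷ S.X₂, i ▷ S.X₃,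
      (whisker_exchange i S.f).symm, (whisker_exchange i S.g).symm⟩).symm
  | succ n ih =>
    intro U V f hf S hS
    obtain ⟨f', hf', rfl⟩ := hg_succ hf
    have h3 := three (shortExact_ker (Projective.π U)) hS
    have h4 : tR S.X₃ (dO U) ≫ tL (Om U) (dl hS) = - (tL U (dl hS) ≫ tR S.X₁ (dO U)) :=
      eq_neg_of_add_eq_zero_left h3
    rw [tR_comp, Category.assoc, ih hf' hS, Preadditive.comp_zsmul, ← Category.assoc, h4,
      tR_comp, pow_succ, Preadditive.neg_comp, Category.assoc, mul_neg_one, neg_smul, smul_neg]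

/-- Classes of even degree are central. -/
lemma cent_hg {k n : ℕ} {U V : C} {f : b U ⟶ b V} (hf : Hg.{w} (2 * k) f) :
    ∀ {X Y : C} {g : b X ⟶ b Y}, Hg.{w} n g → tR X f ≫ tL V g = tL U g ≫ tR Y f := by
  induction n with
  | zero =>
    rintro X Y g ⟨x, rfl⟩
    obtain ⟨i, rfl⟩ := (Ext.mk₀_bijective X Y).2 x
    change tR X f ≫ tL V (m i) = tL U (m i) ≫ tR Y f
    rw [tL_m, tL_m]
    exact bf_nat (tensorRight X) (tensorRight Y) (tr i) f
  | succ n ih =>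
    intro X Y g hg
    obtain ⟨g', hg', rfl⟩ := hg_succ hg
    have h1 : tR X f ≫ tL V (dO X) = ((-1 : ℤ) ^ (2 * k)) • (tL U (dO X) ≫ tR (Om X) f) :=
      cent_dl hf (shortExact_ker (Projective.π X))
    rw [pow_mul, neg_one_sq, one_pow, one_smul] at h1
    rw [tL_comp, ← Category.assoc, h1, Category.assoc, ih hg', tL_comp, Category.assoc]

/-- Classes of even degree are central. -/
lemma cent {k : ℕ} {U V : C} {f : b U ⟶ b V} (hf : Hg.{w} (2 * k) f) {X Y : C}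
    (g : b X ⟶ b Y) : tR X f ≫ tL V g = tL U g ≫ tR Y f := by
  refine hom_induction (P := fun g : b X ⟶ b Y => tR X f ≫ tL V g = tL U g ≫ tR Y f) g ?_ ?_ ?_
  · rw [map_zero, map_zero, zero_comp, comp_zero]
  · intro n x
    exact cent_hg hf ⟨x, rfl⟩
  · intro g g' h h'
    rw [map_add, map_add, Preadditive.comp_add, Preadditive.add_comp, h, h']

lemma tL_unit {U V : C} (f : b U ⟶ b V) :
    tL.{w} (𝟙_ C) f ≫ m (λ_ V).hom = m (λ_ U).hom ≫ f := by
  have h := bf_nat (tensorLeft (𝟙_ C)) (𝟭 C)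
    { app := fun Z => (λ_ Z).hom, naturality := fun Z W g => by simp } f
  rw [bf_id] at h
  exact h

lemma tR_unit {U V : C} (f : b U ⟶ b V) :
    tR.{w} (𝟙_ C) f ≫ m (ρ_ V).hom = m (ρ_ U).hom ≫ f := by
  have h := bf_nat (tensorRight (𝟙_ C)) (𝟭 C)
    { app := fun Z => (ρ_ Z).hom, naturality := fun Z W g => by simp } f
  rw [bf_id] at h
  exact h

lemma tR_nat {X Y : C} (i : X ⟶ Y) {U V : C} (f : b U ⟶ b V) :
    tR.{w} X f ≫ m (V ◁ i) = m (U ◁ i) ≫ tR Y f :=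
  bf_nat (tensorRight X) (tensorRight Y) (tr i) f

lemma tL_nat {X Y : C} (i : X ⟶ Y) {U V : C} (f : b U ⟶ b V) :
    tL.{w} X f ≫ m (i ▷ V) = m (i ▷ U) ≫ tL Y f :=
  bf_nat (tensorLeft X) (tensorLeft Y)
    { app := fun Z => i ▷ Z, naturality := fun Z W g => whisker_exchange i g } f

lemma tR_tR {X Y : C} {U V : C} (f : b U ⟶ b V) :
    tR.{w} Y (tR X f) ≫ m (α_ V X Y).hom = m (α_ U X Y).hom ≫ tR (X ⊗ Y) f := by
  have h := bf_nat (tensorRight X ⋙ tensorRight Y) (tensorRight (X ⊗ Y))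
    { app := fun Z => (α_ Z X Y).hom, naturality := fun Z W g => by simp } f
  rw [bf_bf] at h
  exact h

lemma tR_tL {X Y : C} {U V : C} (f : b U ⟶ b V) :
    tR.{w} Y (tL X f) ≫ m (α_ X V Y).hom = m (α_ X U Y).hom ≫ tL X (tR Y f) := by
  have h := bf_nat (tensorLeft X ⋙ tensorRight Y) (tensorRight Y ⋙ tensorLeft X)
    { app := fun Z => (α_ X Z Y).hom, naturality := fun Z W g => by simp } f
  rw [bf_bf, bf_bf] at h
  exact h

lemma tL_tL {X Y : C} {U V : C} (f : b U ⟶ b V) :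
    tL.{w} (X ⊗ Y) f ≫ m (α_ X Y V).hom = m (α_ X Y U).hom ≫ tL X (tL Y f) := by
  have h := bf_nat (tensorLeft (X ⊗ Y)) (tensorLeft Y ⋙ tensorLeft X)
    { app := fun Z => (α_ X Y Z).hom, naturality := fun Z W g => by simp } f
  rw [bf_bf] at h
  exact h

lemma tR_braid [BraidedCategory C] (X : C) {U V : C} (f : b U ⟶ b V) :
    tR.{w} X f ≫ m (β_ V X).hom = m (β_ U X).hom ≫ tL X f :=
  bf_nat (tensorRight X) (tensorLeft X)
    { app := fun Z => (β_ Z X).hom, naturality := fun Z W g => by simp } f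

/-- The action of the total Ext group of the unit object. -/
noncomputable def act (X : C) (f : b (𝟙_ C) ⟶ b (𝟙_ C)) : b X ⟶ b X :=
  m (λ_ X).inv ≫ tR X f ≫ m (λ_ X).hom

lemma m_iso {X Y : C} (i : X ≅ Y) : m.{w} i.inv ≫ m i.hom = 𝟙 _ := by
  rw [← m_comp, i.inv_hom_id, m_id]

lemma m_iso' {X Y : C} (i : X ≅ Y) : m.{w} i.hom ≫ m i.inv = 𝟙 _ := by
  rw [← m_comp, i.hom_inv_id, m_id]

lemma act_id (X : C) : act.{w} X (𝟙 _) = 𝟙 _ := by
  unfold act
  rw [tR_id, Category.id_comp, m_iso]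

lemma act_zero (X : C) : act.{w} X 0 = 0 := by
  unfold act
  rw [map_zero, zero_comp, comp_zero]

lemma act_add (X : C) (f g : b (𝟙_ C) ⟶ b (𝟙_ C)) : act.{w} X (f + g) = act X f + act X g := by
  unfold act
  rw [map_add, Preadditive.add_comp, Preadditive.comp_add]

lemma act_neg (X : C) (f : b (𝟙_ C) ⟶ b (𝟙_ C)) : act.{w} X (-f) = -act X f := by
  unfold act
  rw [map_neg, Preadditive.neg_comp, Preadditive.comp_neg]

lemma act_sub (X : C) (f g : b (𝟙_ C) ⟶ b (𝟙_ C)) : act.{w} X (f - g) = act X f - act X g := by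
  rw [sub_eq_add_neg, act_add, act_neg, ← sub_eq_add_neg]

lemma act_comp (X : C) (f g : b (𝟙_ C) ⟶ b (𝟙_ C)) : act.{w} X (f ≫ g) = act X f ≫ act X g := by
  unfold act
  rw [tR_comp]
  simp only [Category.assoc]
  rw [← Category.assoc (m (λ_ X).hom), m_iso', Category.id_comp]

lemma act_hg (X : C) {n : ℕ} {f : b (𝟙_ C) ⟶ b (𝟙_ C)} (hf : Hg.{w} n f) : Hg n (act X f) :=
  (hg_m _).comp ((tR_hg X hf).comp (hg_m _) (Nat.add_zero n)) (Nat.zero_add n)

lemma act_m {X Y : C} (i : X ⟶ Y) (f : b (𝟙_ C) ⟶ b (𝟙_ C)) :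
    act.{w} X f ≫ m i = m i ≫ act Y f := by
  unfold act
  have h1 : m.{w} (λ_ X).hom ≫ m i = m (𝟙_ C ◁ i) ≫ m (λ_ Y).hom := by
    rw [← m_comp, ← m_comp, leftUnitor_naturality]
  have h2 : m.{w} (λ_ X).inv ≫ m (𝟙_ C ◁ i) = m i ≫ m (λ_ Y).inv := by
    rw [← m_comp, ← m_comp, leftUnitor_inv_naturality]
  simp only [Category.assoc]
  rw [h1, ← Category.assoc (tR X f), tR_nat, Category.assoc, ← Category.assoc, h2, Category.assoc]

/-- Even classes are central. -/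
lemma act_cent {k : ℕ} {f : b (𝟙_ C) ⟶ b (𝟙_ C)} (hf : Hg.{w} (2 * k) f) {X Y : C}
    (g : b X ⟶ b Y) : act X f ≫ g = g ≫ act Y f := by
  unfold act
  have h1 : m (λ_ X).hom ≫ g = tL (𝟙_ C) g ≫ m (λ_ Y).hom := (tL_unit g).symm
  have h2 : m (λ_ X).inv ≫ tL (𝟙_ C) g = g ≫ m (λ_ Y).inv := by
    rw [← Category.comp_id (tL (𝟙_ C) g), ← m_iso' (λ_ Y), ← Category.assoc (tL (𝟙_ C) g),
      tL_unit, Category.assoc, ← Category.assoc, m_iso, Category.id_comp]
  simp only [Category.assoc]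
  rw [h1, ← Category.assoc (tR X f), cent hf, Category.assoc, ← Category.assoc, h2,
    Category.assoc]

lemma act_unit (f : b (𝟙_ C) ⟶ b (𝟙_ C)) : act.{w} (𝟙_ C) f = f := by
  unfold act
  have h : (λ_ (𝟙_ C)) = (ρ_ (𝟙_ C)) := by
    ext; exact MonoidalCategory.unitors_equal
  rw [h, tR_unit, ← Category.assoc, m_iso, Category.id_comp]

lemma comm_even {k : ℕ} {f : b (𝟙_ C) ⟶ b (𝟙_ C)} (hf : Hg.{w} (2 * k) f)
    (g : b (𝟙_ C) ⟶ b (𝟙_ C)) : f ≫ g = g ≫ f := by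
  have h := act_cent hf g
  rwa [act_unit] at h

lemma act_tensor (X Y : C) (f : b (𝟙_ C) ⟶ b (𝟙_ C)) :
    act.{w} (X ⊗ Y) f = tR Y (act X f) := by
  have h1 : m.{w} ((λ_ X).hom ▷ Y) = m (α_ (𝟙_ C) X Y).hom ≫ m (λ_ (X ⊗ Y)).hom := by
    rw [← m_comp, leftUnitor_tensor_hom, Iso.hom_inv_id_assoc]
  have h2 : m.{w} ((λ_ X).inv ▷ Y) ≫ m (α_ (𝟙_ C) X Y).hom = m (λ_ (X ⊗ Y)).inv := by
    rw [← m_comp, leftUnitor_tensor_inv]
  unfold act
  rw [tR_comp, tR_comp, tR_m, tR_m, h1, ← Category.assoc (tR Y (tR X f)), tR_tR, Category.assoc,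
    ← Category.assoc (m ((λ_ X).inv ▷ Y)), h2]

lemma act_tensor_left [BraidedCategory C] (X Y : C) (f : b (𝟙_ C) ⟶ b (𝟙_ C)) :
    act.{w} (X ⊗ Y) f = tL X (act Y f) := by
  have h1 := act_m (β_ Y X).hom f
  rw [act_tensor Y X, tR_braid] at h1
  have h4 : m.{w} (β_ Y X).inv ≫ m (β_ Y X).hom = 𝟙 _ := m_iso _
  calc act (X ⊗ Y) f = (m (β_ Y X).inv ≫ m (β_ Y X).hom) ≫ act (X ⊗ Y) f := by
        rw [h4, Category.id_comp]
    _ = tL X (act Y f) := by
        rw [Category.assoc, ← h1, ← Category.assoc, h4, Category.id_comp]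

end Cent

end Pool.Agent.TPP2
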