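import Pool.Agent.TPP2.Pt

/-!
# Connectedness of the fibres
-/

set_option autoImplicit false
set_option linter.unusedSectionVars false

namespace Pool.Agent.TPP2

open CategoryTheory CategoryTheory.Limits CategoryTheory.Abelian MonoidalCategory
open Pool.Agent.TPP

universe w v u t

section Conn

variable {k : Type t} [Field k] {C : Type u} [Category.{v} C] [Abelian C] [Linear k C]
  [MonoidalCategory C] [MonoidalPreadditive C] [RigidCategory C] [HasExt.{w} C]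
  [EnoughProjectives C] [BraidedCategory C]

/-- Positive classes from `F` to `G` vanish if `F ⊗ G` is projective. -/
lemma hom_zero {F G : C} (h : Projective (F ⊗ G)) {i : ℕ} {z : b F ⟶ b G}
    (hz : Hg.{w} (i + 1) z) : z = 0 := by
  have h0 : Injective (G ⊗ (Fᘁ ⊗ F)) := by
    apply injective_of_projective
    have h1 : Projective (Fᘁ ⊗ (F ⊗ G)) := projective_tensor_left _ h
    exact Projective.of_iso ((α_ (Fᘁ) F G).symm ≪≫ β_ (Fᘁ ⊗ F) G) h1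
  have h1 : tR (Fᘁ ⊗ F) z = 0 := hg_inj h0 (tR_hg _ hz)
  have h2 := retract_left F (Fᘁ)
  have h3 : m.{w} ((λ_ F).inv ≫ η_ F (Fᘁ) ▷ F ≫ (α_ F (Fᘁ) F).hom) ≫ m (F ◁ ε_ F (Fᘁ)) ≫
      m (ρ_ F).hom = 𝟙 _ := by
    rw [← m_comp, ← m_comp, h2, m_id]
  calc z = (m ((λ_ F).inv ≫ η_ F (Fᘁ) ▷ F ≫ (α_ F (Fᘁ) F).hom) ≫ m (F ◁ ε_ F (Fᘁ)) ≫
      m (ρ_ F).hom) ≫ z := by rw [h3, Category.id_comp]
    _ = m ((λ_ F).inv ≫ η_ F (Fᘁ) ▷ F ≫ (α_ F (Fᘁ) F).hom) ≫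
        (tR (Fᘁ ⊗ F) z ≫ m (G ◁ ε_ F (Fᘁ))) ≫ m (ρ_ G).hom := by
        rw [tR_nat]
        simp only [Category.assoc]
        rw [tR_unit]
    _ = 0 := by rw [h1, zero_comp, zero_comp, comp_zero]

/-- A decomposition of the identity of `X` through objects of two classes. -/
structure Dec (J1 J2 : C → Prop) (X : C) where
  /-- the first object -/
  F : C
  /-- the second object -/
  G : C
  /-- the map to the first object -/
  p1 : X ⟶ F
  /-- the map from the first object -/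
  i1 : F ⟶ X
  /-- the map to the second object -/
  p2 : X ⟶ G
  /-- the map from the second object -/
  i2 : G ⟶ X
  tot : p1 ≫ i1 + p2 ≫ i2 = 𝟙 X
  hF : J1 F
  hG : J2 G

variable {J1 J2 : C → Prop}

/-- the other decomposition -/
def Dec.symm {X : C} (c : Dec J1 J2 X) : Dec J2 J1 X where
  F := c.G
  G := c.F
  p1 := c.p2
  i1 := c.i2
  p2 := c.p1
  i2 := c.i1
  tot := by rw [add_comm]; exact c.tot
  hF := c.hG
  hG := c.hF

lemma ann_symm (hann : ∀ F G, J1 F → J2 G → Projective (F ⊗ G)) :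
    ∀ F G, J2 F → J1 G → Projective (F ⊗ G) := fun F G hF hG =>
  Projective.of_iso (β_ G F) (hann G F hG hF)

/-- Positive central classes annihilate the maps between the two classes. -/
lemma act_cross (hann : ∀ F G, J1 F → J2 G → Projective (F ⊗ G)) {F G : C} (hF : J1 F)
    (hG : J2 G) {q : ℕ} {f : b (𝟙_ C) ⟶ b (𝟙_ C)} (hf : Hg.{w} (q + 1) f) (g : F ⟶ G) :
    act F f ≫ m g = 0 :=
  hom_zero (hann F G hF hG) ((act_hg F hf).comp (hg_m g) (Nat.add_zero _))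

/-- Morphisms commute with the idempotents up to positive classes. -/
lemma act_commute (hann : ∀ F G, J1 F → J2 G → Projective (F ⊗ G)) {X Y : C}
    (c : Dec J1 J2 X) (c' : Dec J1 J2 Y) (t : X ⟶ Y) {q : ℕ}
    {f : b (𝟙_ C) ⟶ b (𝟙_ C)} (hf : Hg.{w} (q + 1) f) :
    act X f ≫ m ((c.p1 ≫ c.i1) ≫ t) = act X f ≫ m (t ≫ c'.p1 ≫ c'.i1) := by
  have h1 : act X f ≫ m (c.p1 ≫ (c.i1 ≫ t ≫ c'.p2) ≫ c'.i2) = 0 := by
    rw [m_comp, m_comp, ← Category.assoc, act_m, Category.assoc, ← Category.assoc (act c.F f),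
      act_cross hann c.hF c'.hG hf, zero_comp, comp_zero]
  have h2 : act X f ≫ m (c.p2 ≫ (c.i2 ≫ t ≫ c'.p1) ≫ c'.i1) = 0 := by
    rw [m_comp, m_comp, ← Category.assoc, act_m, Category.assoc, ← Category.assoc (act c.G f),
      act_cross (ann_symm hann) c.hG c'.hF hf, zero_comp, comp_zero]
  have h3 : (c.p1 ≫ c.i1) ≫ t = c.p1 ≫ (c.i1 ≫ t ≫ c'.p2) ≫ c'.i2 +
      (c.p1 ≫ c.i1) ≫ t ≫ c'.p1 ≫ c'.i1 := by
    calc (c.p1 ≫ c.i1) ≫ t = (c.p1 ≫ c.i1) ≫ t ≫ (c'.p1 ≫ c'.i1 + c'.p2 ≫ c'.i2) := by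
          rw [c'.tot, Category.comp_id]
      _ = _ := by
          simp only [Preadditive.comp_add, Category.assoc]
          rw [add_comm]
  have h4 : t ≫ c'.p1 ≫ c'.i1 = c.p2 ≫ (c.i2 ≫ t ≫ c'.p1) ≫ c'.i1 +
      (c.p1 ≫ c.i1) ≫ t ≫ c'.p1 ≫ c'.i1 := by
    calc t ≫ c'.p1 ≫ c'.i1 = (c.p1 ≫ c.i1 + c.p2 ≫ c.i2) ≫ t ≫ c'.p1 ≫ c'.i1 := by
          rw [c.tot, Category.id_comp]
      _ = _ := by
          simp only [Preadditive.add_comp, Category.assoc]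
          rw [add_comm]
  rw [h3, m_add, Preadditive.comp_add, h1, zero_add]
  conv_rhs => rw [h4, m_add, Preadditive.comp_add, h2, zero_add]

variable {L : List (b (𝟙_ C) ⟶ b (𝟙_ C))} {e0 : ℕ} {x0 : b (𝟙_ C) ⟶ b (𝟙_ C)}

lemma pos_pw (he0 : 0 < e0) (hx0 : Hg.{w} (2 * e0) x0) {M : ℕ} (hM : 0 < M) :
    ∃ q, Hg.{w} (q + 1) (pw x0 M) := by
  have h := hg_even hx0 M
  obtain ⟨q, hq⟩ := Nat.exists_eq_succ_of_ne_zero
    (Nat.mul_ne_zero two_ne_zero (Nat.mul_pos he0 hM).ne')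
  refine ⟨q, ?_⟩
  rw [← Nat.succ_eq_add_one, ← hq]
  exact h

lemma comp_U' {X Y : C} (u : 𝟙_ C ⟶ X) (g : X ⟶ Y) (f : b (𝟙_ C) ⟶ b (𝟙_ C)) :
    f ≫ m.{w} (u ≫ g) = m u ≫ act X f ≫ m g := by
  rw [m_comp, ← Category.assoc, comp_U, Category.assoc]

/-- The idempotent on the unit map comes from the ring in large degrees. -/
lemma exists_h (hann : ∀ F G, J1 F → J2 G → Projective (F ⊗ G)) (he0 : 0 < e0)
    (hx0 : Hg.{w} (2 * e0) x0) (s : Sys L) (c : ∀ n, Dec J1 J2 (s.X n)) (n : ℕ) :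
    ∃ (M : ℕ) (h : b (𝟙_ C) ⟶ b (𝟙_ C)), 0 < M ∧ Hg.{w} (2 * (e0 * M)) h ∧
      pw x0 M ≫ m (s.u n ≫ (c n).p1 ≫ (c n).i1) = h ≫ m (s.u n) := by
  obtain ⟨N0, hN0⟩ := s.P1 n
  obtain ⟨t, ht, i0, hi0⟩ := hN0 N0 le_rfl
  have hx : Hg.{w} (2 * (e0 * (i0 + 1))) (pw x0 (i0 + 1)) := hg_even hx0 _
  obtain ⟨q, hq⟩ := pos_pw he0 hx0 (Nat.succ_pos i0)
  obtain ⟨h, hh, h1⟩ := hi0 (2 * (e0 * (i0 + 1))) (by nlinarith)
    (pw x0 (i0 + 1) ≫ m (s.u N0 ≫ (c N0).p1 ≫ (c N0).i1)) (hx.comp (hg_m _) (Nat.add_zero _))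
  refine ⟨i0 + 1, h, Nat.succ_pos _, hh, ?_⟩
  rw [← h1]
  calc pw x0 (i0 + 1) ≫ m (s.u n ≫ (c n).p1 ≫ (c n).i1)
      = pw x0 (i0 + 1) ≫ m (s.u N0) ≫ m (t ≫ (c n).p1 ≫ (c n).i1) := by
        rw [← m_comp, ← Category.assoc (s.u N0), ht]
    _ = m (s.u N0) ≫ act (s.X N0) (pw x0 (i0 + 1)) ≫ m (t ≫ (c n).p1 ≫ (c n).i1) := by
        rw [← Category.assoc, comp_U, Category.assoc]
    _ = m (s.u N0) ≫ act (s.X N0) (pw x0 (i0 + 1)) ≫ m (((c N0).p1 ≫ (c N0).i1) ≫ t) := by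
        rw [act_commute hann (c N0) (c n) t hq]
    _ = pw x0 (i0 + 1) ≫ m (s.u N0 ≫ ((c N0).p1 ≫ (c N0).i1) ≫ t) := by
        rw [comp_U']
    _ = _ := by
        rw [← Category.assoc (s.u N0), m_comp _ t]
        simp only [Category.assoc]

/-- A nilpotent element which represents the idempotent. -/
lemma nil_pow {X : C} (u : 𝟙_ C ⟶ X) (ee : X ⟶ X) {h x : b (𝟙_ C) ⟶ b (𝟙_ C)} {l : ℕ}
    (hx : Hg.{w} (2 * l) x) (h1 : h ≫ m u = x ≫ m (u ≫ ee))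
    (hid : x ≫ m (u ≫ ee ≫ ee) = x ≫ m (u ≫ ee))
    (hnil : Nil (act X h)) : ∃ q, pw x q ≫ m (u ≫ ee) = 0 := by
  obtain ⟨q, hq⟩ := hnil
  have key : ∀ j, pw h (j + 1) ≫ m u = pw x (j + 1) ≫ m (u ≫ ee) := by
    intro j
    induction j with
    | zero => rw [pw_one, pw_one, h1]
    | succ j ih =>
      calc pw h (j + 1 + 1) ≫ m u = pw h (j + 1) ≫ x ≫ m (u ≫ ee) := by
            change (pw h (j + 1) ≫ h) ≫ m u = _
            rw [Category.assoc, h1]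
        _ = x ≫ (pw h (j + 1) ≫ m u) ≫ m ee := by
            rw [m_comp, ← Category.assoc, ← comm_even hx]
            simp only [Category.assoc]
        _ = x ≫ pw x (j + 1) ≫ m (u ≫ ee ≫ ee) := by
            rw [ih, m_comp, m_comp, m_comp]
            simp only [Category.assoc]
        _ = pw x (j + 1) ≫ x ≫ m (u ≫ ee ≫ ee) := by
            rw [← Category.assoc, comm_even hx, Category.assoc]
        _ = pw x (j + 1 + 1) ≫ m (u ≫ ee) := by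
            rw [hid, ← Category.assoc]
            rfl
  refine ⟨q + 1, ?_⟩
  rw [← key q, comp_U, act_pw]
  change m u ≫ pw (act X h) q ≫ act X h = 0
  rw [hq, zero_comp, comp_zero]

/-- The dichotomy for one Koszul object. -/
lemma dich (p : Point.{w} k C) (hL : ∀ y ∈ L, Mx p y) (hgen : ∀ z, Mx p z → z ∈ Idl L 0)
    (hann : ∀ F G, J1 F → J2 G → Projective (F ⊗ G)) (he0 : 0 < e0)
    (hx0 : Hg.{w} (2 * e0) x0) (hpx : pv p e0 x0 = 1) (s : Sys L)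
    (c : ∀ n, Dec J1 J2 (s.X n)) :
    ∃ N0, ∀ n ≥ N0, (∃ q, pw x0 q ≫ m (s.u n ≫ (c n).p1 ≫ (c n).i1) = 0) ∨
      (∃ q, pw x0 q ≫ m (s.u n ≫ (c n).p2 ≫ (c n).i2) = 0) := by
  obtain ⟨N0, hN0⟩ := s.P2 0
  refine ⟨N0, fun n hn => ?_⟩
  obtain ⟨i0, hi0⟩ := hN0 n hn
  obtain ⟨M, h, hM, hh, h1⟩ := exists_h hann he0 hx0 s c n
  have hX : Hg.{w} (2 * (e0 * M)) (pw x0 M) := hg_even hx0 M
  obtain ⟨q, hq⟩ := pos_pw he0 hx0 hM
  have hpX : pv p (e0 * M) (pw x0 M) = 1 := by rw [pv_pw p hx0, hpx, one_pow]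
  set ee := (c n).p1 ≫ (c n).i1 with hee
  set ff := (c n).p2 ≫ (c n).i2 with hff
  have htot : ee + ff = 𝟙 _ := (c n).tot
  -- the idempotent
  have hid : pw x0 M ≫ m (s.u n ≫ ee ≫ ee) = pw x0 M ≫ m (s.u n ≫ ee) := by
    have h2 := act_commute hann (c n) (c n) (𝟙 _) hq
    have h3 : act (s.X n) (pw x0 M) ≫ m (ff ≫ ee) = 0 := by
      have h4 : ff ≫ ee = (c n).p2 ≫ ((c n).i2 ≫ (c n).p1) ≫ (c n).i1 := by
        rw [hee, hff]; simp only [Category.assoc]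
      rw [h4, m_comp, m_comp, ← Category.assoc, act_m, Category.assoc,
        ← Category.assoc (act (c n).G _), act_cross (ann_symm hann) (c n).hG (c n).hF hq,
        zero_comp, comp_zero]
    have h5 : ee = ee ≫ ee + ff ≫ ee := by
      rw [← Preadditive.add_comp, htot, Category.id_comp]
    have h6 : act (s.X n) (pw x0 M) ≫ m ee = act (s.X n) (pw x0 M) ≫ m (ee ≫ ee) := by
      conv_lhs => rw [h5, m_add, Preadditive.comp_add, h3, add_zero]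
    rw [comp_U', comp_U', h6]
  have hid' : pw x0 M ≫ m (s.u n ≫ ff ≫ ff) = pw x0 M ≫ m (s.u n ≫ ff) := by
    have h5 : ff = 𝟙 _ - ee := by rw [← htot]; abel
    have h6 : s.u n ≫ ff ≫ ff = s.u n ≫ ff - s.u n ≫ ee + s.u n ≫ ee ≫ ee := by
      rw [h5]
      simp only [Preadditive.comp_sub, Preadditive.sub_comp, Category.comp_id, Category.id_comp]
      abel
    rw [h6, m_add, m_sub, Preadditive.comp_add, Preadditive.comp_sub, hid]
    abel
  -- the equation for `h`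
  have h2 : (h ≫ (pw x0 M - h)) ≫ m (s.u n) = 0 := by
    have h3 : h ≫ h ≫ m (s.u n) = h ≫ pw x0 M ≫ m (s.u n) := by
      calc h ≫ h ≫ m (s.u n) = h ≫ pw x0 M ≫ m (s.u n ≫ ee) := by rw [h1]
        _ = pw x0 M ≫ (h ≫ m (s.u n)) ≫ m ee := by
            rw [← Category.assoc, ← comm_even hX, m_comp]
            simp only [Category.assoc]
        _ = pw x0 M ≫ pw x0 M ≫ m (s.u n ≫ ee ≫ ee) := by
            rw [← h1, Category.assoc, ← m_comp, Category.assoc (s.u n)]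
        _ = pw x0 M ≫ h ≫ m (s.u n) := by rw [hid, h1]
        _ = h ≫ pw x0 M ≫ m (s.u n) := by
            rw [← Category.assoc, comm_even hX, Category.assoc]
    rw [Preadditive.comp_sub, Preadditive.sub_comp, Category.assoc, Category.assoc, h3, sub_self]
  -- the value at the point
  have hval : pv p (e0 * M) h * (1 - pv p (e0 * M) h) = 0 := by
    have hz : Hg.{w} (2 * (e0 * M + e0 * M)) (h ≫ (pw x0 M - h)) :=
      hh.comp (hX.sub hh) (Nat.mul_add 2 _ _).symm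
    have hz' : Hg.{w} (2 * (e0 * i0 + (e0 * M + e0 * M))) (pw x0 i0 ≫ h ≫ (pw x0 M - h)) :=
      (hg_even hx0 i0).comp hz (Nat.mul_add 2 _ _).symm
    have h3 : pw x0 i0 ≫ h ≫ (pw x0 M - h) ∈ Idl L 0 := by
      refine hi0 _ (by nlinarith) _ hz' ?_
      rw [Category.assoc, h2, comp_zero]
    have h4 := pv_idl p hL h3 (e0 * i0 + (e0 * M + e0 * M))
    rw [pv_mul p (hg_even hx0 i0) hz, pv_pw p hx0, hpx, one_pow, one_mul,
      pv_mul p hh (hX.sub hh), pv_sub, hpX] at h4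
    exact h4
  have hcmp : ∀ {z : b (𝟙_ C) ⟶ b (𝟙_ C)}, Hg.{w} (2 * (e0 * M)) z → pv p (e0 * M) z = 0 →
      Nil (act (s.X n) z) := by
    intro z hz hz0
    have h3 := nil_idl (fun y hy => by
      obtain ⟨l, -, hl, -⟩ := hL y hy
      exact ⟨l, hl⟩) (s.P4 n) (hgen z ⟨e0 * M, Nat.mul_pos he0 hM, hz, hz0⟩) (e0 * M)
    rwa [hz.cmp_eq] at h3
  rcases mul_eq_zero.1 hval with h0 | h0
  · left
    obtain ⟨j, hj⟩ := nil_pow (s.u n) ee hX h1.symm hid (hcmp hh h0)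
    exact ⟨M * j, by rw [pw_mul]; exact hj⟩
  · right
    have h3 : (pw x0 M - h) ≫ m (s.u n) = pw x0 M ≫ m (s.u n ≫ ff) := by
      have h5 : ff = 𝟙 _ - ee := by rw [← htot]; abel
      rw [Preadditive.sub_comp, ← h1, h5, Preadditive.comp_sub, Category.comp_id, m_sub,
        Preadditive.comp_sub]
    obtain ⟨j, hj⟩ := nil_pow (s.u n) ff hX h3 hid' (hcmp (hX.sub hh) (by rw [pv_sub, hpX, h0]))
    exact ⟨M * j, by rw [pw_mul]; exact hj⟩

/-- The last step. -/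
lemma nil_of_unit (hann : ∀ F G, J1 F → J2 G → Projective (F ⊗ G)) (he0 : 0 < e0)
    (hx0 : Hg.{w} (2 * e0) x0) (s : Sys L) (n : ℕ) (c : Dec J1 J2 (s.X n)) {q : ℕ}
    (hq : pw x0 q ≫ m (s.u n ≫ c.p1 ≫ c.i1) = 0) {F : C} (hF : J1 F)
    (hy : ∀ y ∈ L, act.{w} F (pw y (n + 1)) = 0) : Nil (act F x0) := by
  obtain ⟨r, hr⟩ := s.P5 n F hy
  refine ⟨q + 1, ?_⟩
  rw [← act_pw]
  obtain ⟨j, hj⟩ := pos_pw he0 hx0 (Nat.succ_pos q)
  have h1 : tR F (pw x0 (q + 1) ≫ m (s.u n)) = 0 := by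
    have h2 : pw x0 (q + 1) ≫ m (s.u n ≫ c.p1 ≫ c.i1) = 0 := by
      have : pw x0 (q + 1) = x0 ≫ pw x0 q := pw_comm rfl q
      rw [this, Category.assoc, hq, comp_zero]
    have h3 : pw x0 (q + 1) ≫ m (s.u n) = (pw x0 (q + 1) ≫ m (s.u n ≫ c.p2)) ≫ m c.i2 := by
      calc pw x0 (q + 1) ≫ m (s.u n) = pw x0 (q + 1) ≫ m (s.u n ≫ (c.p1 ≫ c.i1 + c.p2 ≫ c.i2)) := by
            rw [c.tot, Category.comp_id]
        _ = pw x0 (q + 1) ≫ m (s.u n ≫ c.p1 ≫ c.i1) +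
            (pw x0 (q + 1) ≫ m (s.u n ≫ c.p2)) ≫ m c.i2 := by
            rw [Preadditive.comp_add, m_add, Preadditive.comp_add, Category.assoc, ← m_comp,
              Category.assoc]
        _ = _ := by rw [h2, zero_add]
    rw [h3, tR_comp]
    have h4 : tR F (pw x0 (q + 1) ≫ m (s.u n ≫ c.p2)) = 0 :=
      hg_inj (injective_of_projective (Projective.of_iso (β_ F c.G) (hann F c.G hF c.hG)))
        (tR_hg F (hj.comp (hg_m _) (Nat.add_zero _)))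
    rw [h4, zero_comp]
  calc act F (pw x0 (q + 1)) = act F (pw x0 (q + 1)) ≫ m ((λ_ F).inv ≫ s.u n ▷ F) ≫ r := by
        rw [hr, Category.comp_id]
    _ = m (λ_ F).inv ≫ tR F (pw x0 (q + 1) ≫ m (s.u n)) ≫ r := by
        rw [m_comp, tR_comp, tR_m]
        simp only [← Category.assoc]
        rw [act_L]
    _ = 0 := by rw [h1, zero_comp, comp_zero]

/-- Powers of the elements of a finite list vanish. -/
lemma exists_bound {F : C} : ∀ L : List (b (𝟙_ C) ⟶ b (𝟙_ C)), (∀ y ∈ L, Nil (act.{w} F y)) →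
    ∃ n0, ∀ n ≥ n0, ∀ y ∈ L, act.{w} F (pw y (n + 1)) = 0 := by
  intro L
  induction L with
  | nil => exact fun _ => ⟨0, fun _ _ y hy => absurd hy List.not_mem_nil⟩
  | cons y L ih =>
    intro hL
    obtain ⟨n1, h1⟩ := ih fun z hz => hL z (List.mem_cons_of_mem _ hz)
    obtain ⟨n2, h2⟩ := hL y List.mem_cons_self
    refine ⟨max n1 n2, fun n hn z hz => ?_⟩
    rcases List.mem_cons.1 hz with rfl | hz
    · rw [act_pw]
      exact Nil.of_le h2 (by have := le_max_right n1 n2; omega)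
    · exact h1 n (le_trans (le_max_left _ _) hn) z hz

lemma mx_nil (p : Point.{w} k C) {F : C} (hF : SuppAt p F) {z : b (𝟙_ C) ⟶ b (𝟙_ C)}
    (hz : Mx p z) : Nil (act F z) := by
  obtain ⟨l, hl, ⟨y, rfl⟩, h0⟩ := hz
  rw [pv_e] at h0
  exact (kill_iff y).1 (hF l hl y h0)

/-- An element with value `1`. -/
lemma exists_x0 (p : Point.{w} k C) (hp : Relevant p) :
    ∃ (e0 : ℕ) (x0 : Ext.{w} (𝟙_ C) (𝟙_ C) (2 * e0)), 0 < e0 ∧ p.toFun e0 x0 = 1 := by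
  obtain ⟨n, hn, y, hy⟩ := hp
  refine ⟨n, (p.toFun n y)⁻¹ • y, hn, ?_⟩
  rw [p.map_smul, inv_mul_cancel₀ hy]

/-- Koszul objects are supported at the point. -/
lemma suppAt_of_list (p : Point.{w} k C) {L : List (b (𝟙_ C) ⟶ b (𝟙_ C))} (hL : ∀ y ∈ L, Mx p y)
    (hgen : ∀ z, Mx p z → z ∈ Idl L 0) {F : C} (hF : ∀ y ∈ L, Nil (act.{w} F y)) :
    SuppAt p F := by
  intro l hl y hy
  rw [kill_iff]
  have h3 := nil_idl (fun y hy => by
    obtain ⟨l, -, hl, -⟩ := hL y hy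
    exact ⟨l, hl⟩) hF (hgen (e y) ⟨l, hl, hg_e y, by rw [pv_e, hy]⟩) l
  rwa [cmp_e] at h3

/-- The main result on connectedness. -/
theorem connected (hfg : FGCoh.{w} k C) (hgen : FinGen C) (p : Point.{w} k C)
    (hann : ∀ F G, J1 F → J2 G → Projective (F ⊗ G))
    (hdec : ∀ X, SuppAt p X → Nonempty (Dec J1 J2 X)) :
    (∀ F, J1 F → SuppAt p F → Projective F) ∨ (∀ G, J2 G → SuppAt p G → Projective G) := by
  by_cases hp : Relevant p
  swap
  · left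
    intro F _ hS
    refine proj_of_nil hfg hgen fun l hl z => (kill_iff z).1 (hS l hl z ?_)
    by_contra hne
    exact hp ⟨l, hl, z, hne⟩
  have hacc := acc_of_fg hfg
  obtain ⟨L, hL, hLg⟩ := exists_list p hacc
  obtain ⟨s⟩ := exists_sys hacc L (fun y hy => by
    obtain ⟨l, hl, h, -⟩ := hL y hy
    exact ⟨l, hl, h⟩)
  have hc : ∀ n, Nonempty (Dec J1 J2 (s.X n)) := fun n =>
    hdec _ (suppAt_of_list p hL hLg (s.P4 n))
  let c : ∀ n, Dec J1 J2 (s.X n) := fun n => (hc n).some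
  obtain ⟨e0, x0, he0, hx0⟩ := exists_x0 p hp
  obtain ⟨N0, hN0⟩ := dich p hL hLg hann he0 (hg_e x0) (by rw [pv_e, hx0]) s c
  by_cases hcase : ∀ N, ∃ n ≥ N, ∃ q, pw (e x0) q ≫ m (s.u n ≫ (c n).p1 ≫ (c n).i1) = 0
  · left
    intro F hF hS
    obtain ⟨n0, hn0⟩ := exists_bound L fun y hy => mx_nil p hS (hL y hy)
    obtain ⟨n, hn, q, hq⟩ := hcase n0
    have h0 := nil_of_unit hann he0 (hg_e x0) s n (c n) hq hF (hn0 n hn)
    exact proj_of_nil hfg hgen fun l hl z => nil_all p he0 x0 hx0 hS h0 hl z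
  · right
    intro G hG hS
    obtain ⟨n0, hn0⟩ := exists_bound L fun y hy => mx_nil p hS (hL y hy)
    simp only [not_forall, not_exists, not_and] at hcase
    obtain ⟨N1, hN1⟩ := hcase
    have hn1 : max n0 (max N0 N1) ≥ N1 := le_trans (le_max_right _ _) (le_max_right _ _)
    have hn2 : max n0 (max N0 N1) ≥ N0 := le_trans (le_max_left _ _) (le_max_right _ _)
    have hn3 : max n0 (max N0 N1) ≥ n0 := le_max_left _ _
    generalize max n0 (max N0 N1) = n at hn1 hn2 hn3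
    obtain ⟨q, hq⟩ := (hN0 n hn2).resolve_left (fun ⟨q, hq⟩ => hN1 n hn1 q hq)
    have h0 := nil_of_unit (ann_symm hann) he0 (hg_e x0) s n (c n).symm hq hG (hn0 n hn3)
    exact proj_of_nil hfg hgen fun l hl z => nil_all p he0 x0 hx0 hS h0 hl z

end Conn

end Pool.Agent.TPP2
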