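import Pool.Agent.TPP2.Kosz

/-!
# Koszul systems: the induction step
-/

set_option autoImplicit false
set_option linter.unusedSectionVars false

namespace Pool.Agent.TPP2

open CategoryTheory CategoryTheory.Limits CategoryTheory.Abelian MonoidalCategory
open Pool.Agent.TPP

universe w v u

section Cons

variable {C : Type u} [Category.{v} C] [Abelian C] [HasExt.{w} C]
  [MonoidalCategory C] [MonoidalPreadditive C] [RigidCategory C] [EnoughProjectives C]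

variable {L : List (b (𝟙_ C) ⟶ b (𝟙_ C))} {y : b (𝟙_ C) ⟶ b (𝟙_ C)} {e' : ℕ} {d : ℕ → ℕ}

/-- the unit map of the new system -/
def nu (s : Sys L) (c : ∀ n, Cone (d n) (pw y (n + 1))) (n : ℕ) : 𝟙_ C ⟶ (c n).E ⊗ s.X n :=
  s.u n ≫ (λ_ (s.X n)).inv ≫ (c n).u ▷ s.X n

lemma m_nu (s : Sys L) (c : ∀ n, Cone (d n) (pw y (n + 1))) (n : ℕ) :
    m.{w} (nu s c n) = m (s.u n) ≫ m (λ_ (s.X n)).inv ≫ m ((c n).u ▷ s.X n) := by
  unfold nu
  rw [m_comp, m_comp]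

/-- Multiplication with a class and the unit map. -/
lemma comp_U {X : C} (u : 𝟙_ C ⟶ X) (f : b (𝟙_ C) ⟶ b (𝟙_ C)) :
    f ≫ m.{w} u = m u ≫ act X f := by
  have h := act_m.{w} u f
  rwa [act_unit] at h

lemma P3_cons (s : Sys L) (c : ∀ n, Cone (d n) (pw y (n + 1))) (n : ℕ)
    (h : b (𝟙_ C) ⟶ b (𝟙_ C)) (hh : h ∈ Idl.{w} (y :: L) n) : h ≫ m (nu s c n) = 0 := by
  rw [mem_idl_cons] at hh
  obtain ⟨a, z', hz', rfl⟩ := hh
  have h1 : pw y (n + 1) ≫ m (nu s c n) = 0 := by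
    have h2 : tR.{w} (s.X n) (pw y (n + 1)) ≫ m ((c n).u ▷ s.X n) = 0 := by
      rw [← tR_m, ← tR_comp, (c n).comp_u, map_zero]
    rw [m_nu, ← Category.assoc, comp_U, Category.assoc, ← Category.assoc (act _ _), act_L,
      Category.assoc, h2, comp_zero, comp_zero]
  have h3 : z' ≫ m (nu s c n) = 0 := by
    rw [m_nu, ← Category.assoc, s.P3 n z' hz', zero_comp]
  rw [Preadditive.add_comp, Category.assoc, h1, comp_zero, h3, add_zero]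

lemma P4_cons [BraidedCategory C] (hy : Hg.{w} (2 * e') y)
    (hd : ∀ n, d n + 1 = 2 * (e' * (n + 1))) (s : Sys L)
    (c : ∀ n, Cone (d n) (pw y (n + 1))) (n : ℕ) (z : b (𝟙_ C) ⟶ b (𝟙_ C)) (hz : z ∈ y :: L) :
    Nil (act.{w} ((c n).E ⊗ s.X n) z) := by
  rcases List.mem_cons.1 hz with rfl | hz
  · refine ⟨(n + 1) * 2, ?_⟩
    rw [act_tensor, ← tR_pw, pw_mul, ← act_pw]
    have h := (c n).nilp (hg_even hy (n + 1)) (hd n)
    have h' : pw (act (c n).E (pw z (n + 1))) 2 = 0 := by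
      change (𝟙 _ ≫ _) ≫ _ = _
      rw [Category.id_comp, h]
    rw [h', map_zero]
  · obtain ⟨k, hk⟩ := s.P4 n z hz
    refine ⟨k, ?_⟩
    rw [act_tensor_left, ← tL_pw, hk, map_zero]

lemma P5_cons [BraidedCategory C] (s : Sys L) (c : ∀ n, Cone (d n) (pw y (n + 1))) (n : ℕ)
    (F : C) (hF : ∀ z ∈ y :: L, act.{w} F (pw z (n + 1)) = 0) :
    ∃ r : b (((c n).E ⊗ s.X n) ⊗ F) ⟶ b F, m ((λ_ F).inv ≫ nu s c n ▷ F) ≫ r = 𝟙 _ := by
  obtain ⟨r0, hr0⟩ := s.P5 n F (fun z hz => hF z (List.mem_cons_of_mem _ hz))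
  have h1 : tR (s.X n ⊗ F) (pw y (n + 1)) = 0 := by
    apply tR_of_act
    rw [act_tensor_left, hF y List.mem_cons_self, map_zero]
  obtain ⟨r1, hr1⟩ := (c n).split (s.X n ⊗ F) h1
  refine ⟨m (α_ _ _ _).hom ≫ r1 ≫ m (λ_ _).hom ≫ r0, ?_⟩
  have h2 : ((λ_ F).inv ≫ nu s c n ▷ F) ≫ (α_ (c n).E (s.X n) F).hom =
      ((λ_ F).inv ≫ s.u n ▷ F) ≫ ((λ_ (s.X n ⊗ F)).inv ≫ (c n).u ▷ (s.X n ⊗ F)) := by
    unfold nu
    rw [leftUnitor_tensor_inv]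
    simp
  calc m ((λ_ F).inv ≫ nu s c n ▷ F) ≫ m (α_ _ _ _).hom ≫ r1 ≫ m (λ_ _).hom ≫ r0
      = m (((λ_ F).inv ≫ nu s c n ▷ F) ≫ (α_ _ _ _).hom) ≫ r1 ≫ m (λ_ _).hom ≫ r0 := by
        rw [m_comp _ (α_ _ _ _).hom, Category.assoc]
    _ = m ((λ_ F).inv ≫ s.u n ▷ F) ≫ m (λ_ (s.X n ⊗ F)).inv ≫
        (m ((c n).u ▷ (s.X n ⊗ F)) ≫ r1) ≫ m (λ_ _).hom ≫ r0 := by
        rw [h2, m_comp _ ((λ_ (s.X n ⊗ F)).inv ≫ _), m_comp (λ_ (s.X n ⊗ F)).inv]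
        simp only [Category.assoc]
    _ = 𝟙 _ := by
        rw [hr1, Category.id_comp, ← Category.assoc (m (λ_ _).inv), m_iso, Category.id_comp, hr0]

/-- The first part of the argument: a class into `𝟙 ⊗ X` that dies in `E ⊗ X` is divisible. -/
lemma div_aux {x : b (𝟙_ C) ⟶ b (𝟙_ C)} {n : ℕ} (c : Cone n x) (X : C) {j : ℕ}
    {z : b (𝟙_ C) ⟶ b (𝟙_ C ⊗ X)} (hz : Hg.{w} (j + 1 + n + 1) z) (h : z ≫ m (c.u ▷ X) = 0) :
    ∃ z2 : b (𝟙_ C) ⟶ b (𝟙_ C ⊗ X), Hg (j + 1) z2 ∧ z2 ≫ tR X x = z := by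
  obtain ⟨z1, hz1, h1⟩ := lift₁ (sR_exact c.ex X) hz h
  obtain ⟨z2, hz2, h2⟩ := om_lift X n hz1
  refine ⟨z2, hz2, ?_⟩
  calc z2 ≫ tR X x = z2 ≫ tR X (om C n ≫ dl c.ex) := by rw [c.cl]
    _ = (z2 ≫ tR X (om C n)) ≫ tR X (dl c.ex) := by rw [tR_comp, Category.assoc]
    _ = z1 ≫ tR X (dl c.ex) := by rw [h2]
    _ = z1 ≫ dl (sR_exact c.ex X) := congrArg (z1 ≫ ·) (tR_dl c.ex X)
    _ = z := h1

lemma P2_cons (hy : Hg.{w} (2 * e') y)
    (hd : ∀ n, d n + 1 = 2 * (e' * (n + 1))) (s : Sys L)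
    (c : ∀ n, Cone (d n) (pw y (n + 1))) (n : ℕ) :
    ∃ N0, ∀ N ≥ N0, ∃ i0, ∀ i ≥ i0, ∀ h : b (𝟙_ C) ⟶ b (𝟙_ C), Hg.{w} i h →
      h ≫ m (nu s c N) = 0 → h ∈ Idl (y :: L) n := by
  obtain ⟨n1, hn1⟩ := s.P2 n
  obtain ⟨N1, hN1⟩ := s.P1 n1
  refine ⟨max n N1, fun N hN => ?_⟩
  obtain ⟨i2, hi2⟩ := hn1 n1 le_rfl
  obtain ⟨t, ht, i1, hi1⟩ := hN1 N (le_trans (le_max_right _ _) hN)
  refine ⟨i1 + i2 + d N + 2, fun i hi h hh h0 => ?_⟩
  obtain ⟨j, hj⟩ : ∃ j, i = j + 1 + d N + 1 := ⟨i - (d N + 2), by omega⟩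
  subst hj
  rw [m_nu, ← Category.assoc, ← Category.assoc] at h0
  obtain ⟨z2, hz2, h2⟩ := div_aux (c N) (s.X N)
    ((hh.comp (hg_m _) (Nat.add_zero _)).comp (hg_m _) (Nat.add_zero _)) h0
  -- the class in `X N`
  have hv : Hg (j + 1) (z2 ≫ m (λ_ (s.X N)).hom) := hz2.comp (hg_m _) (Nat.add_zero _)
  obtain ⟨h', hh', h3⟩ := hi1 (j + 1) (by omega) _ hv
  have h4 : (z2 ≫ m (λ_ (s.X N)).hom) ≫ act (s.X N) (pw y (N + 1)) = h ≫ m (s.u N) := by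
    unfold act
    rw [Category.assoc, ← Category.assoc (m (λ_ (s.X N)).hom), m_iso', Category.id_comp,
      ← Category.assoc, h2, Category.assoc, m_iso, Category.comp_id]
  have h5 : h ≫ m (s.u n1) = (h' ≫ pw y (N + 1)) ≫ m (s.u n1) := by
    calc h ≫ m (s.u n1) = (h ≫ m (s.u N)) ≫ m t := by rw [Category.assoc, ← m_comp, ht]
      _ = (z2 ≫ m (λ_ (s.X N)).hom) ≫ act (s.X N) (pw y (N + 1)) ≫ m t := by
          rw [← h4, Category.assoc]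
      _ = ((z2 ≫ m (λ_ (s.X N)).hom) ≫ m t) ≫ act (s.X n1) (pw y (N + 1)) := by
          rw [act_m, Category.assoc, Category.assoc, Category.assoc]
      _ = _ := by rw [h3, Category.assoc, ← comp_U, Category.assoc]
  have h6 : h - h' ≫ pw y (N + 1) ∈ Idl L n := by
    refine hi2 (j + 1 + d N + 1) (by omega) _ (hh.sub (hh'.comp (hg_even hy (N + 1)) ?_)) ?_
    · rw [← hd N]; omega
    · rw [Preadditive.sub_comp, h5, sub_self]
  rw [mem_idl_cons]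
  obtain ⟨k, rfl⟩ := Nat.exists_eq_add_of_le (le_trans (le_max_left _ _) hN)
  refine ⟨h' ≫ pw y k, _, h6, ?_⟩
  have h7 : pw y (n + k + 1) = pw y k ≫ pw y (n + 1) := by
    rw [← pw_add]; congr 1; omega
  rw [h7, Category.assoc]
  abel

/-- The first half of `P1`. -/
lemma P1_aux (hacc : ACC C) (hy : Hg.{w} (2 * e') y) (hd : ∀ n, d n + 1 = 2 * (e' * (n + 1)))
    (s : Sys L) (c : ∀ n, Cone (d n) (pw y (n + 1))) (n : ℕ) :
    ∃ N0, ∀ N ≥ N0, ∃ t : (c N).E ⊗ s.X N ⟶ (c n).E ⊗ s.X n, nu s c N ≫ t = nu s c n ∧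
      ∃ i0, ∀ i ≥ i0, ∀ w' : b (𝟙_ C) ⟶ b ((c N).E ⊗ s.X N), Hg.{w} i w' →
        (w' ≫ m t) ≫ m ((c n).q ▷ s.X n) = 0 := by
  -- the levels
  obtain ⟨N2, hN2⟩ := s.P2 n
  obtain ⟨N1, hN1⟩ := s.P1 n
  set n2 := max N2 N1 with hn2
  obtain ⟨t', ht', -⟩ := hN1 n2 (le_max_right _ _)
  obtain ⟨i2, hi2⟩ := hN2 n2 (le_max_left _ _)
  obtain ⟨N3, hN3⟩ := s.P1 n2
  -- the chain
  obtain ⟨M, ⟨c0, rfl⟩, hM⟩ := hacc (Set.range fun k : ℕ =>
    (Idl L n).comap (Preadditive.rightComp (b (𝟙_ C)) (pw y k))) ⟨_, 0, rfl⟩ (by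
      rintro _ ⟨k, rfl⟩ a z hz
      change z ≫ pw y k ∈ Idl L n at hz
      change (a ≫ z) ≫ pw y k ∈ Idl L n
      rw [Category.assoc]
      exact idl_left a hz)
  have hM' : ∀ k, ∀ z : b (𝟙_ C) ⟶ b (𝟙_ C), z ≫ pw y k ∈ Idl L n → z ≫ pw y c0 ∈ Idl L n := by
    intro k z hz
    refine hM _ ⟨c0 + k, rfl⟩ ?_ ?_
    · intro z' hz'
      change z' ≫ pw y c0 ∈ Idl L n at hz'
      change z' ≫ pw y (c0 + k) ∈ Idl L n
      rw [pw_add, ← Category.assoc]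
      exact idl_comm (hg_even hy k) hz'
    · change z ≫ pw y (c0 + k) ∈ Idl L n
      rw [Nat.add_comm, pw_add, ← Category.assoc]
      exact idl_comm (hg_even hy c0) hz
  refine ⟨max (n + c0) N3, fun N hN => ?_⟩
  obtain ⟨t2, ht2, i3, hi3⟩ := hN3 N (le_trans (le_max_right _ _) hN)
  obtain ⟨k, hk⟩ := Nat.exists_eq_add_of_le (le_trans (le_max_left _ _) hN)
  -- the transition of the cones
  obtain ⟨τ, τQ, hτ, hτq, hτo⟩ := (c N).trans (c n) (hg_even hy (c0 + k))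
    (by
      have h1 := hd N
      have h2 := hd n
      have h3 : e' * (N + 1) = e' * (c0 + k) + e' * (n + 1) := by rw [hk]; ring
      omega)
    (by
      have h3 : N + 1 = c0 + k + (n + 1) := by omega
      rw [← pw_add, h3])
  refine ⟨τ ▷ s.X N ≫ (c n).E ◁ (t2 ≫ t'), ?_, i2 + i3 + d N + 2, ?_⟩
  · have h1 : s.u N ≫ (t2 ≫ t') = s.u n := by rw [← Category.assoc, ht2, ht']
    unfold nu
    calc (s.u N ≫ (λ_ (s.X N)).inv ≫ (c N).u ▷ s.X N) ≫ τ ▷ s.X N ≫ (c n).E ◁ (t2 ≫ t')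
        = s.u N ≫ (λ_ (s.X N)).inv ≫ ((c N).u ≫ τ) ▷ s.X N ≫ (c n).E ◁ (t2 ≫ t') := by
          rw [comp_whiskerRight]; simp only [Category.assoc]
      _ = s.u N ≫ (λ_ (s.X N)).inv ≫ (𝟙_ C) ◁ (t2 ≫ t') ≫ (c n).u ▷ s.X n := by
          rw [hτ, ← whisker_exchange]
      _ = s.u N ≫ (t2 ≫ t') ≫ (λ_ (s.X n)).inv ≫ (c n).u ▷ s.X n := by
          rw [← leftUnitor_inv_naturality_assoc]
      _ = _ := by rw [← Category.assoc, h1]
  · intro i hi w' hw'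
    obtain ⟨j, hj⟩ : ∃ j, i = j + 1 + d N := ⟨i - (d N + 1), by omega⟩
    subst hj
    obtain ⟨z2, hz2, h2⟩ := om_lift (s.X N) (d N) (hw'.comp (hg_m ((c N).q ▷ s.X N))
      (Nat.add_zero _))
    have hv : Hg (j + 1) (z2 ≫ m (λ_ (s.X N)).hom) := hz2.comp (hg_m _) (Nat.add_zero _)
    obtain ⟨h', hh', h3⟩ := hi3 (j + 1) (by omega) _ hv
    -- `y ^ (N + 1)` annihilates the class
    have h4 : z2 ≫ tR (s.X N) (pw y (N + 1)) = 0 := by
      have h5 : tR (s.X N) (pw y (N + 1)) = tR (s.X N) (om C (d N)) ≫ tR (s.X N) (dl (c N).ex) := by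
        rw [← tR_comp, (c N).cl]
      have h6 : m ((c N).q ▷ s.X N) ≫ tR (s.X N) (dl (c N).ex) = 0 := by
        rw [← tR_m, ← tR_comp]
        have h7 : m.{w} (c N).q ≫ dl (c N).ex = 0 := g_dl (c N).ex
        rw [h7, map_zero]
      rw [h5, ← Category.assoc, h2, Category.assoc, h6, comp_zero]
    have h5 : (z2 ≫ m (λ_ (s.X N)).hom) ≫ act (s.X N) (pw y (N + 1)) = 0 := by
      unfold act
      rw [Category.assoc, ← Category.assoc (m (λ_ (s.X N)).hom), m_iso', Category.id_comp,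
        ← Category.assoc, h4, zero_comp]
    have h6 : h' ≫ pw y (N + 1) ∈ Idl L n := by
      refine hi2 (j + 1 + 2 * (e' * (N + 1))) (by have := hd N; omega) _
        (hh'.comp (hg_even hy (N + 1)) rfl) ?_
      rw [Category.assoc, comp_U, ← Category.assoc, ← h3, Category.assoc, ← act_m,
        ← Category.assoc, h5, zero_comp]
    have h7 : (h' ≫ pw y (c0 + k)) ≫ m (s.u n) = 0 := by
      apply s.P3
      rw [pw_add, ← Category.assoc]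
      exact idl_comm (hg_even hy k) (hM' _ _ h6)
    -- the composition
    have h8 : (τ ▷ s.X N ≫ (c n).E ◁ (t2 ≫ t')) ≫ (c n).q ▷ s.X n =
        (c N).q ▷ s.X N ≫ τQ ▷ s.X N ≫ Q C (d n) ◁ (t2 ≫ t') := by
      rw [Category.assoc, whisker_exchange, ← Category.assoc, ← comp_whiskerRight, hτq,
        comp_whiskerRight, Category.assoc]
    have h9 : tR (s.X N) (om C (d N)) ≫ m (τQ ▷ s.X N) ≫ m (Q C (d n) ◁ (t2 ≫ t')) =
        m (𝟙_ C ◁ (t2 ≫ t')) ≫ tR (s.X n) (pw y (c0 + k)) ≫ tR (s.X n) (om C (d n)) := by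
      rw [← Category.assoc, ← tR_m, ← tR_comp, hτo, tR_nat, tR_comp]
    have h10 : z2 ≫ m (𝟙_ C ◁ (t2 ≫ t')) = (h' ≫ m (s.u n)) ≫ m (λ_ (s.X n)).inv := by
      have h11 : h' ≫ m (s.u n) = (z2 ≫ m (λ_ (s.X N)).hom) ≫ m (t2 ≫ t') := by
        rw [m_comp, ← Category.assoc _ (m t2), h3, Category.assoc, ← m_comp, ht']
      rw [h11, Category.assoc, Category.assoc, ← m_comp, ← m_comp, leftUnitor_inv_naturality,
        Iso.hom_inv_id_assoc]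
    calc (w' ≫ m (τ ▷ s.X N ≫ (c n).E ◁ (t2 ≫ t'))) ≫ m ((c n).q ▷ s.X n)
        = (w' ≫ m ((c N).q ▷ s.X N)) ≫ m (τQ ▷ s.X N) ≫ m (Q C (d n) ◁ (t2 ≫ t')) := by
          rw [Category.assoc, ← m_comp, h8, m_comp, m_comp]; simp only [Category.assoc]
      _ = (z2 ≫ m (𝟙_ C ◁ (t2 ≫ t'))) ≫ tR (s.X n) (pw y (c0 + k)) ≫
          tR (s.X n) (om C (d n)) := by
          rw [← h2, Category.assoc, h9, Category.assoc]
      _ = ((h' ≫ pw y (c0 + k)) ≫ m (s.u n)) ≫ m (λ_ (s.X n)).inv ≫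
          tR (s.X n) (om C (d n)) := by
          rw [h10, Category.assoc, Category.assoc, ← Category.assoc (m (λ_ (s.X n)).inv), ← act_L]
          simp only [Category.assoc]
          rw [← Category.assoc (m (s.u n)), ← comp_U]
          simp only [Category.assoc]
      _ = 0 := by rw [h7, zero_comp]

lemma P1_cons (hacc : ACC C) (hy : Hg.{w} (2 * e') y)
    (hd : ∀ n, d n + 1 = 2 * (e' * (n + 1)))
    (s : Sys L) (c : ∀ n, Cone (d n) (pw y (n + 1))) (n : ℕ) :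
    ∃ N0, ∀ N ≥ N0, ∃ t : (c N).E ⊗ s.X N ⟶ (c n).E ⊗ s.X n, nu s c N ≫ t = nu s c n ∧
      ∃ i0, ∀ i ≥ i0, ∀ w' : b (𝟙_ C) ⟶ b ((c N).E ⊗ s.X N), Hg.{w} i w' →
        ∃ h : b (𝟙_ C) ⟶ b (𝟙_ C), Hg i h ∧ w' ≫ m t = h ≫ m (nu s c n) := by
  obtain ⟨N1, hN1⟩ := s.P1 n
  set n' := max n N1 with hn'
  obtain ⟨t', ht', i1, hi1⟩ := hN1 n' (le_max_right _ _)
  obtain ⟨N2, hN2⟩ := P1_aux hacc hy hd s c n'
  obtain ⟨k, hk⟩ := Nat.exists_eq_add_of_le (le_max_left n N1)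
  rw [← hn'] at hk
  obtain ⟨τ, τQ, hτ, hτq, hτo⟩ := (c n').trans (c n) (hg_even hy k)
    (by
      have h1 := hd n'
      have h2 := hd n
      have h3 : e' * (n' + 1) = e' * k + e' * (n + 1) := by rw [hk]; ring
      omega)
    (by
      have h3 : n' + 1 = k + (n + 1) := by omega
      rw [← pw_add, h3])
  refine ⟨N2, fun N hN => ?_⟩
  obtain ⟨t2, ht2, i2, hi2⟩ := hN2 N hN
  refine ⟨t2 ≫ τ ▷ s.X n' ≫ (c n).E ◁ t', ?_, i1 + i2, fun i hi w' hw' => ?_⟩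
  · rw [← Category.assoc, ht2]
    unfold nu
    calc (s.u n' ≫ (λ_ (s.X n')).inv ≫ (c n').u ▷ s.X n') ≫ τ ▷ s.X n' ≫ (c n).E ◁ t'
        = s.u n' ≫ (λ_ (s.X n')).inv ≫ ((c n').u ≫ τ) ▷ s.X n' ≫ (c n).E ◁ t' := by
          rw [comp_whiskerRight]; simp only [Category.assoc]
      _ = s.u n' ≫ (λ_ (s.X n')).inv ≫ (𝟙_ C) ◁ t' ≫ (c n).u ▷ s.X n := by
          rw [hτ, ← whisker_exchange]
      _ = s.u n' ≫ t' ≫ (λ_ (s.X n)).inv ≫ (c n).u ▷ s.X n := by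
          rw [← leftUnitor_inv_naturality_assoc]
      _ = _ := by rw [← Category.assoc, ht']
  · have h1 := hi2 i (by omega) w' hw'
    obtain ⟨z, hz, h2⟩ : ∃ z : b (𝟙_ C) ⟶ b (𝟙_ C ⊗ s.X n'), Hg i z ∧
        z ≫ m ((c n').u ▷ s.X n') = w' ≫ m t2 :=
      lift₂ (sR_exact (c n').ex (s.X n')) (hw'.comp (hg_m t2) (Nat.add_zero _)) h1
    obtain ⟨h, hh, h3⟩ := hi1 i (by omega) (z ≫ m (λ_ (s.X n')).hom)
      (hz.comp (hg_m _) (Nat.add_zero _))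
    refine ⟨h, hh, ?_⟩
    have h4 : (c n').u ▷ s.X n' ≫ τ ▷ s.X n' ≫ (c n).E ◁ t' = (𝟙_ C) ◁ t' ≫ (c n).u ▷ s.X n := by
      rw [← Category.assoc, ← comp_whiskerRight, hτ, whisker_exchange]
    have h5 : (λ_ (s.X n')).hom ≫ t' ≫ (λ_ (s.X n)).inv = (𝟙_ C) ◁ t' := by
      rw [leftUnitor_inv_naturality, Iso.hom_inv_id_assoc]
    rw [m_comp t2, ← Category.assoc, ← h2, Category.assoc, ← m_comp, h4, ← h5, m_nu,
      ← Category.assoc h, ← h3]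
    simp only [m_comp, Category.assoc]

/-- Existence of Koszul systems. -/
lemma exists_sys [BraidedCategory C] (hacc : ACC C) : ∀ (L : List (b (𝟙_ C) ⟶ b (𝟙_ C))),
    (∀ y ∈ L, ∃ k, 0 < k ∧ Hg.{w} (2 * k) y) → Nonempty (Sys L) := by
  intro L
  induction L with
  | nil => exact fun _ => ⟨sysNil⟩
  | cons y L ih =>
    intro hL
    obtain ⟨s⟩ := ih (fun z hz => hL z (List.mem_cons_of_mem _ hz))
    obtain ⟨e', he, hy⟩ := hL y List.mem_cons_self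
    have hd : ∀ n : ℕ, ∃ d, d + 1 = 2 * (e' * (n + 1)) := fun n =>
      ⟨2 * (e' * (n + 1)) - 1, by
        have : 0 < e' * (n + 1) := Nat.mul_pos he (Nat.succ_pos n)
        omega⟩
    choose d hd using hd
    have hc : ∀ n, Nonempty (Cone (d n) (pw y (n + 1))) := fun n => exists_cone (by
      rw [hd]; exact hg_even hy (n + 1))
    let c : ∀ n, Cone (d n) (pw y (n + 1)) := fun n => (hc n).some
    exact ⟨{ X := fun n => (c n).E ⊗ s.X n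
             u := nu s c
             P1 := P1_cons hacc hy hd s c
             P2 := P2_cons hy hd s c
             P3 := P3_cons s c
             P4 := P4_cons hy hd s c
             P5 := P5_cons s c }⟩

end Cons

end Pool.Agent.TPP2
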