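import Pool.Agent.TPP2.Approx

/-!
# Decompositions from approximations; decompositions are closed under extensions
-/

set_option autoImplicit false
set_option linter.unusedSectionVars false

namespace Pool.Agent.TPP2

open CategoryTheory CategoryTheory.Limits MonoidalCategory CategoryTheory.Abelian
open Pool.Agent.TPP

universe w v u t

variable {C : Type u} [Category.{v} C] [Abelian C] [MonoidalCategory C] [MonoidalPreadditive C]
  [RigidCategory C] [EnoughProjectives C] [BraidedCategory C]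

/-- The objects whose tensor products with the objects of `J` are projective. -/
def Orth (J : C → Prop) : C → Prop := fun G => ∀ Z, J Z → Projective (G ⊗ Z)

lemma thick_orth (J : C → Prop) : ThickIdeal (Orth J) where
  retract i r h hY Z hZ := (thick_ann Z).retract i r h (hY Z hZ)
  ext hS h1 h3 Z hZ := (thick_ann Z).ext hS (h1 Z hZ) (h3 Z hZ)
  proj hP Z _ := (thick_ann Z).proj hP
  left X _ hY Z hZ := (thick_ann Z).left X (hY Z hZ)
  right Y hX Z hZ := (thick_ann Z).right Y (hX Z hZ)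

lemma orth_ann (J : C → Prop) : ∀ F G, J F → Orth J G → Projective (F ⊗ G) := fun F G hF hG =>
  Projective.of_iso (β_ G F) (hG F hF)

/-- A minimal approximation decomposes the object. -/
lemma dec_of_approx {J : C → Prop} (hJ : ThickIdeal J) {T F : C} {f : F ⟶ T}
    (hF : IsApproxT J T F f) (hmin : ∀ h : F ⟶ F, h ≫ f = f → IsIso h) :
    Nonempty (Dec J (Orth J) T) := by
  have hepi : Epi f := by
    obtain ⟨h, hh⟩ := hF.2 _ (hJ.proj (Projective.projective_over T)) (Projective.π T)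
    have : Epi (h ≫ f) := by rw [hh]; infer_instance
    exact epi_of_epi h f
  have hQ1 : Injective (Fᘁ ⊗ kernel f) :=
    injective_tensor_kernelT hJ hF hmin (hJ.rightDual hF.1)
  have hQi : Injective (F ⊗ (Fᘁ ⊗ kernel f)) := injective_tensor_left _ hQ1
  have hQp : Projective (F ⊗ (Fᘁ ⊗ kernel f)) := projective_of_injective hQi
  obtain ⟨P, hPi, hPp, α, β, hαβ⟩ : ∃ (P : C) (_ : Injective P) (_ : Projective P)
      (α : kernel f ⟶ P) (β : P ⟶ F), α ≫ β = kernel.ι f :=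
    ⟨_, hQi, hQp, _, _, factor_dual (F := F) (F' := Fᘁ) (kernel.ι f)⟩
  have hαm : Mono α := by
    have : Mono (α ≫ β) := by rw [hαβ]; infer_instance
    exact mono_of_mono α β
  let γ : F ⟶ P := Injective.factorThru α (kernel.ι f)
  have hγ : kernel.ι f ≫ γ = α := Injective.comp_factorThru α (kernel.ι f)
  have hzero : kernel.ι f ≫ (𝟙 F - γ ≫ β) = 0 := by
    rw [Preadditive.comp_sub, Category.comp_id, ← Category.assoc, hγ, hαβ, sub_self]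
  have hex := (shortExact_ker f).exact
  obtain ⟨g, hg⟩ : ∃ g : T ⟶ F, f ≫ g = 𝟙 F - γ ≫ β :=
    ⟨hex.desc (𝟙 F - γ ≫ β) hzero, hex.g_desc _ _⟩
  have hS := shortExact_coker α
  obtain ⟨δ, hδ⟩ : ∃ δ : T ⟶ cokernel α, f ≫ δ = γ ≫ cokernel.π α :=
    ⟨hex.desc (γ ≫ cokernel.π α) (by
      change kernel.ι f ≫ γ ≫ cokernel.π α = 0
      rw [← Category.assoc, hγ, cokernel.condition]), hex.g_desc _ _⟩
  obtain ⟨ε, hε⟩ : ∃ ε : cokernel α ⟶ T, cokernel.π α ≫ ε = β ≫ f :=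
    ⟨cokernel.desc α (β ≫ f) (by rw [← Category.assoc, hαβ, kernel.condition]),
      cokernel.π_desc _ _ _⟩
  refine ⟨{ F := F, G := cokernel α, p1 := g, i1 := f, p2 := δ, i2 := ε, hF := hF.1,
            tot := ?_, hG := ?_ }⟩
  · rw [← cancel_epi f, Preadditive.comp_add, ← Category.assoc, hg, ← Category.assoc f δ, hδ,
      Category.assoc γ, hε, Preadditive.sub_comp, Category.id_comp, Category.comp_id,
      Category.assoc, sub_add_cancel]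
  · intro Z hZ
    have hinj : Injective (Z ⊗ kernel f) := injective_tensor_kernelT hJ hF hmin hZ
    obtain ⟨s, hs⟩ := split_epi (hS.map_of_exact (tensorLeft Z)) hinj
    have h1 : Projective (Z ⊗ cokernel α) :=
      projective_of_retract s (Z ◁ cokernel.π α) hs (projective_tensor_left Z hPp)
    exact Projective.of_iso (β_ Z (cokernel α)) h1

section Ext

variable [HasExt.{w} C]

/-- Morphisms of short exact sequences from equalities of classes. -/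
lemma glue {S T : ShortComplex C} (hS : S.ShortExact) (hT : T.ShortExact) (α : S.X₁ ⟶ T.X₁)
    (γ : S.X₃ ⟶ T.X₃) (h : dl.{w} hS ≫ m α = m γ ≫ dl hT) :
    ∃ β : S.X₂ ⟶ T.X₂, S.f ≫ β = α ≫ T.f ∧ β ≫ T.g = S.g ≫ γ := by
  have hmono := hT.mono_f
  obtain ⟨z0, hz0, h3⟩ := lift₃ hT (z := m.{w} (S.g ≫ γ)) (hg_m _) (by
    rw [m_comp, Category.assoc, ← h, ← Category.assoc, g_dl hS, zero_comp])
  obtain ⟨β0, rfl⟩ := hg_zero_iff hz0
  have h4 : β0 ≫ T.g = S.g ≫ γ := m_inj ((m_comp _ _).trans h3)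
  obtain ⟨s, hs⟩ := ex_lift hT (S.f ≫ β0) (by
    rw [Category.assoc, h4, ← Category.assoc, S.zero, zero_comp])
  have h5 : dl.{w} hS ≫ m s = m γ ≫ dl hT := dl_nat.{w} hS hT ⟨s, β0, γ, hs, h4⟩
  have h6 : dl.{w} hS ≫ m (s - α) = 0 := by
    rw [m_sub, Preadditive.comp_sub, h5, h, sub_self]
  obtain ⟨z1, hz1, h7⟩ := desc₁ hS (hg_m (s - α)) h6
  obtain ⟨τ1, rfl⟩ := hg_zero_iff hz1
  have h8 : S.f ≫ τ1 = s - α := m_inj ((m_comp _ _).trans h7)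
  refine ⟨β0 - τ1 ≫ T.f, ?_, ?_⟩
  · rw [Preadditive.comp_sub, ← hs, ← Category.assoc, h8, Preadditive.sub_comp]
    abel
  · rw [Preadditive.sub_comp, Category.assoc, T.zero, comp_zero, sub_zero, h4]

/-- Every class of degree one is the class of a short exact sequence. -/
lemma realize {X Y : C} {δ : b X ⟶ b Y} (hδ : Hg.{w} 1 δ) :
    ∃ (E : C) (i : Y ⟶ E) (q : E ⟶ X) (z : i ≫ q = 0) (h : (ShortComplex.mk i q z).ShortExact),
      dl.{w} h = δ := by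
  obtain ⟨z', hz', h1⟩ := hg_succ hδ
  obtain ⟨g, rfl⟩ := hg_zero_iff hz'
  obtain ⟨E, i, q, z, h, hd⟩ := pushout_exact.{w} (shortExact_ker (Projective.π X)) g
  exact ⟨E, i, q, z, h, hd.trans h1⟩

variable {J1 J2 : C → Prop}

/-- One half of the decomposition of an extension. -/
lemma dec_half (hJ1 : ThickIdeal J1) (hann : ∀ F G, J1 F → J2 G → Projective (F ⊗ G))
    {S : ShortComplex C} (hS : S.ShortExact) (c1 : Dec J1 J2 S.X₁) (c3 : Dec J1 J2 S.X₃) :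
    ∃ (E : C) (φ : S.X₂ ⟶ E) (ψ : E ⟶ S.X₂), J1 E ∧ S.f ≫ φ ≫ ψ = (c1.p1 ≫ c1.i1) ≫ S.f ∧
      (φ ≫ ψ) ≫ S.g = S.g ≫ c3.p1 ≫ c3.i1 := by
  have hδ : Hg.{w} 1 (m c3.i1 ≫ dl hS ≫ m c1.p1) :=
    (hg_m _).comp ((hg_dl hS).comp (hg_m _) (Nat.add_zero 1)) (Nat.zero_add 1)
  obtain ⟨E, i, q, z, h, hd⟩ := realize hδ
  have hx1 : m c3.i2 ≫ dl.{w} hS ≫ m c1.p1 = 0 :=
    hom_zero (ann_symm hann _ _ c3.hG c1.hF) (i := 0)
      ((hg_m _).comp ((hg_dl hS).comp (hg_m _) (Nat.add_zero 1)) (Nat.zero_add 1))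
  have hx2 : m c3.i1 ≫ dl.{w} hS ≫ m c1.p2 = 0 :=
    hom_zero (hann _ _ c3.hF c1.hG) (i := 0)
      ((hg_m _).comp ((hg_dl hS).comp (hg_m _) (Nat.add_zero 1)) (Nat.zero_add 1))
  have ht1 : m.{w} c1.p1 ≫ m c1.i1 + m c1.p2 ≫ m c1.i2 = 𝟙 _ := by
    rw [← m_comp, ← m_comp, ← m_add, c1.tot, m_id]
  have ht3 : m.{w} c3.p1 ≫ m c3.i1 + m c3.p2 ≫ m c3.i2 = 𝟙 _ := by
    rw [← m_comp, ← m_comp, ← m_add, c3.tot, m_id]
  obtain ⟨φ, hφ1, hφ2⟩ := glue.{w} hS h c1.p1 c3.p1 (by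
    rw [hd]
    calc dl.{w} hS ≫ m c1.p1 = (m.{w} c3.p1 ≫ m c3.i1 + m c3.p2 ≫ m c3.i2) ≫
          dl.{w} hS ≫ m c1.p1 := by rw [ht3, Category.id_comp]
      _ = m c3.p1 ≫ (m c3.i1 ≫ dl.{w} hS ≫ m c1.p1) +
          m c3.p2 ≫ (m c3.i2 ≫ dl.{w} hS ≫ m c1.p1) := by
          simp only [Preadditive.add_comp, Category.assoc]
      _ = _ := by rw [hx1, comp_zero, add_zero])
  obtain ⟨ψ, hψ1, hψ2⟩ := glue.{w} h hS c1.i1 c3.i1 (by
    rw [hd]
    calc (m c3.i1 ≫ dl.{w} hS ≫ m c1.p1) ≫ m c1.i1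
        = (m c3.i1 ≫ dl.{w} hS ≫ m c1.p1) ≫ m c1.i1 +
          (m c3.i1 ≫ dl.{w} hS ≫ m c1.p2) ≫ m c1.i2 := by rw [hx2, zero_comp, add_zero]
      _ = m c3.i1 ≫ dl.{w} hS ≫ (m c1.p1 ≫ m c1.i1 + m c1.p2 ≫ m c1.i2) := by
          simp only [Preadditive.comp_add, Category.assoc]
      _ = _ := by rw [ht1, Category.comp_id])
  change S.f ≫ φ = c1.p1 ≫ i at hφ1
  change φ ≫ q = S.g ≫ c3.p1 at hφ2
  change i ≫ ψ = c1.i1 ≫ S.f at hψ1
  change ψ ≫ S.g = q ≫ c3.i1 at hψ2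
  refine ⟨E, φ, ψ, hJ1.ext h c1.hF c3.hF, ?_, ?_⟩
  · rw [← Category.assoc, hφ1, Category.assoc, hψ1, Category.assoc]
  · rw [Category.assoc, hψ2, ← Category.assoc, hφ2, Category.assoc]

/-- Extensions of decomposed objects are decomposed. -/
lemma dec_ext (hJ1 : ThickIdeal J1) (hJ2 : ThickIdeal J2)
    (hann : ∀ F G, J1 F → J2 G → Projective (F ⊗ G))
    {S : ShortComplex C} (hS : S.ShortExact) (c1 : Dec J1 J2 S.X₁) (c3 : Dec J1 J2 S.X₃) :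
    Nonempty (Dec J1 J2 S.X₂) := by
  have hmono := hS.mono_f
  have hepi := hS.epi_g
  obtain ⟨E, φ, ψ, hE, h1, h2⟩ := dec_half.{w} hJ1 hann hS c1 c3
  obtain ⟨E', φ', ψ', hE', h1', h2'⟩ := dec_half.{w} hJ2 (ann_symm hann) hS c1.symm c3.symm
  change S.f ≫ φ' ≫ ψ' = (c1.p2 ≫ c1.i2) ≫ S.f at h1'
  change (φ' ≫ ψ') ≫ S.g = S.g ≫ c3.p2 ≫ c3.i2 at h2'
  set θ := φ ≫ ψ + φ' ≫ ψ' with hθ
  have hf : S.f ≫ (θ - 𝟙 _) = 0 := by
    rw [hθ, Preadditive.comp_sub, Preadditive.comp_add, h1, h1', ← Preadditive.add_comp, c1.tot,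
      Category.id_comp, Category.comp_id, sub_self]
  have hg : (θ - 𝟙 _) ≫ S.g = 0 := by
    rw [hθ, Preadditive.sub_comp, Preadditive.add_comp, h2, h2', ← Preadditive.comp_add, c3.tot,
      Category.id_comp, Category.comp_id, sub_self]
  obtain ⟨κ, hκ⟩ : ∃ κ : S.X₃ ⟶ S.X₂, S.g ≫ κ = θ - 𝟙 _ :=
    ⟨hS.exact.desc _ hf, hS.exact.g_desc _ _⟩
  have hsq : (θ - 𝟙 _) ≫ (θ - 𝟙 _) = 0 := by
    rw [← hκ, ← Category.assoc, hκ, hg, zero_comp]
  refine ⟨{ F := E, G := E', p1 := φ, i1 := ψ ≫ (𝟙 _ - (θ - 𝟙 _)), p2 := φ',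
            i2 := ψ' ≫ (𝟙 _ - (θ - 𝟙 _)), hF := hE, hG := hE', tot := ?_ }⟩
  have h3 : φ ≫ ψ ≫ (𝟙 _ - (θ - 𝟙 _)) + φ' ≫ ψ' ≫ (𝟙 _ - (θ - 𝟙 _)) =
      θ ≫ (𝟙 _ - (θ - 𝟙 _)) := by
    rw [hθ]
    simp only [Preadditive.add_comp, Category.assoc]
  rw [h3]
  calc θ ≫ (𝟙 _ - (θ - 𝟙 _)) = (𝟙 _ + (θ - 𝟙 _)) ≫ (𝟙 _ - (θ - 𝟙 _)) := by
        rw [add_sub_cancel]
    _ = 𝟙 _ - (θ - 𝟙 _) ≫ (θ - 𝟙 _) := by
        generalize θ - 𝟙 _ = η
        simp only [Preadditive.add_comp, Preadditive.comp_sub, Category.id_comp, Category.comp_id]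
        abel
    _ = 𝟙 _ := by rw [hsq, sub_zero]

/-- The decomposable objects form a thick tensor ideal. -/
lemma thick_dec (hJ1 : ThickIdeal J1) (hJ2 : ThickIdeal J2)
    (hann : ∀ F G, J1 F → J2 G → Projective (F ⊗ G)) :
    ThickIdeal fun X : C => Nonempty (Dec J1 J2 X) where
  retract := by
    rintro X Y i r h ⟨c⟩
    refine ⟨{ F := c.F, G := c.G, p1 := i ≫ c.p1, i1 := c.i1 ≫ r, p2 := i ≫ c.p2,
              i2 := c.i2 ≫ r, hF := c.hF, hG := c.hG, tot := ?_ }⟩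
    have h1 : i ≫ (c.p1 ≫ c.i1 + c.p2 ≫ c.i2) ≫ r = 𝟙 X := by
      rw [c.tot, Category.id_comp, h]
    rw [← h1]
    simp only [Preadditive.add_comp, Preadditive.comp_add, Category.assoc]
  ext := by
    rintro S hS ⟨c1⟩ ⟨c3⟩
    exact dec_ext.{w} hJ1 hJ2 hann hS c1 c3
  proj := by
    intro P hP
    exact ⟨{ F := P, G := P, p1 := 𝟙 P, i1 := 𝟙 P, p2 := 0, i2 := 0, hF := hJ1.proj hP,
             hG := hJ2.proj hP, tot := by simp }⟩
  left := by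
    rintro X Y ⟨c⟩
    refine ⟨{ F := X ⊗ c.F, G := X ⊗ c.G, p1 := X ◁ c.p1, i1 := X ◁ c.i1, p2 := X ◁ c.p2,
              i2 := X ◁ c.i2, hF := hJ1.left X c.hF, hG := hJ2.left X c.hG, tot := ?_ }⟩
    rw [← MonoidalCategory.whiskerLeft_comp, ← MonoidalCategory.whiskerLeft_comp,
      ← MonoidalPreadditive.whiskerLeft_add, c.tot, MonoidalCategory.whiskerLeft_id]
  right := by
    rintro X Y ⟨c⟩
    refine ⟨{ F := c.F ⊗ Y, G := c.G ⊗ Y, p1 := c.p1 ▷ Y, i1 := c.i1 ▷ Y, p2 := c.p2 ▷ Y,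
              i2 := c.i2 ▷ Y, hF := hJ1.right Y c.hF, hG := hJ2.right Y c.hG, tot := ?_ }⟩
    rw [← comp_whiskerRight, ← comp_whiskerRight, ← MonoidalPreadditive.add_whiskerRight, c.tot,
      id_whiskerRight]

end Ext

end Pool.Agent.TPP2
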