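import Pool.Agent.TPP.Main

/-!
# Definitions for the connectedness of the fibres (MP_4f3b9e_al)
-/

set_option autoImplicit false
set_option linter.unusedSectionVars false

namespace Pool.Agent.TPP2

open CategoryTheory CategoryTheory.Limits CategoryTheory.Abelian MonoidalCategory
open Pool.Agent.TPP

universe w v u t

variable (k : Type t) [Field k] (C : Type u) [Category.{v} C] [Abelian C] [Linear k C]
  [MonoidalCategory C] [MonoidalPreadditive C] [RigidCategory C] [HasExt.{w} C]

/-- Finitely generated cohomology: there are finitely many homogeneous elements `x i` of positive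
even degree in `Ext(𝟙, 𝟙)` such that for every object `X` the total Ext group `Ext(X, X)` is a
finitely generated module over the algebra generated by the `x i`, which acts by right
multiplication with `x i ⊗ id_X`: it has finitely many homogeneous elements `e j` such that every
family of subspaces of the `Ext^n(X, X)` which contains the `e j` and is stable under these
multiplications is everything. -/
def FGCoh : Prop :=
  ∃ (r : ℕ) (d : Fin r → ℕ) (x : ∀ i, Ext.{w} (𝟙_ C) (𝟙_ C) (2 * d i)), (∀ i, 0 < d i) ∧
    ∀ X : C, ∃ (s : ℕ) (a : Fin s → ℕ) (e : ∀ j, Ext.{w} X X (a j)),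
      ∀ N : ∀ n, Submodule k (Ext.{w} X X n), (∀ j, e j ∈ N (a j)) →
        (∀ (n : ℕ) (z : Ext.{w} X X n) (i : Fin r), z ∈ N n →
          z.comp (tensId X (x i)) rfl ∈ N (n + 2 * d i)) → ∀ n, N n = ⊤

/-- Finitely many objects generate the category by extensions (for example the simple objects of a
finite tensor category). -/
def FinGen : Prop :=
  ∃ (n : ℕ) (S : Fin n → C), ∀ J : C → Prop, (∀ Z, IsZero Z → J Z) → (∀ i, J (S i)) →
    (∀ T : ShortComplex C, T.ShortExact → J T.X₁ → J T.X₃ → J T.X₂) → ∀ X, J X

variable {k C}

/-- The object `X` is supported at the point `p`: every homogeneous element of positive even degree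
at which `p` vanishes acts nilpotently on `X`. -/
def SuppAt (p : Point.{w} k C) (X : C) : Prop :=
  ∀ n, 0 < n → ∀ y : Ext.{w} (𝟙_ C) (𝟙_ C) (2 * n), p.toFun n y = 0 → Kill y X

/-- The point is not the irrelevant one: it does not vanish on all elements of positive degree. -/
def Relevant (p : Point.{w} k C) : Prop := ∃ n, 0 < n ∧ ∃ y, p.toFun n y ≠ 0

end Pool.Agent.TPP2
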