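import Pool.Agent.TPP2.Loc

/-!
# Connectedness of the fibres, intrinsic form
-/

set_option autoImplicit false
set_option linter.unusedSectionVars false

namespace Pool.Agent.TPP2

open CategoryTheory CategoryTheory.Limits MonoidalCategory CategoryTheory.Abelian
open Pool.Agent.TPP

universe w v u t

section Fib

variable {k : Type t} [Field k] {C : Type u} [Category.{v} C] [Abelian C] [Linear k C]
  [MonoidalCategory C] [MonoidalPreadditive C] [RigidCategory C] [HasExt.{w} C]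
  [EnoughProjectives C] [BraidedCategory C]

/-- Some element with value one at the point is nilpotent on the object. -/
def Neg (p : Point.{w} k C) (Z : C) : Prop :=
  ∃ (n : ℕ) (s : Ext.{w} (𝟙_ C) (𝟙_ C) (2 * n)), 0 < n ∧ p.toFun n s = 1 ∧ Kill s Z

lemma neg_iff (p : Point.{w} k C) (hp : Relevant p) (Z : C) : Neg p Z ↔ ¬ VB p Z := by
  constructor
  · rintro ⟨n, s, hn, hs, hk⟩ h
    rw [kill_iff] at hk
    obtain ⟨N, hN⟩ := hk
    rw [← act_pw] at hN
    have h1 := h (n * N) _ (hg_even (hg_e s) N) hN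
    rw [pv_pw p (hg_e s), pv_e, hs, one_pow] at h1
    exact one_ne_zero h1
  · intro hcon
    obtain ⟨e0, x0, he0, hx0⟩ := exists_x0 p hp
    have hpx : pv p e0 (e x0) = 1 := by rw [pv_e, hx0]
    unfold VB at hcon
    simp only [not_forall] at hcon
    obtain ⟨l, z, hz, hz0, hzp⟩ := hcon
    obtain ⟨y, hy⟩ : Hg.{w} (2 * (l + e0)) (z ≫ e x0) := hz.comp (hg_e x0) (Nat.mul_add 2 _ _).symm
    have hpy : p.toFun (l + e0) y = pv p l z := by
      rw [← pv_e, ← hy, pv_mul p hz (hg_e x0), hpx, mul_one]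
    refine ⟨l + e0, (p.toFun (l + e0) y)⁻¹ • y, by omega, ?_, ?_⟩
    · rw [p.map_smul, inv_mul_cancel₀ (by rw [hpy]; exact hzp)]
    · rw [kill_iff]
      refine ⟨1, ?_⟩
      rw [pw_one, e_smul, act_comp, ← hy, act_comp, hz0, zero_comp, zero_comp]

lemma kill_mul {Z : C} {n n' : ℕ} (s : Ext.{w} (𝟙_ C) (𝟙_ C) (2 * n))
    (s' : Ext.{w} (𝟙_ C) (𝟙_ C) (2 * n')) (h : Kill s Z) :
    Kill (s.comp s' (Nat.mul_add 2 n n').symm) Z := by
  rw [kill_iff] at h ⊢
  rw [e_comp, comm_even (hg_e s), act_comp]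
  exact Nil.comp (act_comm_even (hg_e s') _) h

lemma kill_mul' {Z : C} {n n' : ℕ} (s : Ext.{w} (𝟙_ C) (𝟙_ C) (2 * n))
    (s' : Ext.{w} (𝟙_ C) (𝟙_ C) (2 * n')) (h : Kill s' Z) :
    Kill (s.comp s' (Nat.mul_add 2 n n').symm) Z := by
  rw [kill_iff] at h ⊢
  rw [e_comp, act_comp]
  exact Nil.comp (act_comm_even (hg_e s) _) h

lemma kill_ext {n : ℕ} (hn : 0 < n) (y : Ext.{w} (𝟙_ C) (𝟙_ C) (2 * n)) {S : ShortComplex C}
    (hS : S.ShortExact) (G : C) (h1 : Kill y (S.X₁ ⊗ G)) (h3 : Kill y (S.X₃ ⊗ G)) :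
    Kill y (S.X₂ ⊗ G) :=
  (thick_kill hn y).ext (S := sR S G) (sR_exact hS G) h1 h3

/-- The objects whose tensor product with `G` does not have `p` in its support. -/
lemma thick_neg (p : Point.{w} k C) (hp : Relevant p) (G : C) :
    ThickIdeal fun X : C => Neg p (X ⊗ G) where
  retract := by
    rintro X Y i r h ⟨n, s, hn, hs, hk⟩
    refine ⟨n, s, hn, hs, (thick_kill hn s).retract (i ▷ G) (r ▷ G) ?_ hk⟩
    rw [← comp_whiskerRight, h, id_whiskerRight]
  ext := by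
    rintro S hS ⟨n, s, hn, hs, hk⟩ ⟨n', s', hn', hs', hk'⟩
    refine ⟨n + n', s.comp s' (Nat.mul_add 2 n n').symm, by omega, ?_, ?_⟩
    · rw [p.map_mul, hs, hs', one_mul]
    · exact kill_ext (by omega) _ hS G (kill_mul s s' hk) (kill_mul' s s' hk')
  proj := by
    intro P hP
    obtain ⟨e0, x0, he0, hx0⟩ := exists_x0 p hp
    exact ⟨e0, x0, he0, hx0, (thick_kill he0 x0).proj (projective_tensor_right hP G)⟩
  left := by
    rintro X Y ⟨n, s, hn, hs, hk⟩
    exact ⟨n, s, hn, hs, (thick_kill hn s).iso (α_ X Y G) ((thick_kill hn s).left X hk)⟩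
  right := by
    rintro X Y ⟨n, s, hn, hs, hk⟩
    exact ⟨n, s, hn, hs, (thick_kill hn s).iso (whiskerRightIso (β_ X Y) G ≪≫ α_ Y X G)
      ((thick_kill hn s).left Y hk)⟩

lemma neg_braid (p : Point.{w} k C) {X Y : C} (h : Neg p (X ⊗ Y)) : Neg p (Y ⊗ X) := by
  obtain ⟨n, s, hn, hs, hk⟩ := h
  exact ⟨n, s, hn, hs, (thick_kill hn s).iso (β_ Y X) hk⟩

/-- Supported and negligible objects are projective. -/
lemma proj_of_neg (hfg : FGCoh.{w} k C) (hgen : FinGen C) (p : Point.{w} k C) {Z : C}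
    (h : SuppAt p Z) (h' : Neg p Z) : Projective Z := by
  obtain ⟨n, s, hn, hs, hk⟩ := h'
  exact proj_of_nil hfg hgen fun l hl z => nil_all p hn s hs h ((kill_iff s).1 hk) hl z

lemma thick_genBy (S : C → Prop) : ThickIdeal (GenBy S) where
  retract i r h hY J hJ hS := hJ.retract i r h (hY J hJ hS)
  ext hE h1 h3 J hJ hS := hJ.ext hE (h1 J hJ hS) (h3 J hJ hS)
  proj hP J hJ _ := hJ.proj hP
  left X _ hY J hJ hS := hJ.left X (hY J hJ hS)
  right Y hX J hJ hS := hJ.right Y (hX J hJ hS)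

lemma thick_and {J J' : C → Prop} (h : ThickIdeal J) (h' : ThickIdeal J') :
    ThickIdeal fun X => J X ∧ J' X where
  retract i r hir hY := ⟨h.retract i r hir hY.1, h'.retract i r hir hY.2⟩
  ext hS h1 h3 := ⟨h.ext hS h1.1 h3.1, h'.ext hS h1.2 h3.2⟩
  proj hP := ⟨h.proj hP, h'.proj hP⟩
  left X _ hY := ⟨h.left X hY.1, h'.left X hY.2⟩
  right Y hX := ⟨h.right Y hX.1, h'.right Y hX.2⟩

/-- The objects whose tensor product with `K` lies in a thick tensor ideal. -/
lemma thick_comap {D : C → Prop} (hD : ThickIdeal D) (K : C) : ThickIdeal fun Y => D (K ⊗ Y) where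
  retract {X Y} i r h hY := hD.retract (K ◁ i) (K ◁ r) (by
    rw [← MonoidalCategory.whiskerLeft_comp, h, MonoidalCategory.whiskerLeft_id]) hY
  ext {S} hS h1 h3 := hD.ext (sL_exact.{w} hS K) h1 h3
  proj hP := hD.proj (projective_tensor_left K hP)
  left X Y hY := hD.iso ((α_ K X Y).symm ≪≫ whiskerRightIso (β_ K X) Y ≪≫ α_ X K Y)
    (hD.left X hY)
  right {X} Y hX := hD.iso (α_ K X Y).symm (hD.right Y hX)

lemma cmp_m_comp {X Y Z : C} (f : X ⟶ Y) (r : b Y ⟶ b Z) (n : ℕ) :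
    e (cmp.{w} n (m f ≫ r)) = m f ≫ e (cmp n r) := by
  refine hom_induction (P := fun r : b Y ⟶ b Z =>
    e (cmp.{w} n (m f ≫ r)) = m f ≫ e (cmp n r)) r ?_ ?_ ?_
  · rw [comp_zero, e_cmp_zero, e_cmp_zero, comp_zero]
  · intro q x
    have h1 : m.{w} f ≫ e x = e ((Ext.mk₀ f).comp x (Nat.zero_add q)) := by
      rw [e_comp]; rfl
    rw [h1]
    by_cases hq : q = n
    · subst hq
      rw [cmp_e, cmp_e, h1]
    · rw [cmp_e_ne _ hq, cmp_e_ne _ hq, e_zero, e_zero, comp_zero]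
  · intro g g' h h'
    rw [Preadditive.comp_add, cmp_add, cmp_add, e_add, e_add, h, h', Preadditive.comp_add]

/-- A left inverse of a morphism may be chosen as a morphism. -/
lemma exists_retraction {X Y : C} (f : X ⟶ Y) (r : b Y ⟶ b X) (h : m.{w} f ≫ r = 𝟙 _) :
    ∃ g : Y ⟶ X, f ≫ g = 𝟙 X := by
  have h1 := cmp_m_comp f r 0
  rw [h] at h1
  obtain ⟨g, hg⟩ := (Ext.mk₀_bijective Y X).2 (cmp 0 r)
  refine ⟨g, m_inj.{w} ?_⟩
  rw [m_comp, m_id]
  have h2 : e (cmp 0 (𝟙 (b X))) = 𝟙 (b X) := (hg_m (𝟙 X)).cmp_eq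
  rw [h2, ← hg] at h1
  exact h1.symm

/-- The fibre over a point of the spectrum of the cohomology is connected. -/
theorem fibre_connected [MonoidalLinear k C] [Simple (𝟙_ C)] (hfg : FGCoh.{w} k C)
    (hgen : FinGen C) (p : Point.{w} k C) (J1 J2 : C → Prop)
    (hann : ∀ F G, J1 F → J2 G → p ∉ supp k (F ⊗ G))
    (hex : ∀ X, SuppAt p X → GenBy (fun Z => J1 Z ∨ J2 Z) X) :
    (∀ F, J1 F → p ∉ supp k F) ∨ (∀ G, J2 G → p ∉ supp k G) := by
  by_cases hp : Relevant p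
  swap
  · have hpos : ∀ n, 0 < n → ∀ x, p.toFun n x = 0 := by
      intro n hn x
      by_contra hne
      exact hp ⟨n, hn, x, hne⟩
    by_cases h1 : ∀ F, J1 F → p ∉ supp k F
    · exact Or.inl h1
    right
    simp only [not_forall, not_not] at h1
    obtain ⟨F, hF, hFp⟩ := h1
    intro G hG hGp
    refine hann F G hF hG (mem_supp_of_pos p hpos fun hz => ?_)
    rcases isZero_tensor hz with hz | hz
    · rw [supp_zero hz] at hFp
      exact hFp
    · rw [supp_zero hz] at hGp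
      exact hGp
  have hneg : ∀ Z, Neg p Z ↔ p ∉ supp k Z := fun Z => by rw [neg_iff p hp, vb_iff]
  -- the generated ideals
  have horth : ∀ F G, GenBy J1 F → GenBy J2 G → Neg p (F ⊗ G) := by
    intro F G hF hG
    refine neg_braid p (hG _ (thick_neg p hp F) fun G' hG' => ?_)
    exact neg_braid p (hF _ (thick_neg p hp G') fun F' hF' => (hneg _).2 (hann F' G' hF' hG'))
  set I1 : C → Prop := fun X => SuppAt p X ∧ GenBy J1 X with hI1
  set I2 : C → Prop := fun X => SuppAt p X ∧ GenBy J2 X with hI2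
  have hT1 : ThickIdeal I1 := thick_and (thick_suppAt p) (thick_genBy J1)
  have hT2 : ThickIdeal I2 := thick_and (thick_suppAt p) (thick_genBy J2)
  have hannI : ∀ F G, I1 F → I2 G → Projective (F ⊗ G) := fun F G hF hG =>
    proj_of_neg hfg hgen p ((thick_suppAt p).right G hF.1) (horth F G hF.2 hG.2)
  have hD := thick_dec.{w} hT1 hT2 hannI
  -- the Koszul system
  have hacc := acc_of_fg hfg
  obtain ⟨L, hL, hLg⟩ := exists_list p hacc
  obtain ⟨s⟩ := exists_sys hacc L (fun y hy => by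
    obtain ⟨l, hl, h, -⟩ := hL y hy
    exact ⟨l, hl, h⟩)
  have hsX : ∀ n, SuppAt p (s.X n) := fun n => suppAt_of_list p hL hLg (s.P4 n)
  have hdec : ∀ X, SuppAt p X → Nonempty (Dec I1 I2 X) := by
    intro X hX
    have h1 : ∀ n, Nonempty (Dec I1 I2 (s.X n ⊗ X)) := by
      intro n
      refine hex X hX _ (thick_comap.{w} hD (s.X n)) ?_
      rintro Z (hZ | hZ)
      · have hZ1 : I1 (s.X n ⊗ Z) := ⟨(thick_suppAt p).right Z (hsX n),
          (thick_genBy J1).left _ fun J _ hJ => hJ Z hZ⟩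
        exact ⟨{ F := s.X n ⊗ Z, G := Projective.over (𝟙_ C), p1 := 𝟙 _, i1 := 𝟙 _, p2 := 0,
                 i2 := 0, hF := hZ1, hG := hT2.proj (projO _), tot := by simp }⟩
      · have hZ2 : I2 (s.X n ⊗ Z) := ⟨(thick_suppAt p).right Z (hsX n),
          (thick_genBy J2).left _ fun J _ hJ => hJ Z hZ⟩
        exact ⟨{ F := Projective.over (𝟙_ C), G := s.X n ⊗ Z, p1 := 0, i1 := 0, p2 := 𝟙 _,
                 i2 := 𝟙 _, hG := hZ2, hF := hT1.proj (projO _), tot := by simp }⟩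
    obtain ⟨n0, hn0⟩ := exists_bound L fun y hy => mx_nil p hX (hL y hy)
    obtain ⟨r, hr⟩ := s.P5 n0 X (hn0 n0 le_rfl)
    obtain ⟨g, hg⟩ := exists_retraction _ r hr
    exact hD.retract _ g hg (h1 n0)
  -- the conclusion
  obtain ⟨e0, x0, he0, hx0⟩ := exists_x0 p hp
  have hpx : pv p e0 (e x0) = 1 := by rw [pv_e, hx0]
  have key : ∀ J : C → Prop, (∀ F, (SuppAt p F ∧ GenBy J F) → SuppAt p F → Projective F) →
      ∀ F, J F → p ∉ supp k F := by
    intro J hJ F hF hFp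
    rw [← vb_iff] at hFp
    obtain ⟨W, hW, hWn, hWg⟩ := exists_local hfg p he0 (hg_e x0) hpx L hL F hFp
    have hS : SuppAt p W := suppAt_of_list p hL hLg hWn
    exact not_proj p he0 (hg_e x0) hpx hW
      (hJ W ⟨hS, hWg _ (thick_genBy J) fun J' _ h => h F hF⟩ hS)
  rcases connected hfg hgen p hannI hdec with h1 | h1
  · exact Or.inl (key J1 h1)
  · exact Or.inr (key J2 h1)

end Fib

end Pool.Agent.TPP2
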