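import Pool.Agent.TPP2.Big

/-!
# Exact functors on the category of total Ext groups
-/

set_option autoImplicit false
set_option linter.unusedSectionVars false

namespace Pool.Agent.TPP2

open CategoryTheory CategoryTheory.Limits CategoryTheory.Abelian MonoidalCategory
open Pool.Agent.TPP

universe w v u

section Fun

variable {C : Type u} [Category.{v} C] [Abelian C] [HasExt.{w} C]

/-- The class of a short exact sequence. -/
noncomputable def dl {S : ShortComplex C} (hS : S.ShortExact) : b S.X₃ ⟶ b S.X₁ := e hS.extClass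

lemma hg_dl {S : ShortComplex C} (hS : S.ShortExact) : Hg.{w} 1 (dl hS) := ⟨_, rfl⟩

lemma g_dl {S : ShortComplex C} (hS : S.ShortExact) : m.{w} S.g ≫ dl hS = 0 := by
  unfold m dl
  rw [← e_comp _ _ (zero_add 1), hS.comp_extClass, e_zero]

lemma dl_f {S : ShortComplex C} (hS : S.ShortExact) : dl.{w} hS ≫ m S.f = 0 := by
  unfold m dl
  rw [← e_comp _ _ (add_zero 1), hS.extClass_comp, e_zero]

lemma dl_nat {S S' : ShortComplex C} (hS : S.ShortExact) (hS' : S'.ShortExact) (f : S ⟶ S') :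
    dl.{w} hS ≫ m f.τ₁ = m f.τ₃ ≫ dl hS' := by
  unfold m dl
  rw [← e_comp _ _ (add_zero 1), ← e_comp _ _ (zero_add 1),
    ShortComplex.ShortExact.extClass_naturality hS hS' f]

/-- Exactness in the second variable at the middle term. -/
lemma lift₂ {S : ShortComplex C} (hS : S.ShortExact) {X : C} {n : ℕ} {z : b X ⟶ b S.X₂}
    (hz : Hg.{w} n z) (h : z ≫ m S.g = 0) : ∃ z' : b X ⟶ b S.X₁, Hg n z' ∧ z' ≫ m S.f = z := by
  obtain ⟨x, rfl⟩ := hz
  obtain ⟨y, hy⟩ := Ext.covariant_sequence_exact₂ X hS x (by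
    apply e_eq_zero
    rw [e_comp]
    exact h)
  refine ⟨e y, ⟨y, rfl⟩, ?_⟩
  rw [← hy, e_comp]
  rfl

lemma lift₃ {S : ShortComplex C} (hS : S.ShortExact) {X : C} {n : ℕ} {z : b X ⟶ b S.X₃}
    (hz : Hg.{w} n z) (h : z ≫ dl hS = 0) : ∃ z' : b X ⟶ b S.X₂, Hg n z' ∧ z' ≫ m S.g = z := by
  obtain ⟨x, rfl⟩ := hz
  obtain ⟨y, hy⟩ := Ext.covariant_sequence_exact₃ X hS x rfl (by
    apply e_eq_zero
    rw [e_comp]
    exact h)
  refine ⟨e y, ⟨y, rfl⟩, ?_⟩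
  rw [← hy, e_comp]
  rfl

lemma lift₁ {S : ShortComplex C} (hS : S.ShortExact) {X : C} {n : ℕ} {z : b X ⟶ b S.X₁}
    (hz : Hg.{w} (n + 1) z) (h : z ≫ m S.f = 0) :
    ∃ z' : b X ⟶ b S.X₃, Hg n z' ∧ z' ≫ dl hS = z := by
  obtain ⟨x, rfl⟩ := hz
  obtain ⟨y, hy⟩ := Ext.covariant_sequence_exact₁ X hS x (by
    apply e_eq_zero
    rw [e_comp]
    exact h) rfl
  refine ⟨e y, ⟨y, rfl⟩, ?_⟩
  rw [← hy, e_comp]
  rfl

lemma desc₂ {S : ShortComplex C} (hS : S.ShortExact) {Y : C} {n : ℕ} {z : b S.X₂ ⟶ b Y}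
    (hz : Hg.{w} n z) (h : m S.f ≫ z = 0) : ∃ z' : b S.X₃ ⟶ b Y, Hg n z' ∧ m S.g ≫ z' = z := by
  obtain ⟨x, rfl⟩ := hz
  obtain ⟨y, hy⟩ := Ext.contravariant_sequence_exact₂ hS Y x (by
    apply e_eq_zero
    rw [e_comp]
    exact h)
  refine ⟨e y, ⟨y, rfl⟩, ?_⟩
  rw [← hy, e_comp]
  rfl

lemma desc₁ {S : ShortComplex C} (hS : S.ShortExact) {Y : C} {n : ℕ} {z : b S.X₁ ⟶ b Y}
    (hz : Hg.{w} n z) (h : dl hS ≫ z = 0) : ∃ z' : b S.X₂ ⟶ b Y, Hg n z' ∧ m S.f ≫ z' = z := by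
  obtain ⟨x, rfl⟩ := hz
  obtain ⟨y, hy⟩ := Ext.contravariant_sequence_exact₁ hS Y x rfl (by
    apply e_eq_zero
    rw [e_comp]
    exact h)
  refine ⟨e y, ⟨y, rfl⟩, ?_⟩
  rw [← hy, e_comp]
  rfl

lemma desc₃ {S : ShortComplex C} (hS : S.ShortExact) {Y : C} {n : ℕ} {z : b S.X₃ ⟶ b Y}
    (hz : Hg.{w} (n + 1) z) (h : m S.g ≫ z = 0) :
    ∃ z' : b S.X₁ ⟶ b Y, Hg n z' ∧ dl hS ≫ z' = z := by
  obtain ⟨x, rfl⟩ := hz
  obtain ⟨y, hy⟩ := Ext.contravariant_sequence_exact₃ hS Y x (by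
    apply e_eq_zero
    rw [e_comp]
    exact h) (Nat.add_comm 1 n)
  refine ⟨e y, ⟨y, rfl⟩, ?_⟩
  rw [← hy, e_comp]
  rfl

variable (F : C ⥤ C) [F.Additive] [PreservesFiniteLimits F] [PreservesFiniteColimits F]

/-- The action of an exact functor. -/
noncomputable def bf {X Y : C} : (b X ⟶ b Y) →+ (b (F.obj X) ⟶ b (F.obj Y)) :=
  DirectSum.toAddMonoid fun n =>
    (DirectSum.of (fun n => Ext.{w} (F.obj X) (F.obj Y) n) n).comp (F.mapExtAddHom X Y n)

lemma bf_e {X Y : C} {n : ℕ} (x : Ext.{w} X Y n) :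
    bf F (e x) = e (x.mapExactFunctor F) :=
  DirectSum.toAddMonoid_of _ _ _

lemma bf_m {X Y : C} (f : X ⟶ Y) : bf.{w} F (m f) = m (F.map f) := by
  unfold m
  rw [bf_e, Ext.mapExactFunctor_mk₀]

lemma bf_dl {S : ShortComplex C} (hS : S.ShortExact) :
    bf.{w} F (dl hS) = dl (hS.map_of_exact F) := by
  unfold dl
  rw [bf_e, Ext.mapExactFunctor_extClass]
  rfl

lemma bf_hg {X Y : C} {n : ℕ} {f : b X ⟶ b Y} (hf : Hg.{w} n f) : Hg n (bf F f) := by
  obtain ⟨x, rfl⟩ := hf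
  rw [bf_e]
  exact ⟨_, rfl⟩

lemma bf_comp {X Y Z : C} (f : b X ⟶ b Y) (g : b Y ⟶ b Z) :
    bf F (f ≫ g) = bf F f ≫ bf F g := by
  refine hom_induction (P := fun f : b X ⟶ b Y => bf F (f ≫ g) = bf F f ≫ bf F g) f ?_ ?_ ?_
  · rw [zero_comp, map_zero, map_zero, zero_comp]
  · intro n x
    refine hom_induction (P := fun g : b Y ⟶ b Z => bf F (e x ≫ g) = bf F (e x) ≫ bf F g)
      g ?_ ?_ ?_
    · rw [comp_zero, map_zero, map_zero, comp_zero]
    · intro n' y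
      rw [← e_comp _ _ rfl, bf_e, bf_e, bf_e, Ext.mapExactFunctor_comp, e_comp]
    · intro g g' h h'
      rw [Preadditive.comp_add, map_add, h, h', map_add, Preadditive.comp_add]
  · intro f f' h h'
    rw [Preadditive.add_comp, map_add, h, h', map_add, Preadditive.add_comp]

lemma bf_nat [EnoughProjectives C] (F' : C ⥤ C) [F'.Additive] [PreservesFiniteLimits F']
    [PreservesFiniteColimits F'] (τ : F ⟶ F') {X Y : C} (f : b X ⟶ b Y) :
    bf.{w} F f ≫ m (τ.app Y) = m (τ.app X) ≫ bf F' f := by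
  refine hom_induction (P := fun f : b X ⟶ b Y =>
    bf.{w} F f ≫ m (τ.app Y) = m (τ.app X) ≫ bf F' f) f ?_ ?_ ?_
  · rw [map_zero, map_zero, zero_comp, comp_zero]
  · intro n x
    rw [bf_e, bf_e]
    unfold m
    rw [← e_comp _ _ (add_zero n), ← e_comp _ _ (zero_add n), map_naturality F F' τ x]
  · intro f g h h'
    rw [map_add, map_add, Preadditive.add_comp, Preadditive.comp_add, h, h']

lemma bf_bf [EnoughProjectives C] (F' : C ⥤ C) [F'.Additive] [PreservesFiniteLimits F']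
    [PreservesFiniteColimits F'] {X Y : C} (f : b X ⟶ b Y) :
    bf.{w} (F ⋙ F') f = bf F' (bf F f) := by
  refine hom_induction (P := fun f : b X ⟶ b Y => bf.{w} (F ⋙ F') f = bf F' (bf F f)) f ?_ ?_ ?_
  · rw [map_zero, map_zero, map_zero]
  · intro n x
    rw [bf_e, bf_e]
    exact (congrArg e (map_comp F F' x)).trans (bf_e _ _).symm
  · intro f g h h'
    rw [map_add, map_add, map_add, h, h']

lemma bf_id [EnoughProjectives C] {X Y : C} (f : b X ⟶ b Y) : bf.{w} (𝟭 C) f = f := by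
  refine hom_induction (P := fun f : b X ⟶ b Y => bf.{w} (𝟭 C) f = f) f ?_ ?_ ?_
  · exact map_zero _
  · intro n x
    exact (bf_e (𝟭 C) x).trans (congrArg e (map_id x))
  · intro f g h h'
    exact (map_add _ _ _).trans (congrArg₂ (· + ·) h h')

end Fun

end Pool.Agent.TPP2
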