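import Pool.Agent.TPP2.Pt

/-!
# Integrality: cones do not lose points of the support
-/

set_option autoImplicit false
set_option linter.unusedSectionVars false

namespace Pool.Agent.TPP2

open CategoryTheory CategoryTheory.Limits MonoidalCategory CategoryTheory.Abelian
open Pool.Agent.TPP

universe w v u t

section Int

variable {k : Type t} [Field k] {C : Type u} [Category.{v} C] [Abelian C] [Linear k C]
  [MonoidalCategory C] [MonoidalPreadditive C] [RigidCategory C] [HasExt.{w} C]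
  [EnoughProjectives C]

lemma hg_scal (c : k) : Hg.{w} (2 * 0) (m (c • 𝟙 (𝟙_ C)) : b (𝟙_ C) ⟶ b (𝟙_ C)) := ⟨_, rfl⟩

section NoethZ

variable (k) {r : ℕ} (x : Fin r → (b (𝟙_ C) ⟶ b (𝟙_ C))) (hx : ∀ i, ∃ l, Hg.{w} (2 * l) (x i))
  (Z : C)

lemma phm_C (c : k) : phm k x hx (MvPolynomial.C c) = m (c • 𝟙 (𝟙_ C)) := by
  unfold phm
  rw [ph_C]

lemma phm_X (i : Fin r) : phm k x hx (MvPolynomial.X i) = x i := by
  unfold phm
  rw [ph_X]

lemma phm_neg (f : MvPolynomial (Fin r) k) : phm k x hx (-f) = -phm k x hx f := by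
  unfold phm
  rw [map_neg]
  rfl

lemma phm_central (f : MvPolynomial (Fin r) k) (g : b Z ⟶ b Z) :
    act Z (phm k x hx f) ≫ g = g ≫ act Z (phm k x hx f) := by
  induction f using MvPolynomial.induction_on with
  | C c =>
    rw [phm_C]
    exact act_cent (hg_scal c) g
  | add f f' h h' =>
    rw [phm_add, act_add, Preadditive.add_comp, Preadditive.comp_add, h, h']
  | mul_X f i h =>
    obtain ⟨l, hl⟩ := hx i
    rw [phm_mul, act_comp, phm_X, Category.assoc, h, ← Category.assoc, act_cent hl,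
      Category.assoc]

/-- The map from the free module. -/
noncomputable def pimZ {s : ℕ} (ε : Fin s → (b Z ⟶ b Z)) :
    (Fin s → MvPolynomial (Fin r) k) →+ (b Z ⟶ b Z) where
  toFun v := ∑ j, ε j ≫ act Z (phm k x hx (v j))
  map_zero' := by simp [phm_zero, act_zero]
  map_add' v v' := by
    rw [← Finset.sum_add_distrib]
    refine Finset.sum_congr rfl fun j _ => ?_
    rw [Pi.add_apply, phm_add, act_add, Preadditive.comp_add, add_comm]

lemma pimZ_smul {s : ℕ} (ε : Fin s → (b Z ⟶ b Z)) (f : MvPolynomial (Fin r) k)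
    (v : Fin s → MvPolynomial (Fin r) k) :
    pimZ k x hx Z ε (f • v) = act Z (phm k x hx f) ≫ pimZ k x hx Z ε v := by
  change ∑ j, ε j ≫ act Z (phm k x hx (f * v j)) = _ ≫ ∑ j, ε j ≫ act Z (phm k x hx (v j))
  rw [Preadditive.comp_sum]
  refine Finset.sum_congr rfl fun j _ => ?_
  rw [phm_mul, act_comp, ← Category.assoc, phm_central]

lemma pimZ_single {s : ℕ} (ε : Fin s → (b Z ⟶ b Z)) (j : Fin s) :
    pimZ k x hx Z ε (Pi.single j 1) = ε j := by
  change ∑ i, ε i ≫ act Z (phm k x hx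
    (Pi.single (M := fun _ => MvPolynomial (Fin r) k) j 1 i)) = _
  rw [Finset.sum_eq_single j]
  · rw [Pi.single_eq_same, phm_one, act_id, Category.comp_id]
  · intro i _ hi
    rw [Pi.single_eq_of_ne hi, phm_zero, act_zero, comp_zero]
  · intro h
    exact absurd (Finset.mem_univ j) h

lemma accZ_of_surj {s : ℕ} (ε : Fin s → (b Z ⟶ b Z))
    (hs : ∀ z, ∃ v, pimZ k x hx Z ε v = z) (F : Set (AddSubgroup (b Z ⟶ b Z)))
    (hF : F.Nonempty) (hcl : ∀ J ∈ F, ∀ (f : MvPolynomial (Fin r) k) (z : b Z ⟶ b Z), z ∈ J →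
      act Z (phm k x hx f) ≫ z ∈ J) : ∃ M ∈ F, ∀ J ∈ F, M ≤ J → J ≤ M := by
  have hN : IsNoetherian (MvPolynomial (Fin r) k) (Fin s → MvPolynomial (Fin r) k) := inferInstance
  rw [← set_has_maximal_iff_noetherian] at hN
  let T : ∀ J ∈ F, Submodule (MvPolynomial (Fin r) k) (Fin s → MvPolynomial (Fin r) k) :=
    fun J hJ =>
      { carrier := {v | pimZ k x hx Z ε v ∈ J}
        add_mem' := by
          intro v v' h h'
          change pimZ k x hx Z ε (v + v') ∈ J
          rw [map_add]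
          exact J.add_mem h h'
        zero_mem' := by
          change pimZ k x hx Z ε 0 ∈ J
          rw [map_zero]
          exact J.zero_mem
        smul_mem' := by
          intro f v h
          change pimZ k x hx Z ε (f • v) ∈ J
          rw [pimZ_smul]
          exact hcl J hJ _ _ h }
  obtain ⟨J1, hJ1⟩ := hF
  obtain ⟨_, ⟨J0, hJ0, rfl⟩, hmax⟩ := hN {W | ∃ J, ∃ hJ : J ∈ F, T J hJ = W} ⟨_, J1, hJ1, rfl⟩
  refine ⟨J0, hJ0, fun J hJ hle z hz => ?_⟩
  obtain ⟨v, rfl⟩ := hs z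
  by_contra hcon
  refine hmax (T J hJ) ⟨J, hJ, rfl⟩ (lt_of_le_of_ne (fun v' hv' => hle hv') ?_)
  intro heq
  have : v ∈ T J hJ := hz
  rw [← heq] at this
  exact hcon this

end NoethZ

variable [MonoidalLinear k C]

lemma act_scal (X : C) (c : k) : act.{w} X (m (c • 𝟙 (𝟙_ C))) = m (c • 𝟙 X) := by
  unfold act
  rw [tR_m, MonoidalLinear.smul_whiskerRight, id_whiskerRight, ← m_comp, ← m_comp]
  simp

/-- Every endomorphism is integral. -/
lemma integral (hfg : FGCoh.{w} k C) (Z : C) (v : b Z ⟶ b Z) :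
    ∃ (n : ℕ) (a : ℕ → (b (𝟙_ C) ⟶ b (𝟙_ C))),
      (∀ j (g : b Z ⟶ b Z), act Z (a j) ≫ g = g ≫ act Z (a j)) ∧
      pw v n = ∑ j ∈ Finset.range n, act Z (a j) ≫ pw v j := by
  obtain ⟨r, d, x, hd, h⟩ := hfg
  obtain ⟨s, a, ε, hN⟩ := h Z
  have hx : ∀ i, ∃ l, Hg.{w} (2 * l) (e (x i)) := fun i => ⟨d i, hg_e _⟩
  set π := pimZ k (fun i => e (x i)) hx Z (fun j => e (ε j)) with hπ
  have h1 : ∀ (z : b Z ⟶ b Z) (f : MvPolynomial (Fin r) k), z ∈ π.range →
      z ≫ act Z (phm k (fun i => e (x i)) hx f) ∈ π.range := by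
    rintro _ f ⟨v, rfl⟩
    refine ⟨f • v, ?_⟩
    rw [hπ, pimZ_smul, phm_central]
  let N : ∀ n, Submodule k (Ext.{w} Z Z n) := fun n =>
    { carrier := {z | e z ∈ π.range}
      add_mem' := by
        intro z z' h h'
        change e (z + z') ∈ π.range
        rw [e_add]
        exact π.range.add_mem h h'
      zero_mem' := by
        change e 0 ∈ π.range
        rw [e_zero]
        exact π.range.zero_mem
      smul_mem' := by
        intro c z hz
        change e (c • z) ∈ π.range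
        have h3 := h1 _ (MvPolynomial.C c) hz
        rw [phm_C, act_scal] at h3
        rw [e_smul]
        exact h3 }
  have h2 := hN N (fun j => ⟨Pi.single j 1, pimZ_single k _ hx Z _ j⟩) (by
    intro n z i hz
    change e (z.comp (tensId Z (x i)) rfl) ∈ π.range
    rw [e_comp, e_tensId]
    have h3 := h1 _ (MvPolynomial.X i) hz
    rw [phm_X] at h3
    exact h3)
  have hsurj : ∀ z, ∃ w', π w' = z := by
    intro z
    change z ∈ π.range
    refine hom_induction (P := fun z : b Z ⟶ b Z => z ∈ π.range) z ?_ ?_ ?_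
    · exact π.range.zero_mem
    · intro n z
      have : z ∈ N n := by rw [h2 n]; trivial
      exact this
    · intro z z' h h'
      exact π.range.add_mem h h'
  -- the chain
  let D : ℕ → AddSubgroup (b Z ⟶ b Z) := fun n =>
    { carrier := {z | ∃ f : ℕ → MvPolynomial (Fin r) k,
        z = ∑ j ∈ Finset.range n, act Z (phm k (fun i => e (x i)) hx (f j)) ≫ pw v j}
      add_mem' := by
        rintro _ _ ⟨f, rfl⟩ ⟨f', rfl⟩
        refine ⟨fun j => f' j + f j, ?_⟩
        rw [← Finset.sum_add_distrib]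
        refine Finset.sum_congr rfl fun j _ => ?_
        rw [phm_add, act_add, Preadditive.add_comp]
      zero_mem' := by
        refine ⟨fun _ => 0, ?_⟩
        simp [phm_zero, act_zero]
      neg_mem' := by
        rintro _ ⟨f, rfl⟩
        refine ⟨fun j => -f j, ?_⟩
        rw [← Finset.sum_neg_distrib]
        refine Finset.sum_congr rfl fun j _ => ?_
        rw [phm_neg, act_neg, Preadditive.neg_comp] }
  obtain ⟨_, ⟨n, rfl⟩, hM⟩ := accZ_of_surj k (fun i => e (x i)) hx Z (fun j => e (ε j)) hsurj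
    (Set.range D) ⟨_, 0, rfl⟩ (by
      rintro _ ⟨n, rfl⟩ g _ ⟨f, rfl⟩
      refine ⟨fun j => f j * g, ?_⟩
      rw [Preadditive.comp_sum]
      refine Finset.sum_congr rfl fun j _ => ?_
      rw [phm_mul, act_comp, Category.assoc])
  have h3 : D n ≤ D (n + 1) := by
    rintro _ ⟨f, rfl⟩
    refine ⟨fun j => if j < n then f j else 0, ?_⟩
    beta_reduce
    rw [Finset.sum_range_succ, if_neg (lt_irrefl n), phm_zero, act_zero, zero_comp, add_zero]
    refine Finset.sum_congr rfl fun j hj => ?_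
    rw [if_pos (Finset.mem_range.1 hj)]
  have h4 : pw v n ∈ D (n + 1) := by
    refine ⟨fun j => if j < n then 0 else 1, ?_⟩
    beta_reduce
    rw [Finset.sum_range_succ, if_neg (lt_irrefl n), phm_one, act_id, Category.id_comp,
      Finset.sum_eq_zero, zero_add]
    intro j hj
    rw [if_pos (Finset.mem_range.1 hj), phm_zero, act_zero, zero_comp]
  obtain ⟨f, hf⟩ := hM _ ⟨n + 1, rfl⟩ h3 h4
  exact ⟨n, fun j => phm k (fun i => e (x i)) hx (f j),
    fun j g => phm_central k _ hx Z (f j) g, hf⟩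

/-- The point lies in the support variety. -/
def VB (p : Point.{w} k C) (Z : C) : Prop :=
  ∀ l (z : b (𝟙_ C) ⟶ b (𝟙_ C)), Hg.{w} (2 * l) z → act Z z = 0 → pv p l z = 0

omit [EnoughProjectives C] [MonoidalLinear k C] in
lemma vb_iff (p : Point.{w} k C) (Z : C) : VB p Z ↔ p ∈ supp k Z := by
  constructor
  · intro h n x hx
    have h1 := h n (e x) (hg_e x) (by rw [← e_tensId, hx, e_zero])
    rwa [pv_e] at h1
  · rintro h l _ ⟨x, rfl⟩ hz
    rw [← e_tensId] at hz
    rw [pv_e]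
    exact h l x (e_eq_zero hz)

omit [MonoidalLinear k C] in
/-- The components of an annihilating element annihilate. -/
lemma act_cmp (Z : C) (n : ℕ) (z : b (𝟙_ C) ⟶ b (𝟙_ C)) :
    act Z (e (cmp n z)) = e (cmp n (act Z z)) := by
  refine hom_induction (P := fun z : b (𝟙_ C) ⟶ b (𝟙_ C) =>
    act Z (e (cmp n z)) = e (cmp n (act Z z))) z ?_ ?_ ?_
  · rw [e_cmp_zero, act_zero, e_cmp_zero]
  · intro q x
    have h1 : Hg.{w} q (act Z (e x)) := act_hg Z (hg_e x)
    obtain ⟨y, hy⟩ := h1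
    rw [hy]
    by_cases hq : q = n
    · subst hq
      rw [cmp_e, cmp_e, hy]
    · rw [cmp_e_ne _ hq, cmp_e_ne _ hq, e_zero, e_zero, act_zero]
  · intro f g hf hg
    rw [cmp_add, e_add, act_add, act_add, cmp_add, e_add, hf, hg]

/-- A class that dies in the cone is divisible. -/
lemma div_general {x : b (𝟙_ C) ⟶ b (𝟙_ C)} {n : ℕ} (c : Cone n x) (X Y : C) {j : ℕ}
    {z : b Y ⟶ b (𝟙_ C ⊗ X)} (hz : Hg.{w} (j + 1 + n + 1) z) (h : z ≫ m (c.u ▷ X) = 0) :
    ∃ z2 : b Y ⟶ b (𝟙_ C ⊗ X), Hg (j + 1) z2 ∧ z2 ≫ tR X x = z := by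
  obtain ⟨z1, hz1, h1⟩ := lift₁ (sR_exact c.ex X) hz h
  obtain ⟨z2, hz2, h2⟩ := om_lift X n hz1
  refine ⟨z2, hz2, ?_⟩
  calc z2 ≫ tR X x = z2 ≫ tR X (om C n ≫ dl c.ex) := by rw [c.cl]
    _ = (z2 ≫ tR X (om C n)) ≫ tR X (dl c.ex) := by rw [tR_comp, Category.assoc]
    _ = z1 ≫ tR X (dl c.ex) := by rw [h2]
    _ = z1 ≫ dl (sR_exact c.ex X) := congrArg (z1 ≫ ·) (tR_dl c.ex X)
    _ = z := h1

/-- The support variety of the tensor product with a cone. -/
lemma vb_cone (hfg : FGCoh.{w} k C) (p : Point.{w} k C) {e0 : ℕ} (he0 : 0 < e0)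
    {x0 : b (𝟙_ C) ⟶ b (𝟙_ C)} (hx0 : Hg.{w} (2 * e0) x0) (hpx : pv p e0 x0 = 1)
    {y : b (𝟙_ C) ⟶ b (𝟙_ C)} (hy : Mx p y) {n : ℕ} (c : Cone n y) {Z : C} (hZ : VB p Z) :
    VB p (c.E ⊗ Z) := by
  intro l f0 hf0 hact0
  by_contra hne0
  obtain ⟨l', hl', hyd, hy0⟩ := hy
  -- a multiple of large degree
  set f := f0 ≫ pw x0 (n + 2) with hf
  set q := l + e0 * (n + 2) with hq
  have hfd : Hg.{w} (2 * q) f := hf0.comp (hg_even hx0 (n + 2)) (Nat.mul_add 2 _ _).symm
  have hact : act (c.E ⊗ Z) f = 0 := by rw [hf, act_comp, hact0, zero_comp]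
  have hne : pv p q f ≠ 0 := by
    rw [hf, hq, pv_mul p hf0 (hg_even hx0 (n + 2)), pv_pw p hx0, hpx, one_pow, mul_one]
    exact hne0
  clear_value f
  -- divisibility
  obtain ⟨j, hj⟩ : ∃ j, 2 * q = j + 1 + n + 1 := ⟨2 * q - (n + 2), by
    have : n + 2 ≤ e0 * (n + 2) := Nat.le_mul_of_pos_left _ he0
    omega⟩
  have h1 : (act Z f ≫ m (λ_ Z).inv) ≫ m (c.u ▷ Z) = 0 := by
    rw [Category.assoc, ← m_comp, act_m, hact, comp_zero]
  obtain ⟨z2, hz2, h2⟩ := div_general c Z Z (j := j) (by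
    rw [← hj]; exact (act_hg Z hfd).comp (hg_m _) (Nat.add_zero _)) h1
  set v := z2 ≫ m (λ_ Z).hom with hv
  have h3 : v ≫ act Z y = act Z f := by
    rw [hv]
    unfold act
    rw [Category.assoc, ← Category.assoc (m (λ_ Z).hom), m_iso', Category.id_comp,
      ← Category.assoc, h2]
    unfold act
    simp only [Category.assoc]
    rw [m_iso, Category.comp_id]
  -- integrality
  obtain ⟨s, a, ha, hs⟩ := integral hfg Z v
  have hcom : v ≫ act Z y = act Z y ≫ v := (act_cent hyd v).symm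
  set R := ∑ j ∈ Finset.range s, a j ≫ pw f j ≫ pw y (s - j) with hR
  have h4 : act Z (pw f s) = act Z R := by
    have h5 : act Z R = ∑ j ∈ Finset.range s, act Z (a j ≫ pw f j ≫ pw y (s - j)) := by
      rw [hR]
      exact map_sum (AddMonoidHom.mk' (act Z) (act_add Z)) _ _
    rw [h5, act_pw, ← h3, pw_comp hcom, hs, Preadditive.sum_comp]
    refine Finset.sum_congr rfl fun j hj => ?_
    rw [act_comp, act_comp, act_pw, act_pw, ← h3, pw_comp hcom, Category.assoc, Category.assoc,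
      ← pw_add]
    congr 3
    have := Finset.mem_range.1 hj
    omega
  have h5 : act Z (e (cmp (2 * (q * s)) (pw f s - R))) = 0 := by
    rw [act_cmp, act_sub, h4, sub_self, e_cmp_zero]
  have h6 := hZ (q * s) _ (hg_cmp _ _) h5
  rw [← pv_cmp, pv_sub, pv_pw p hfd] at h6
  have h7 : R ∈ Idl [y] 0 := by
    rw [hR]
    refine AddSubgroup.sum_mem _ fun j hj => ?_
    obtain ⟨i, hi⟩ : ∃ i, s - j = i + 1 := ⟨s - j - 1, by
      have := Finset.mem_range.1 hj; omega⟩
    rw [hi]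
    refine mem_idl_cons.2 ⟨a j ≫ pw f j ≫ pw y i, 0, zero_mem _, ?_⟩
    rw [add_zero, pw_one]
    simp only [Category.assoc]
    rfl
  rw [pv_idl p (L := [y]) (fun z hz => by
    rw [List.mem_singleton] at hz
    subst hz
    exact ⟨l', hl', hyd, hy0⟩) h7, sub_zero] at h6
  exact hne (eq_zero_of_pow_eq_zero h6)

end Int

end Pool.Agent.TPP2
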