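import Pool.Agent.TPP2.Syz

/-!
# Koszul systems
-/

set_option autoImplicit false
set_option linter.unusedSectionVars false

namespace Pool.Agent.TPP2

open CategoryTheory CategoryTheory.Limits CategoryTheory.Abelian MonoidalCategory
open Pool.Agent.TPP

universe w v u

section Pw

variable {D : Type*} [Category D]

/-- powers of an endomorphism -/
def pw {X : D} (f : X ⟶ X) : ℕ → (X ⟶ X)
  | 0 => 𝟙 X
  | n + 1 => pw f n ≫ f

lemma pw_add {X : D} (f : X ⟶ X) (a c : ℕ) : pw f (a + c) = pw f a ≫ pw f c := by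
  induction c with
  | zero => exact (Category.comp_id _).symm
  | succ c ih =>
    change pw f (a + c) ≫ f = pw f a ≫ pw f c ≫ f
    rw [ih, Category.assoc]

lemma pw_one {X : D} (f : X ⟶ X) : pw f 1 = f := Category.id_comp f

lemma pw_mul {X : D} (f : X ⟶ X) (a c : ℕ) : pw f (a * c) = pw (pw f a) c := by
  induction c with
  | zero => rfl
  | succ c ih =>
    rw [Nat.mul_succ, pw_add, ih]
    rfl

lemma pw_comm {X : D} {f g : X ⟶ X} (h : f ≫ g = g ≫ f) (n : ℕ) : pw f n ≫ g = g ≫ pw f n := by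
  induction n with
  | zero => exact (Category.id_comp g).trans (Category.comp_id g).symm
  | succ n ih =>
    change (pw f n ≫ f) ≫ g = g ≫ pw f n ≫ f
    rw [Category.assoc, h, ← Category.assoc, ih, Category.assoc]

lemma pw_comp {X : D} {f g : X ⟶ X} (h : f ≫ g = g ≫ f) (n : ℕ) :
    pw (f ≫ g) n = pw f n ≫ pw g n := by
  induction n with
  | zero => exact (Category.comp_id _).symm
  | succ n ih =>
    change pw (f ≫ g) n ≫ f ≫ g = (pw f n ≫ f) ≫ pw g n ≫ g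
    rw [ih, Category.assoc, Category.assoc]
    congr 1
    rw [← Category.assoc (pw g n), pw_comm h.symm n]
    simp only [Category.assoc]

variable [Preadditive D]

/-- nilpotent endomorphisms -/
def Nil {X : D} (f : X ⟶ X) : Prop := ∃ n, pw f n = 0

lemma Nil.of_le {X : D} {f : X ⟶ X} {n n' : ℕ} (h : pw f n = 0) (hn : n ≤ n') : pw f n' = 0 := by
  obtain ⟨k, rfl⟩ := Nat.exists_eq_add_of_le hn
  rw [pw_add, h, zero_comp]

lemma nil_zero {X : D} : Nil (0 : X ⟶ X) := ⟨1, by rw [pw_one]⟩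

lemma Nil.comp {X : D} {f g : X ⟶ X} (h : f ≫ g = g ≫ f) (hg : Nil g) : Nil (f ≫ g) := by
  obtain ⟨n, hn⟩ := hg
  exact ⟨n, by rw [pw_comp h, hn, comp_zero]⟩

lemma pw_end {X : D} (f : End X) (n : ℕ) : f ^ n = End.of (pw (End.asHom f) n) := by
  induction n with
  | zero => exact pow_zero f
  | succ n ih =>
    rw [pow_succ', ih]
    rfl

lemma Nil.add {X : D} {f g : X ⟶ X} (h : f ≫ g = g ≫ f) (hf : Nil f) (hg : Nil g) :
    Nil (f + g) := by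
  have h1 : IsNilpotent (End.of f) := by
    obtain ⟨n, hn⟩ := hf
    exact ⟨n, by rw [pw_end]; exact hn⟩
  have h2 : IsNilpotent (End.of g) := by
    obtain ⟨n, hn⟩ := hg
    exact ⟨n, by rw [pw_end]; exact hn⟩
  have h3 : Commute (End.of f) (End.of g) := h.symm
  obtain ⟨n, hn⟩ := h3.isNilpotent_add h1 h2
  refine ⟨n, ?_⟩
  rw [pw_end] at hn
  exact hn

lemma Nil.pw_iff {X : D} {f : X ⟶ X} {n : ℕ} (h : Nil (pw f n)) : Nil f := by
  obtain ⟨k, hk⟩ := h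
  exact ⟨n * k, by rw [pw_mul, hk]⟩

end Pw

section Kosz

variable {C : Type u} [Category.{v} C] [Abelian C] [HasExt.{w} C]
  [MonoidalCategory C] [MonoidalPreadditive C] [RigidCategory C] [EnoughProjectives C]

lemma act_pw (X : C) (f : b (𝟙_ C) ⟶ b (𝟙_ C)) (n : ℕ) : act.{w} X (pw f n) = pw (act X f) n := by
  induction n with
  | zero => exact act_id X
  | succ n ih =>
    change act X (pw f n ≫ f) = _
    rw [act_comp, ih]
    rfl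

lemma tR_pw (Y : C) {X : C} (f : b X ⟶ b X) (n : ℕ) : tR.{w} Y (pw f n) = pw (tR Y f) n := by
  induction n with
  | zero => exact tR_id Y X
  | succ n ih =>
    change tR Y (pw f n ≫ f) = _
    rw [tR_comp, ih]
    rfl

lemma tL_pw (Y : C) {X : C} (f : b X ⟶ b X) (n : ℕ) : tL.{w} Y (pw f n) = pw (tL Y f) n := by
  induction n with
  | zero => exact tL_id Y X
  | succ n ih =>
    change tL Y (pw f n ≫ f) = _
    rw [tL_comp, ih]
    rfl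

lemma hg_pw {X : C} {f : b X ⟶ b X} {k : ℕ} (hf : Hg.{w} k f) (n : ℕ) : Hg (k * n) (pw f n) := by
  induction n with
  | zero => exact ⟨Ext.mk₀ (𝟙 _), rfl⟩
  | succ n ih => exact ih.comp hf rfl

lemma act_L (X : C) (f : b (𝟙_ C) ⟶ b (𝟙_ C)) :
    act.{w} X f ≫ m (λ_ X).inv = m (λ_ X).inv ≫ tR X f := by
  unfold act
  simp only [Category.assoc]
  rw [m_iso', Category.comp_id]

lemma tR_of_act {X : C} {f : b (𝟙_ C) ⟶ b (𝟙_ C)} (h : act.{w} X f = 0) : tR X f = 0 := by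
  calc tR X f = (m (λ_ X).hom ≫ m (λ_ X).inv) ≫ tR X f := by rw [m_iso', Category.id_comp]
    _ = m (λ_ X).hom ≫ act X f ≫ m (λ_ X).inv := by rw [act_L, Category.assoc]
    _ = 0 := by rw [h, zero_comp, comp_zero]

lemma hg_even {f : b (𝟙_ C) ⟶ b (𝟙_ C)} {k : ℕ} (hf : Hg.{w} (2 * k) f) (n : ℕ) :
    Hg (2 * (k * n)) (pw f n) := by
  have := hg_pw hf n
  rwa [Nat.mul_assoc] at this

/-- The left ideal generated by the powers of the elements of a list. -/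
noncomputable def Idl : List (b (𝟙_ C) ⟶ b (𝟙_ C)) → ℕ → AddSubgroup (b (𝟙_ C) ⟶ b (𝟙_ C))
  | [], _ => ⊥
  | y :: L, n => (AddMonoidHom.range (Preadditive.rightComp (b (𝟙_ C)) (pw y (n + 1)))) ⊔ Idl L n

lemma mem_idl_cons {y : b (𝟙_ C) ⟶ b (𝟙_ C)} {L : List (b (𝟙_ C) ⟶ b (𝟙_ C))} {n : ℕ}
    {z : b (𝟙_ C) ⟶ b (𝟙_ C)} : z ∈ Idl.{w} (y :: L) n ↔
      ∃ a z', z' ∈ Idl L n ∧ a ≫ pw y (n + 1) + z' = z := by
  change z ∈ (AddMonoidHom.range (Preadditive.rightComp (b (𝟙_ C)) (pw y (n + 1)))) ⊔ Idl L n ↔ _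
  rw [AddSubgroup.mem_sup]
  constructor
  · rintro ⟨_, ⟨a, rfl⟩, z', h, rfl⟩
    exact ⟨a, z', h, rfl⟩
  · rintro ⟨a, z', h, rfl⟩
    exact ⟨_, ⟨a, rfl⟩, z', h, rfl⟩

lemma mem_idl_nil {n : ℕ} {z : b (𝟙_ C) ⟶ b (𝟙_ C)} : z ∈ Idl.{w} [] n ↔ z = 0 :=
  AddSubgroup.mem_bot

lemma idl_left {L : List (b (𝟙_ C) ⟶ b (𝟙_ C))} {n : ℕ} : ∀ (a : b (𝟙_ C) ⟶ b (𝟙_ C))
    {z : b (𝟙_ C) ⟶ b (𝟙_ C)}, z ∈ Idl.{w} L n → a ≫ z ∈ Idl L n := by
  induction L with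
  | nil =>
    intro a z hz
    rw [mem_idl_nil] at hz ⊢
    rw [hz, comp_zero]
  | cons y L ih =>
    intro a z hz
    rw [mem_idl_cons] at hz ⊢
    obtain ⟨c, z', hz', rfl⟩ := hz
    exact ⟨a ≫ c, a ≫ z', ih a hz', by rw [Preadditive.comp_add, Category.assoc]⟩

lemma idl_mono {L : List (b (𝟙_ C) ⟶ b (𝟙_ C))} {n n' : ℕ} (hn : n ≤ n') :
    Idl.{w} L n' ≤ Idl L n := by
  induction L with
  | nil => exact le_rfl
  | cons y L ih =>
    intro z hz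
    rw [mem_idl_cons] at hz ⊢
    obtain ⟨c, z', hz', rfl⟩ := hz
    obtain ⟨k, rfl⟩ := Nat.exists_eq_add_of_le hn
    refine ⟨c ≫ pw y k, z', ih hz', ?_⟩
    rw [Category.assoc, ← pw_add]
    congr 3
    omega

lemma idl_comm {L : List (b (𝟙_ C) ⟶ b (𝟙_ C))} {n k : ℕ} {a : b (𝟙_ C) ⟶ b (𝟙_ C)}
    (ha : Hg.{w} (2 * k) a) {z : b (𝟙_ C) ⟶ b (𝟙_ C)} (hz : z ∈ Idl.{w} L n) :
    z ≫ a ∈ Idl L n := by
  rw [← comm_even ha]
  exact idl_left a hz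

variable (C) in
/-- The ascending chain condition for left ideals. -/
def ACC : Prop := ∀ (F : Set (AddSubgroup (b (𝟙_ C) ⟶ b (𝟙_ C)))), F.Nonempty →
  (∀ J ∈ F, ∀ (a z : b (𝟙_ C) ⟶ b (𝟙_ C)), z ∈ J → a ≫ z ∈ J) →
  ∃ M ∈ F, ∀ J ∈ F, M ≤ J → J ≤ M

/-- A Koszul system for a list of elements. -/
structure Sys (L : List (b (𝟙_ C) ⟶ b (𝟙_ C))) where
  /-- the objects -/
  X : ℕ → C
  /-- the maps from the unit object -/
  u : ∀ n, 𝟙_ C ⟶ X n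
  P1 : ∀ n, ∃ N0, ∀ N ≥ N0, ∃ t : X N ⟶ X n, u N ≫ t = u n ∧ ∃ i0, ∀ i ≥ i0,
    ∀ w : b (𝟙_ C) ⟶ b (X N), Hg.{w} i w → ∃ h : b (𝟙_ C) ⟶ b (𝟙_ C), Hg i h ∧
      w ≫ m t = h ≫ m (u n)
  P2 : ∀ n, ∃ N0, ∀ N ≥ N0, ∃ i0, ∀ i ≥ i0, ∀ h : b (𝟙_ C) ⟶ b (𝟙_ C), Hg.{w} i h →
    h ≫ m (u N) = 0 → h ∈ Idl L n
  P3 : ∀ n, ∀ h ∈ Idl L n, h ≫ m (u n) = 0
  P4 : ∀ n, ∀ y ∈ L, Nil (act.{w} (X n) y)
  P5 : ∀ n (F : C), (∀ y ∈ L, act.{w} F (pw y (n + 1)) = 0) →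
    ∃ r : b (X n ⊗ F) ⟶ b F, m ((λ_ F).inv ≫ u n ▷ F) ≫ r = 𝟙 _

/-- The system of the empty list. -/
def sysNil : Sys (C := C) [] where
  X _ := 𝟙_ C
  u _ := 𝟙 _
  P1 n := ⟨0, fun N _ => ⟨𝟙 _, Category.comp_id _, 0, fun i _ w hw =>
    ⟨w, hw, by rw [m_id]⟩⟩⟩
  P2 n := ⟨0, fun N _ => ⟨0, fun i _ h _ hh => by
    rw [m_id, Category.comp_id] at hh
    rw [hh]
    exact zero_mem _⟩⟩
  P3 n h hh := by
    rw [mem_idl_nil.1 hh, zero_comp]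
  P4 n y hy := absurd hy List.not_mem_nil
  P5 n F _ := ⟨m (λ_ F).hom, by
    rw [id_whiskerRight, Category.comp_id, m_iso]⟩

end Kosz

end Pool.Agent.TPP2
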