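import Pool.Agent.TPP2.DecT
import Pool.Agent.TPP2.Int

/-!
# The tensor product property at a point of finite type
-/

set_option autoImplicit false
set_option linter.unusedSectionVars false

namespace Pool.Agent.TPP2

open CategoryTheory CategoryTheory.Limits MonoidalCategory CategoryTheory.Abelian
open Pool.Agent.TPP

universe w v u t

section Loc

variable {k : Type t} [Field k] {C : Type u} [Category.{v} C] [Abelian C] [Linear k C]
  [MonoidalCategory C] [MonoidalPreadditive C] [RigidCategory C] [HasExt.{w} C]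
  [EnoughProjectives C] [BraidedCategory C]

/-- The objects supported at a point form a thick tensor ideal. -/
lemma thick_suppAt (p : Point.{w} k C) : ThickIdeal (SuppAt p) where
  retract i r h hY _ hn y hy := (thick_kill hn y).retract i r h (hY _ hn y hy)
  ext hS h1 h3 _ hn y hy := (thick_kill hn y).ext hS (h1 _ hn y hy) (h3 _ hn y hy)
  proj hP _ hn y _ := (thick_kill hn y).proj hP
  left X _ hY _ hn y hy := (thick_kill hn y).left X (hY _ hn y hy)
  right Y hX _ hn y hy := (thick_kill hn y).right Y (hX _ hn y hy)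

/-- `X` is a direct summand of `Y ⊗ K` for some `Y`. -/
def SumOf (K X : C) : Prop := ∃ (Y : C) (i : X ⟶ Y ⊗ K) (r : Y ⊗ K ⟶ X), i ≫ r = 𝟙 X

/-- Up to isomorphism only finitely many indecomposable objects which are supported at `p` and
direct summands of objects `Y ⊗ K` have a map to `K` that does not factor through a projective
object. -/
def FinAt (p : Point.{w} k C) (K : C) : Prop :=
  ∃ (n : ℕ) (F : Fin n → C), ∀ X : C, SuppAt p X → SumOf K X → Indecomposable X →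
    (∃ f : X ⟶ K, ¬ StableZero f) → ∃ j, Nonempty (X ≅ F j)

/-- The object `K` has a right approximation by every thick tensor ideal of objects supported at
`p`. -/
def ApxAt (p : Point.{w} k C) (K : C) : Prop :=
  ∀ J : C → Prop, ThickIdeal J → (∀ X, J X → SuppAt p X) →
    ∃ (F : C) (f : F ⟶ K), IsApproxT J K F f

/-- The thick tensor ideal generated by a class of objects. -/
def GenBy (S : C → Prop) : C → Prop :=
  fun X => ∀ J : C → Prop, ThickIdeal J → (∀ K, S K → J K) → J X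

/-- The tensor product with the cones of the elements of a list. -/
lemma exists_local [MonoidalLinear k C] (hfg : FGCoh.{w} k C) (p : Point.{w} k C) {e0 : ℕ}
    (he0 : 0 < e0) {x0 : b (𝟙_ C) ⟶ b (𝟙_ C)} (hx0 : Hg.{w} (2 * e0) x0) (hpx : pv p e0 x0 = 1) :
    ∀ (L : List (b (𝟙_ C) ⟶ b (𝟙_ C))), (∀ y ∈ L, Mx p y) → ∀ Z : C, VB p Z →
      ∃ W : C, VB p W ∧ (∀ y ∈ L, Nil (act W y)) ∧ Gen Z W := by
  intro L
  induction L with
  | nil =>
    intro _ Z hZ
    exact ⟨Z, hZ, fun y hy => absurd hy List.not_mem_nil, fun J _ h => h⟩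
  | cons y L ih =>
    intro hL Z hZ
    obtain ⟨W, hW, hWn, hWg⟩ := ih (fun z hz => hL z (List.mem_cons_of_mem _ hz)) Z hZ
    have hyM := hL y List.mem_cons_self
    obtain ⟨l, hl, hyd, -⟩ := hL y List.mem_cons_self
    obtain ⟨d, hd⟩ : ∃ d, d + 1 = 2 * l := ⟨2 * l - 1, by omega⟩
    obtain ⟨c⟩ := exists_cone (n := d) (x := y) (by rw [hd]; exact hyd)
    refine ⟨c.E ⊗ W, vb_cone hfg p he0 hx0 hpx hyM c hW, ?_, fun J hJ h => hJ.left _ (hWg J hJ h)⟩
    intro z hz
    rcases List.mem_cons.1 hz with rfl | hz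
    · refine ⟨2, ?_⟩
      rw [act_tensor, ← tR_pw]
      have h := c.nilp hyd hd
      have h' : pw (act c.E z) 2 = 0 := by
        change (𝟙 _ ≫ _) ≫ _ = _
        rw [Category.id_comp, h]
      rw [h', map_zero]
    · obtain ⟨j, hj⟩ := hWn z hz
      refine ⟨j, ?_⟩
      rw [act_tensor_left, ← tL_pw, hj, map_zero]

lemma not_proj (p : Point.{w} k C) {e0 : ℕ} (he0 : 0 < e0) {x0 : b (𝟙_ C) ⟶ b (𝟙_ C)}
    (hx0 : Hg.{w} (2 * e0) x0) (hpx : pv p e0 x0 = 1) {W : C} (hW : VB p W) :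
    ¬ Projective W := by
  intro hP
  obtain ⟨q, hq⟩ := Nat.exists_eq_succ_of_ne_zero (Nat.mul_ne_zero two_ne_zero he0.ne')
  have h1 : act W x0 = 0 := hg_proj (n := q) hP (by
    rw [← Nat.succ_eq_add_one, ← hq]; exact act_hg W hx0)
  have h2 := hW e0 x0 hx0 h1
  rw [hpx] at h2
  exact one_ne_zero h2

/-- The main result at a relevant point. -/
theorem local_tpp [MonoidalLinear k C] [∀ X Y : C, FiniteDimensional k (X ⟶ Y)]
    [Simple (𝟙_ C)] (hfg : FGCoh.{w} k C) (hgen : FinGen C) (p : Point.{w} k C) (hp : Relevant p)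
    (hK : ∀ X, SuppAt p X → GenBy (fun K => FinAt p K ∨ ApxAt p K) X)
    {A B : C} (hA : VB p A) (hB : VB p B) : VB p (A ⊗ B) := by
  have hacc := acc_of_fg hfg
  obtain ⟨L, hL, hLg⟩ := exists_list p hacc
  obtain ⟨e0, x0, he0, hx0⟩ := exists_x0 p hp
  have hpx : pv p e0 (e x0) = 1 := by rw [pv_e, hx0]
  obtain ⟨WA, hWA, hWAn, hWAg⟩ := exists_local hfg p he0 (hg_e x0) hpx L hL A hA
  obtain ⟨WB, hWB, hWBn, hWBg⟩ := exists_local hfg p he0 (hg_e x0) hpx L hL B hB
  have hSA : SuppAt p WA := suppAt_of_list p hL hLg hWAn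
  have hSB : SuppAt p WB := suppAt_of_list p hL hLg hWBn
  have hPA := not_proj p he0 (hg_e x0) hpx hWA
  have hPB := not_proj p he0 (hg_e x0) hpx hWB
  by_contra hcon
  -- an element with value one that annihilates `A ⊗ B`
  obtain ⟨e1, x1, he1, hx1, hk1⟩ : ∃ (e1 : ℕ) (x1 : Ext.{w} (𝟙_ C) (𝟙_ C) (2 * e1)), 0 < e1 ∧
      p.toFun e1 x1 = 1 ∧ act (A ⊗ B) (e x1) = 0 := by
    unfold VB at hcon
    simp only [not_forall] at hcon
    obtain ⟨l, z, hz, hz0, hzp⟩ := hcon
    obtain ⟨y, hy⟩ : Hg.{w} (2 * (l + e0)) (z ≫ e x0) := hz.comp (hg_e x0) (Nat.mul_add 2 _ _).symm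
    have hpy : p.toFun (l + e0) y = pv p l z := by
      rw [← pv_e, ← hy, pv_mul p hz (hg_e x0), hpx, mul_one]
    refine ⟨l + e0, (p.toFun (l + e0) y)⁻¹ • y, by omega, ?_, ?_⟩
    · rw [p.map_smul, inv_mul_cancel₀ (by rw [hpy]; exact hzp)]
    · rw [e_smul, act_comp, ← hy, act_comp, hz0, zero_comp, zero_comp]
  -- the tensor product of the localised objects is projective
  have hproj : Projective (WA ⊗ WB) := by
    have h1 : KillB x1 B A := by
      refine ⟨1, ?_⟩
      rw [tR_zero_iff, e_epow, pw_one, hk1]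
    have h2 : KillB x1 B WA := hWAg _ (thick_killB he1 x1 B) h1
    have h3 : KillB x1 WA B := by
      obtain ⟨N, hN⟩ := h2
      exact ⟨N, kill_retract (β_ B WA).hom (β_ B WA).inv (Iso.hom_inv_id _) _ hN⟩
    have h4 : KillB x1 WA WB := hWBg _ (thick_killB he1 x1 WA) h3
    have h5 : Kill x1 (WA ⊗ WB) := by
      obtain ⟨N, hN⟩ := h4
      exact ⟨N, kill_retract (β_ WA WB).hom (β_ WA WB).inv (Iso.hom_inv_id _) _ hN⟩
    have h6 : SuppAt p (WA ⊗ WB) := (thick_suppAt p).right WB hSA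
    exact proj_of_nil hfg hgen fun l hl z => nil_all p he1 x1 hx1 h6 ((kill_iff x1).1 h5) hl z
  -- the ideals
  let J1 : C → Prop := fun X => SuppAt p X ∧ Projective (X ⊗ WB)
  have hJ1 : ThickIdeal J1 :=
    { retract := fun i r h hY => ⟨(thick_suppAt p).retract i r h hY.1,
        (thick_ann WB).retract i r h hY.2⟩
      ext := fun hS h1 h3 => ⟨(thick_suppAt p).ext hS h1.1 h3.1, (thick_ann WB).ext hS h1.2 h3.2⟩
      proj := fun hP => ⟨(thick_suppAt p).proj hP, (thick_ann WB).proj hP⟩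
      left := fun X _ hY => ⟨(thick_suppAt p).left X hY.1, (thick_ann WB).left X hY.2⟩
      right := fun Y hX => ⟨(thick_suppAt p).right Y hX.1, (thick_ann WB).right Y hX.2⟩ }
  have happ : ∀ K, FinAt p K ∨ ApxAt p K → ∃ (F : C) (f : F ⟶ K), IsApproxT J1 K F f := by
    rintro K (⟨n, F, hF⟩ | h)
    · obtain ⟨F, f, hFJ, hf⟩ := exists_approxT k hJ1 (R := fun X => SuppAt p X ∧ SumOf K X)
        (by
          rintro X Y i r hir ⟨hs, Y', i', r', h'⟩
          refine ⟨(thick_suppAt p).retract i r hir hs, Y', i ≫ i', r' ≫ r, ?_⟩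
          rw [Category.assoc, ← Category.assoc i', h', Category.id_comp, hir]) K
        ⟨n, F, fun X hX hi hf => hF X hX.1 hX.2 hi hf⟩
      refine ⟨F, f, hFJ, fun X hX g => ?_⟩
      have hfac := factor_dual (F := K) (F' := Kᘁ) g
      have hX1 : J1 (K ⊗ (Kᘁ ⊗ X)) := hJ1.left K (hJ1.left (Kᘁ) hX)
      obtain ⟨h', hh'⟩ := hf (K ⊗ (Kᘁ ⊗ X)) hX1 ⟨hX1.1, Kᘁ ⊗ X, (β_ K (Kᘁ ⊗ X)).hom,
        (β_ K (Kᘁ ⊗ X)).inv, Iso.hom_inv_id _⟩ (K ◁ ((Kᘁ) ◁ g) ≫ K ◁ ε_ K (Kᘁ) ≫ (ρ_ K).hom)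
      refine ⟨((λ_ X).inv ≫ η_ K (Kᘁ) ▷ X ≫ (α_ K (Kᘁ) X).hom) ≫ h', ?_⟩
      rw [Category.assoc, hh', hfac]
    · exact h J1 hJ1 fun X hX => hX.1
  have hdec : ∀ X, SuppAt p X → Nonempty (Dec J1 (Orth J1) X) := by
    intro X hX
    refine hK X hX _ (thick_dec.{w} hJ1 (thick_orth J1) (orth_ann J1)) fun K hgood => ?_
    obtain ⟨F, f, hF, hmin⟩ := exists_minimal_approxT k hJ1 (happ K hgood)
    exact dec_of_approx hJ1 hF hmin
  rcases connected hfg hgen p (orth_ann J1) hdec with h1 | h1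
  · exact hPA (h1 WA ⟨hSA, hproj⟩ hSA)
  · refine hPB (h1 WB ?_ hSB)
    intro Z hZ
    exact Projective.of_iso (β_ Z WB) hZ.2

/-- The tensor product property at a point of finite type. -/
theorem local_tpp' [MonoidalLinear k C] [∀ X Y : C, FiniteDimensional k (X ⟶ Y)]
    [Simple (𝟙_ C)] (hfg : FGCoh.{w} k C) (hgen : FinGen C) (p : Point.{w} k C)
    (hK : ∀ X, SuppAt p X → GenBy (fun K => FinAt p K ∨ ApxAt p K) X)
    {A B : C} (hA : p ∈ supp k A) (hB : p ∈ supp k B) : p ∈ supp k (A ⊗ B) := by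
  by_cases hp : Relevant p
  · rw [← vb_iff] at hA hB ⊢
    exact local_tpp hfg hgen p hp hK hA hB
  · have h1 : ∀ n, 0 < n → ∀ x, p.toFun n x = 0 := by
      intro n hn x
      by_contra hne
      exact hp ⟨n, hn, x, hne⟩
    refine mem_supp_of_pos p h1 fun hz => ?_
    rcases isZero_tensor hz with hz | hz
    · rw [supp_zero hz] at hA
      exact hA
    · rw [supp_zero hz] at hB
      exact hB

end Loc

end Pool.Agent.TPP2
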