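import Pool.Agent.TPP2.Van
import Pool.Agent.TPP2.Cons

/-!
# The maximal ideal of a point
-/

set_option autoImplicit false
set_option linter.unusedSectionVars false

namespace Pool.Agent.TPP2

open CategoryTheory CategoryTheory.Limits CategoryTheory.Abelian MonoidalCategory
open Pool.Agent.TPP

universe w v u t

section Pt

variable {k : Type t} [Field k] {C : Type u} [Category.{v} C] [Abelian C] [Linear k C]
  [MonoidalCategory C] [MonoidalPreadditive C] [RigidCategory C] [HasExt.{w} C]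

/-- the value at the point of the component of degree `2 l` -/
noncomputable def pv (p : Point.{w} k C) (l : ℕ) (z : b (𝟙_ C) ⟶ b (𝟙_ C)) : k :=
  p.toFun l (cmp (2 * l) z)

variable (p : Point.{w} k C)

lemma pv_e {l : ℕ} (x : Ext.{w} (𝟙_ C) (𝟙_ C) (2 * l)) : pv p l (e x) = p.toFun l x := by
  unfold pv
  rw [cmp_e]

lemma pv_add (l : ℕ) (z z' : b (𝟙_ C) ⟶ b (𝟙_ C)) : pv p l (z + z') = pv p l z + pv p l z' := by
  unfold pv
  rw [cmp_add, p.map_add]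

lemma pv_zero (l : ℕ) : pv p l 0 = 0 := by
  unfold pv
  rw [cmp_zero, p.map_zero]

lemma pv_neg (l : ℕ) (z : b (𝟙_ C) ⟶ b (𝟙_ C)) : pv p l (-z) = -pv p l z := by
  have h := pv_add p l z (-z)
  rw [add_neg_cancel, pv_zero] at h
  exact (neg_eq_of_add_eq_zero_right h.symm).symm

lemma pv_sub (l : ℕ) (z z' : b (𝟙_ C) ⟶ b (𝟙_ C)) : pv p l (z - z') = pv p l z - pv p l z' := by
  rw [sub_eq_add_neg, pv_add, pv_neg, ← sub_eq_add_neg]

lemma pv_mul {l l' : ℕ} {z z' : b (𝟙_ C) ⟶ b (𝟙_ C)} (hz : Hg.{w} (2 * l) z)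
    (hz' : Hg.{w} (2 * l') z') : pv p (l + l') (z ≫ z') = pv p l z * pv p l' z' := by
  obtain ⟨x, rfl⟩ := hz
  obtain ⟨y, rfl⟩ := hz'
  rw [← e_comp x y (Nat.mul_add 2 l l').symm, pv_e, pv_e, pv_e, p.map_mul]

lemma pv_one : pv p 0 (𝟙 _) = 1 := by
  have h := pv_e (l := 0) p (Ext.mk₀ (𝟙 (𝟙_ C)))
  exact h.trans p.map_one

variable [EnoughProjectives C]

lemma pv_pw {l : ℕ} {z : b (𝟙_ C) ⟶ b (𝟙_ C)} (hz : Hg.{w} (2 * l) z) (n : ℕ) :
    pv p (l * n) (pw z n) = pv p l z ^ n := by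
  induction n with
  | zero => exact (pv_one p).trans (pow_zero _).symm
  | succ n ih =>
    have h1 : Hg.{w} (2 * (l * n)) (pw z n) := by
      have := hg_pw hz n
      rwa [Nat.mul_assoc] at this
    have h2 := pv_mul p h1 hz
    rw [ih] at h2
    exact h2.trans (pow_succ _ _).symm

lemma cmp_comp_hg {X Y Z : C} (a : b X ⟶ b Y) {d : ℕ} {z : b Y ⟶ b Z} (hz : Hg.{w} d z) (n : ℕ) :
    e (cmp (n + d) (a ≫ z)) = e (cmp n a) ≫ z := by
  obtain ⟨y, rfl⟩ := hz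
  refine hom_induction (P := fun a : b X ⟶ b Y =>
    e (cmp (n + d) (a ≫ e y)) = e (cmp n a) ≫ e y) a ?_ ?_ ?_
  · rw [zero_comp, cmp_zero, cmp_zero, e_zero, e_zero, zero_comp]
  · intro q x
    rw [← e_comp x y rfl]
    by_cases hq : q = n
    · subst hq
      rw [cmp_e, cmp_e, e_comp]
    · rw [cmp_e_ne _ (by omega), cmp_e_ne _ hq, e_zero, e_zero, zero_comp]
  · intro f g hf hg
    rw [Preadditive.add_comp, cmp_add, cmp_add, e_add, e_add, hf, hg, Preadditive.add_comp]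

lemma cmp_comp_lt {X Y Z : C} (a : b X ⟶ b Y) {d : ℕ} {z : b Y ⟶ b Z} (hz : Hg.{w} d z) {n : ℕ}
    (hn : n < d) : cmp n (a ≫ z) = 0 := by
  obtain ⟨y, rfl⟩ := hz
  refine hom_induction (P := fun a : b X ⟶ b Y => cmp n (a ≫ e y) = 0) a ?_ ?_ ?_
  · rw [zero_comp, cmp_zero]
  · intro q x
    rw [← e_comp x y rfl, cmp_e_ne _ (by omega)]
  · intro f g hf hg
    rw [Preadditive.add_comp, cmp_add, hf, hg, add_zero]

/-- The homogeneous elements of positive degree in the maximal ideal. -/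
def Mx (p : Point.{w} k C) (z : b (𝟙_ C) ⟶ b (𝟙_ C)) : Prop :=
  ∃ l, 0 < l ∧ Hg.{w} (2 * l) z ∧ pv p l z = 0

lemma pv_cmp (l : ℕ) (z : b (𝟙_ C) ⟶ b (𝟙_ C)) : pv p l z = pv p l (e (cmp (2 * l) z)) := by
  rw [pv_e]
  rfl

lemma e_cmp_zero {X Y : C} (n : ℕ) : e (cmp.{w} n (0 : b X ⟶ b Y)) = 0 := by
  rw [cmp_zero, e_zero]

lemma pv_idl {L : List (b (𝟙_ C) ⟶ b (𝟙_ C))} (hL : ∀ y ∈ L, Mx p y) {n : ℕ} :
    ∀ {z : b (𝟙_ C) ⟶ b (𝟙_ C)}, z ∈ Idl L n → ∀ l, pv p l z = 0 := by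
  induction L with
  | nil =>
    intro z hz l
    rw [mem_idl_nil.1 hz, pv_zero]
  | cons y L ih =>
    intro z hz l
    obtain ⟨a, z', hz', rfl⟩ := mem_idl_cons.1 hz
    obtain ⟨f, hf, hy, hy0⟩ := hL y List.mem_cons_self
    have hY : Hg.{w} (2 * (f * (n + 1))) (pw y (n + 1)) := hg_even hy _
    rw [pv_add, ih (fun y hy => hL y (List.mem_cons_of_mem _ hy)) hz', add_zero]
    by_cases hl : f * (n + 1) ≤ l
    · obtain ⟨q, rfl⟩ := Nat.exists_eq_add_of_le' hl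
      have h1 := cmp_comp_hg a hY (2 * q)
      rw [← Nat.mul_add] at h1
      rw [pv_cmp, h1, pv_mul p (hg_e _) hY, pv_pw p hy, hy0, pow_succ, mul_zero, mul_zero]
    · unfold pv
      rw [cmp_comp_lt a hY (by omega), p.map_zero]

lemma hg_cmp (n : ℕ) (z : b (𝟙_ C) ⟶ b (𝟙_ C)) : Hg.{w} n (e (cmp n z)) := ⟨_, rfl⟩

lemma nil_idl {L : List (b (𝟙_ C) ⟶ b (𝟙_ C))} (hL : ∀ y ∈ L, ∃ l, Hg.{w} (2 * l) y) {n : ℕ}
    {F : C} (hF : ∀ y ∈ L, Nil (act.{w} F y)) :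
    ∀ {z : b (𝟙_ C) ⟶ b (𝟙_ C)}, z ∈ Idl L n → ∀ l, Nil (act F (e (cmp (2 * l) z))) := by
  induction L with
  | nil =>
    intro z hz l
    have h0 : z = 0 := mem_idl_nil.1 hz
    subst h0
    rw [e_cmp_zero, act_zero]
    exact nil_zero
  | cons y L ih =>
    intro z hz l
    obtain ⟨a, z', hz', rfl⟩ := mem_idl_cons.1 hz
    obtain ⟨f, hy⟩ := hL y List.mem_cons_self
    have hY : Hg.{w} (2 * (f * (n + 1))) (pw y (n + 1)) := hg_even hy _
    have hB := ih (fun y hy => hL y (List.mem_cons_of_mem _ hy))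
      (fun y hy => hF y (List.mem_cons_of_mem _ hy)) hz' l
    have hA : Nil (act F (e (cmp (2 * l) (a ≫ pw y (n + 1))))) := by
      by_cases hl : f * (n + 1) ≤ l
      · obtain ⟨q, rfl⟩ := Nat.exists_eq_add_of_le' hl
        have h1 := cmp_comp_hg a hY (2 * q)
        rw [← Nat.mul_add] at h1
        rw [h1, act_comp]
        refine Nil.comp (act_comm_even (l := q) (hg_cmp (2 * q) a) _) ?_
        obtain ⟨s, hs⟩ := hF y List.mem_cons_self
        refine ⟨s, ?_⟩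
        rw [act_pw, ← pw_mul, Nat.mul_comm (n + 1) s, pw_mul, hs]
        change pw 0 n ≫ 0 = 0
        rw [comp_zero]
      · rw [cmp_comp_lt a hY (by omega), e_zero, act_zero]
        exact nil_zero
    have hsum : act F (e (cmp (2 * l) (a ≫ pw y (n + 1) + z'))) =
        act F (e (cmp (2 * l) (a ≫ pw y (n + 1)))) + act F (e (cmp (2 * l) z')) := by
      rw [cmp_add, e_add, act_add]
    rw [hsum]
    generalize hu : e (cmp (2 * l) (a ≫ pw y (n + 1))) = u1 at hA hsum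
    generalize e (cmp (2 * l) z') = u2 at hB hsum
    have hg1 : Hg.{w} (2 * l) u1 := by rw [← hu]; exact hg_cmp (2 * l) _
    exact Nil.add (act_comm_even hg1 u2) hA hB

/-- The maximal ideal is generated by finitely many elements. -/
lemma exists_list (hacc : ACC.{w} C) : ∃ L : List (b (𝟙_ C) ⟶ b (𝟙_ C)), (∀ y ∈ L, Mx p y) ∧
    ∀ z, Mx p z → z ∈ Idl L 0 := by
  obtain ⟨_, ⟨L, hL, rfl⟩, hM⟩ := hacc {J | ∃ L : List (b (𝟙_ C) ⟶ b (𝟙_ C)),
    (∀ y ∈ L, Mx p y) ∧ Idl L 0 = J} ⟨_, [], fun y hy => absurd hy List.not_mem_nil, rfl⟩ (by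
      rintro _ ⟨L, -, rfl⟩ a z hz
      exact idl_left a hz)
  refine ⟨L, hL, fun z hz => ?_⟩
  refine hM _ ⟨z :: L, ?_, rfl⟩ ?_ ?_
  · intro y hy
    rcases List.mem_cons.1 hy with rfl | hy
    · exact hz
    · exact hL y hy
  · intro z' hz'
    exact mem_idl_cons.2 ⟨0, z', hz', by rw [zero_comp, zero_add]⟩
  · exact mem_idl_cons.2 ⟨𝟙 _, 0, zero_mem _, by rw [Category.id_comp, add_zero, pw_one]⟩

end Pt

end Pool.Agent.TPP2
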