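import Pool.Agent.TPP2.Kosz
import Pool.Agent.TPP2.Defs

/-!
# The consequences of finite generation
-/

set_option autoImplicit false
set_option linter.unusedSectionVars false

namespace Pool.Agent.TPP2

open CategoryTheory CategoryTheory.Limits CategoryTheory.Abelian MonoidalCategory
open Pool.Agent.TPP

universe w v u t

section Ring

variable {k : Type t} [Field k] {C : Type u} [Category.{v} C] [Abelian C] [Linear k C]
  [MonoidalCategory C] [MonoidalPreadditive C] [RigidCategory C] [HasExt.{w} C]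

lemma e_tensId (X : C) {n : ℕ} (x : Ext.{w} (𝟙_ C) (𝟙_ C) n) : e (tensId X x) = act X (e x) := by
  unfold tensId act
  rw [e_comp, e_comp]
  congr 2
  exact (bf_e (tensorRight X) x).symm

lemma e_smul {X Y : C} {n : ℕ} (c : k) (x : Ext.{w} X Y n) :
    e (c • x) = e x ≫ m (c • 𝟙 Y) := by
  rw [Ext.smul_eq_comp_mk₀, e_comp]
  rfl

lemma e_epow {X : C} {n : ℕ} (x : Ext.{w} X X (2 * n)) (N : ℕ) : e (epow x N) = pw (e x) N := by
  induction N with
  | zero => rfl
  | succ N ih =>
    change e ((epow x N).comp x _) = pw (e x) N ≫ e x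
    rw [e_comp, ih]

lemma tR_zero_iff {X : C} {n : ℕ} (x : Ext.{w} (𝟙_ C) (𝟙_ C) n) :
    x.mapExactFunctor (tensorRight X) = 0 ↔ act X (e x) = 0 := by
  rw [← tensId_eq_zero_iff, ← e_tensId]
  exact ⟨fun h => by rw [h, e_zero], fun h => e_eq_zero h⟩

variable [EnoughProjectives C]

lemma kill_iff {X : C} {n : ℕ} (x : Ext.{w} (𝟙_ C) (𝟙_ C) (2 * n)) :
    Kill x X ↔ Nil (act X (e x)) := by
  unfold Kill Nil
  simp only [tR_zero_iff, e_epow, act_pw]

/-- The scalars as central elements. -/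
noncomputable def scal : k →+* Subring.center (End (b (𝟙_ C))) where
  toFun c := ⟨End.of (m.{w} (c • 𝟙 (𝟙_ C))), by
    rw [Subring.mem_center_iff]
    intro g
    exact comm_even (k := 0) ⟨_, rfl⟩ (End.asHom g)⟩
  map_one' := by
    apply Subtype.ext
    change m ((1 : k) • 𝟙 (𝟙_ C)) = 𝟙 _
    rw [one_smul, m_id]
  map_zero' := by
    apply Subtype.ext
    change m ((0 : k) • 𝟙 (𝟙_ C)) = 0
    rw [zero_smul, m_zero]
  map_add' c d := by
    apply Subtype.ext
    change m ((c + d) • 𝟙 (𝟙_ C)) = m (c • 𝟙 (𝟙_ C)) + m (d • 𝟙 (𝟙_ C))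
    rw [add_smul, m_add]
  map_mul' c d := by
    apply Subtype.ext
    change m ((c * d) • 𝟙 (𝟙_ C)) = m (d • 𝟙 (𝟙_ C)) ≫ m (c • 𝟙 (𝟙_ C))
    rw [← m_comp, Linear.smul_comp, Linear.comp_smul, Category.id_comp, smul_smul, mul_comm]

section Noeth

variable (k) {r : ℕ} (x : Fin r → (b (𝟙_ C) ⟶ b (𝟙_ C))) (hx : ∀ i, ∃ l, Hg.{w} (2 * l) (x i))

/-- The polynomials in the central elements `x i`. -/
noncomputable def ph : MvPolynomial (Fin r) k →+* Subring.center (End (b (𝟙_ C))) :=
  MvPolynomial.eval₂Hom scal fun i => ⟨End.of (x i), by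
    obtain ⟨l, hl⟩ := hx i
    rw [Subring.mem_center_iff]
    intro g
    exact comm_even hl (End.asHom g)⟩

lemma ph_X (i : Fin r) : (ph k x hx (MvPolynomial.X i)).1 = End.of (x i) := by
  unfold ph
  rw [MvPolynomial.coe_eval₂Hom, MvPolynomial.eval₂_X]

lemma ph_C (c : k) : (ph k x hx (MvPolynomial.C c)).1 = End.of (m.{w} (c • 𝟙 (𝟙_ C))) := by
  unfold ph
  rw [MvPolynomial.coe_eval₂Hom, MvPolynomial.eval₂_C]
  rfl

/-- the value of a polynomial as a morphism -/
noncomputable def phm (f : MvPolynomial (Fin r) k) : b (𝟙_ C) ⟶ b (𝟙_ C) :=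
  End.asHom (ph k x hx f).1

lemma phm_mul (f g : MvPolynomial (Fin r) k) :
    phm k x hx (f * g) = phm k x hx g ≫ phm k x hx f := by
  unfold phm
  rw [map_mul]
  rfl

lemma phm_add (f g : MvPolynomial (Fin r) k) :
    phm k x hx (f + g) = phm k x hx g + phm k x hx f := by
  unfold phm
  rw [map_add, add_comm]
  rfl

lemma phm_zero : phm k x hx 0 = 0 := by
  unfold phm
  rw [map_zero]
  rfl

lemma phm_one : phm k x hx 1 = 𝟙 _ := by
  unfold phm
  rw [map_one]
  rfl

lemma phm_comm (f : MvPolynomial (Fin r) k) (g : b (𝟙_ C) ⟶ b (𝟙_ C)) :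
    phm k x hx f ≫ g = g ≫ phm k x hx f :=
  Subring.mem_center_iff.1 (ph k x hx f).2 (End.of g)

/-- The map from the free module. -/
noncomputable def pim {s : ℕ} (ε : Fin s → (b (𝟙_ C) ⟶ b (𝟙_ C))) :
    (Fin s → MvPolynomial (Fin r) k) →+ (b (𝟙_ C) ⟶ b (𝟙_ C)) where
  toFun v := ∑ j, ε j ≫ phm k x hx (v j)
  map_zero' := by simp [phm_zero]
  map_add' v v' := by
    rw [← Finset.sum_add_distrib]
    refine Finset.sum_congr rfl fun j _ => ?_
    rw [Pi.add_apply, phm_add, Preadditive.comp_add, add_comm]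

lemma pim_smul {s : ℕ} (ε : Fin s → (b (𝟙_ C) ⟶ b (𝟙_ C))) (f : MvPolynomial (Fin r) k)
    (v : Fin s → MvPolynomial (Fin r) k) :
    pim k x hx ε (f • v) = phm k x hx f ≫ pim k x hx ε v := by
  change ∑ j, ε j ≫ phm k x hx (f * v j) = _ ≫ ∑ j, ε j ≫ phm k x hx (v j)
  rw [Preadditive.comp_sum]
  refine Finset.sum_congr rfl fun j _ => ?_
  rw [phm_mul, ← Category.assoc, phm_comm]

lemma pim_single {s : ℕ} (ε : Fin s → (b (𝟙_ C) ⟶ b (𝟙_ C))) (j : Fin s) :
    pim k x hx ε (Pi.single j 1) = ε j := by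
  change ∑ i, ε i ≫ phm k x hx (Pi.single (M := fun _ => MvPolynomial (Fin r) k) j 1 i) = _
  rw [Finset.sum_eq_single j]
  · rw [Pi.single_eq_same, phm_one, Category.comp_id]
  · intro i _ hi
    rw [Pi.single_eq_of_ne hi, phm_zero, comp_zero]
  · intro h
    exact absurd (Finset.mem_univ j) h

lemma acc_of_surj {s : ℕ} (ε : Fin s → (b (𝟙_ C) ⟶ b (𝟙_ C)))
    (hs : ∀ z, ∃ v, pim k x hx ε v = z) : ACC.{w} C := by
  intro F hF hcl
  have hN : IsNoetherian (MvPolynomial (Fin r) k) (Fin s → MvPolynomial (Fin r) k) := inferInstance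
  rw [← set_has_maximal_iff_noetherian] at hN
  let T : ∀ J ∈ F, Submodule (MvPolynomial (Fin r) k) (Fin s → MvPolynomial (Fin r) k) :=
    fun J hJ =>
      { carrier := {v | pim k x hx ε v ∈ J}
        add_mem' := by
          intro v v' h h'
          change pim k x hx ε (v + v') ∈ J
          rw [map_add]
          exact J.add_mem h h'
        zero_mem' := by
          change pim k x hx ε 0 ∈ J
          rw [map_zero]
          exact J.zero_mem
        smul_mem' := by
          intro f v h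
          change pim k x hx ε (f • v) ∈ J
          rw [pim_smul]
          exact hcl J hJ _ _ h }
  obtain ⟨J1, hJ1⟩ := hF
  obtain ⟨_, ⟨J0, hJ0, rfl⟩, hmax⟩ := hN {W | ∃ J, ∃ hJ : J ∈ F, T J hJ = W} ⟨_, J1, hJ1, rfl⟩
  refine ⟨J0, hJ0, fun J hJ hle z hz => ?_⟩
  obtain ⟨v, rfl⟩ := hs z
  by_contra hcon
  refine hmax (T J hJ) ⟨J, hJ, rfl⟩ (lt_of_le_of_ne (fun v' hv' => hle hv') ?_)
  intro heq
  have : v ∈ T J hJ := hz
  rw [← heq] at this
  exact hcon this

end Noeth

/-- Finitely generated cohomology implies the ascending chain condition. -/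
lemma acc_of_fg (hfg : FGCoh.{w} k C) : ACC.{w} C := by
  obtain ⟨r, d, x, hd, h⟩ := hfg
  obtain ⟨s, a, ε, hN⟩ := h (𝟙_ C)
  have hx : ∀ i, ∃ l, Hg.{w} (2 * l) (e (x i)) := fun i => ⟨d i, hg_e _⟩
  refine acc_of_surj k (fun i => e (x i)) hx (fun j => e (ε j)) ?_
  set π := pim k (fun i => e (x i)) hx (fun j => e (ε j)) with hπ
  have h1 : ∀ (z : b (𝟙_ C) ⟶ b (𝟙_ C)) (f : MvPolynomial (Fin r) k), z ∈ π.range →
      z ≫ phm k (fun i => e (x i)) hx f ∈ π.range := by
    rintro _ f ⟨v, rfl⟩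
    refine ⟨f • v, ?_⟩
    rw [hπ, pim_smul, phm_comm]
  let N : ∀ n, Submodule k (Ext.{w} (𝟙_ C) (𝟙_ C) n) := fun n =>
    { carrier := {z | e z ∈ π.range}
      add_mem' := by
        intro z z' h h'
        change e (z + z') ∈ π.range
        rw [e_add]
        exact π.range.add_mem h h'
      zero_mem' := by
        change e 0 ∈ π.range
        rw [e_zero]
        exact π.range.zero_mem
      smul_mem' := by
        intro c z hz
        change e (c • z) ∈ π.range
        rw [e_smul]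
        have := h1 _ (MvPolynomial.C c) hz
        unfold phm at this
        rw [ph_C] at this
        exact this }
  have h2 := hN N (fun j => ⟨Pi.single j 1, pim_single k _ hx _ j⟩) (by
    intro n z i hz
    change e (z.comp (tensId (𝟙_ C) (x i)) rfl) ∈ π.range
    rw [e_comp, e_tensId, act_unit]
    have := h1 _ (MvPolynomial.X i) hz
    unfold phm at this
    rw [ph_X] at this
    exact this)
  intro z
  change z ∈ π.range
  refine hom_induction (P := fun z : b (𝟙_ C) ⟶ b (𝟙_ C) => z ∈ π.range) z ?_ ?_ ?_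
  · exact π.range.zero_mem
  · intro n z
    have : z ∈ N n := by rw [h2 n]; trivial
    exact this
  · intro z z' h h'
    exact π.range.add_mem h h'

end Ring

end Pool.Agent.TPP2
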