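import Pool.Agent.TPP2.Cent

/-!
# Syzygies, cones of classes
-/

set_option autoImplicit false
set_option linter.unusedSectionVars false

namespace Pool.Agent.TPP2

open CategoryTheory CategoryTheory.Limits CategoryTheory.Abelian MonoidalCategory
open Pool.Agent.TPP

universe w v u

section Syz

variable {C : Type u} [Category.{v} C] [Abelian C] [HasExt.{w} C]
  [MonoidalCategory C] [MonoidalPreadditive C] [RigidCategory C] [EnoughProjectives C]

variable (C) in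
/-- The iterated syzygies of the unit object. -/
noncomputable def Q : ℕ → C
  | 0 => 𝟙_ C
  | n + 1 => Om (Q n)

/-- The syzygy sequence. -/
noncomputable abbrev sQ (n : ℕ) : ShortComplex C :=
  ShortComplex.mk (X₁ := Q C (n + 1)) (kernel.ι (Projective.π (Q C n))) (Projective.π (Q C n))
    (kernel.condition _)

lemma hQ (n : ℕ) : (sQ (C := C) n).ShortExact := shortExact_ker _

variable (C) in
/-- The class of the syzygy sequence. -/
noncomputable def dQ (n : ℕ) : b (Q C n) ⟶ b (Q C (n + 1)) := dl (hQ n)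

lemma hg_dQ (n : ℕ) : Hg.{w} 1 (dQ C n) := hg_dl _

variable (C) in
/-- The canonical class of degree `n` from the unit object to its syzygy. -/
noncomputable def om : (n : ℕ) → (b (𝟙_ C) ⟶ b (Q C n))
  | 0 => 𝟙 _
  | n + 1 => om n ≫ dQ C n

lemma hg_om (n : ℕ) : Hg.{w} n (om C n) := by
  induction n with
  | zero => exact ⟨Ext.mk₀ (𝟙 _), rfl⟩
  | succ n ih => exact ih.comp (hg_dQ _) rfl

lemma tR_dQ (n : ℕ) (W : C) : tR W (dQ C n) =
    (dl.{w} (sR_exact (hQ n) W) : b (Q C n ⊗ W) ⟶ b (Q C (n + 1) ⊗ W)) :=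
  tR_dl (hQ n) W

/-- Positive classes into injective objects vanish. -/
lemma hg_inj {I Y : C} (hI : Injective I) {n : ℕ} {z : b Y ⟶ b I} (hz : Hg.{w} (n + 1) z) :
    z = 0 := by
  obtain ⟨x, rfl⟩ := hz
  rw [Ext.eq_zero_of_injective x, e_zero]

lemma om_surj (n : ℕ) : ∀ {j : ℕ} {Z : C} {z : b (𝟙_ C) ⟶ b Z}, Hg.{w} (n + j) z →
    ∃ z' : b (Q C n) ⟶ b Z, Hg j z' ∧ om C n ≫ z' = z := by
  induction n with
  | zero =>
    intro j Z z hz
    rw [Nat.zero_add] at hz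
    exact ⟨z, hz, Category.id_comp z⟩
  | succ n ih =>
    intro j Z z hz
    obtain ⟨z', hz', rfl⟩ := ih (j := j + 1) (by rw [← Nat.add_assoc, Nat.add_right_comm]; exact hz)
    obtain ⟨z'', hz'', rfl⟩ := desc₃ (hQ n) hz'
      (hg_proj (Projective.projective_over _) ((hg_m _).comp hz' (Nat.zero_add _)))
    exact ⟨z'', hz'', Category.assoc _ _ _⟩

/-- Injectivity of the multiplication with the class of a syzygy sequence. -/
lemma dl_inj {S : ShortComplex C} (hS : S.ShortExact) (hP : Projective S.X₂) {j : ℕ} {Z : C}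
    {z : b S.X₁ ⟶ b Z} (hz : Hg.{w} (j + 1) z) (h : dl hS ≫ z = 0) : z = 0 := by
  obtain ⟨z', hz', rfl⟩ := desc₁ hS hz h
  rw [hg_proj hP hz', comp_zero]

lemma dl_inj' {S : ShortComplex C} (hS : S.ShortExact) (hP : Injective S.X₂) {j : ℕ} {Y : C}
    {z : b Y ⟶ b S.X₃} (hz : Hg.{w} (j + 1) z) (h : z ≫ dl hS = 0) : z = 0 := by
  obtain ⟨z', hz', rfl⟩ := lift₃ hS hz h
  rw [hg_inj hP hz', zero_comp]

lemma projO (X : C) : Projective (Projective.over X) := inferInstance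

/-- Injectivity of the multiplication with `om n ⊗ W`. -/
lemma om_inj (W : C) (n : ℕ) : ∀ {j : ℕ} {Z : C} {z : b (Q C n ⊗ W) ⟶ b Z}, Hg.{w} (j + 1) z →
    tR W (om C n) ≫ z = 0 → z = 0 := by
  induction n with
  | zero =>
    intro j Z z _ h
    change tR W (𝟙 _) ≫ z = 0 at h
    rw [tR_id] at h
    exact (Category.id_comp z).symm.trans h
  | succ n ih =>
    intro j Z z hz h
    have h1 : tR W (om C n) ≫ (tR W (dQ C n) ≫ z) = 0 := by
      rw [← Category.assoc, ← tR_comp]; exact h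
    have h2 := ih (j := j + 1) ((tR_hg W (hg_dQ n)).comp hz (Nat.add_comm _ _)) h1
    rw [tR_dQ] at h2
    exact dl_inj (sR_exact (hQ n) W) (projective_tensor_right (projO _) W) hz h2

lemma om_inj₀ (n : ℕ) : ∀ {j : ℕ} {Z : C} {z : b (Q C n) ⟶ b Z}, Hg.{w} (j + 1) z →
    om C n ≫ z = 0 → z = 0 := by
  induction n with
  | zero =>
    intro j Z z _ h
    exact (Category.id_comp z).symm.trans h
  | succ n ih =>
    intro j Z z hz h
    have h1 : om C n ≫ (dQ C n ≫ z) = 0 := by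
      rw [← Category.assoc]; exact h
    have h2 := ih (j := j + 1) ((hg_dQ n).comp hz (Nat.add_comm _ _)) h1
    exact dl_inj (hQ n) (projO _) hz h2

/-- Every class into `Q n ⊗ W` of large degree comes from `om n ⊗ W`. -/
lemma om_lift (W : C) (n : ℕ) : ∀ {j : ℕ} {Y : C} {z : b Y ⟶ b (Q C n ⊗ W)},
    Hg.{w} (j + 1 + n) z → ∃ z' : b Y ⟶ b (𝟙_ C ⊗ W), Hg (j + 1) z' ∧ z' ≫ tR W (om C n) = z := by
  induction n with
  | zero =>
    intro j Y z hz
    refine ⟨z, hz, ?_⟩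
    change z ≫ tR W (𝟙 _) = z
    rw [tR_id]
    exact Category.comp_id z
  | succ n ih =>
    intro j Y z hz
    have hS := sR_exact (hQ (C := C) n) W
    have h0 : z ≫ m (sR (sQ n) W).f = 0 :=
      hg_inj (injective_of_projective (projective_tensor_right (projO _) W))
        (n := j + 1 + n) (hz.comp (hg_m _) (by omega))
    obtain ⟨z1, hz1, h1⟩ := lift₁ hS (n := j + 1 + n) hz h0
    obtain ⟨z2, hz2, h2⟩ := ih hz1
    refine ⟨z2, hz2, ?_⟩
    rw [← h1, ← h2, Category.assoc]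
    change z2 ≫ tR W (om C n ≫ dQ C n) = _
    rw [tR_comp, tR_dQ]

/-- The pushout of a short exact sequence. -/
lemma pushout_exact {S : ShortComplex C} (hS : S.ShortExact) {F : C} (u : S.X₁ ⟶ F) :
    ∃ (E : C) (i : F ⟶ E) (q : E ⟶ S.X₃) (z : i ≫ q = 0)
      (h : (ShortComplex.mk i q z).ShortExact), dl.{w} h = dl hS ≫ m u := by
  have hmono := hS.mono_f
  have hepiS := hS.epi_g
  have h0 : u ≫ (0 : F ⟶ S.X₃) = S.f ≫ S.g := by rw [comp_zero, S.zero]
  let c : pushout u S.f ⟶ S.X₃ := pushout.desc 0 S.g h0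
  have h1 : pushout.inl u S.f ≫ c = 0 := pushout.inl_desc _ _ _
  have h2 : pushout.inr u S.f ≫ c = S.g := pushout.inr_desc _ _ _
  have hepi : Epi c := by
    have : Epi (pushout.inr u S.f ≫ c) := by rw [h2]; infer_instance
    exact epi_of_epi (pushout.inr u S.f) _
  have hex : (ShortComplex.mk (pushout.inl u S.f) c h1).ShortExact := by
    refine { exact := ?_, mono_f := Abelian.mono_pushout_of_mono_g _ _, epi_g := hepi }
    apply ShortComplex.exact_of_g_is_cokernel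
    have hfac : ∀ {T : C} (t : pushout u S.f ⟶ T), pushout.inl u S.f ≫ t = 0 →
        S.f ≫ pushout.inr u S.f ≫ t = 0 := by
      intro T t ht
      rw [← Category.assoc, ← pushout.condition, Category.assoc, ht, comp_zero]
    refine CokernelCofork.IsColimit.ofπ _ _
      (fun {T} t ht => hS.exact.desc (pushout.inr u S.f ≫ t) (hfac t ht)) ?_ ?_
    · intro T t ht
      apply pushout.hom_ext
      · change pushout.inl u S.f ≫ c ≫ _ = pushout.inl u S.f ≫ t
        rw [← Category.assoc, h1, zero_comp]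
        exact ht.symm
      · change pushout.inr u S.f ≫ c ≫ _ = pushout.inr u S.f ≫ t
        rw [← Category.assoc, h2, hS.exact.g_desc]
    · intro T t ht b' hb
      have hb' : c ≫ b' = t := hb
      apply (cancel_epi S.g).1
      rw [hS.exact.g_desc, ← hb', ← Category.assoc, h2]
  refine ⟨_, _, c, h1, hex, ?_⟩
  have h3 := dl_nat.{w} hS hex ⟨u, pushout.inr u S.f, 𝟙 _, pushout.condition, by
    change pushout.inr u S.f ≫ c = S.g ≫ 𝟙 _
    rw [h2, Category.comp_id]⟩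
  change dl hS ≫ m u = m (𝟙 _) ≫ dl hex at h3
  rw [h3, m_id, Category.id_comp]

/-- A cone of a class of degree `n + 1`. -/
structure Cone (n : ℕ) (x : b (𝟙_ C) ⟶ b (𝟙_ C)) where
  /-- the object -/
  E : C
  /-- the map from the unit object -/
  u : 𝟙_ C ⟶ E
  /-- the map to the syzygy -/
  q : E ⟶ Q C n
  /-- the composition is zero -/
  z : u ≫ q = 0
  /-- exactness -/
  ex : (ShortComplex.mk u q z).ShortExact
  /-- the class -/
  cl : om C n ≫ dl.{w} ex = x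

lemma exists_cone {n : ℕ} {x : b (𝟙_ C) ⟶ b (𝟙_ C)} (hx : Hg.{w} (n + 1) x) :
    Nonempty (Cone n x) := by
  obtain ⟨z', hz', h1⟩ := om_surj (n + 1) (j := 0) hx
  obtain ⟨y, rfl⟩ := hz'
  obtain ⟨g, rfl⟩ := (Ext.mk₀_bijective _ _).2 y
  obtain ⟨E, i, q, z, h, hd⟩ := pushout_exact.{w} (hQ n) g
  refine ⟨⟨E, i, q, z, h, ?_⟩⟩
  rw [hd, ← h1]
  exact (Category.assoc _ _ _).symm

lemma m_inj {X Y : C} {f g : X ⟶ Y} (h : m.{w} f = m g) : f = g :=
  (Ext.mk₀_bijective X Y).1 (e_inj h)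

lemma hg_zero_iff {X Y : C} {z : b X ⟶ b Y} (hz : Hg.{w} 0 z) : ∃ f : X ⟶ Y, z = m f := by
  obtain ⟨x, rfl⟩ := hz
  obtain ⟨f, rfl⟩ := (Ext.mk₀_bijective X Y).2 x
  exact ⟨f, rfl⟩

lemma Cone.comp_u {n : ℕ} {x : b (𝟙_ C) ⟶ b (𝟙_ C)} (c : Cone n x) : x ≫ m c.u = 0 := by
  have h : dl c.ex ≫ m c.u = 0 := dl_f c.ex
  calc x ≫ m c.u = (om C n ≫ dl c.ex) ≫ m c.u := by rw [c.cl]
    _ = 0 := by rw [Category.assoc, h, comp_zero]

/-- The transition maps. -/
lemma Cone.trans {n n' k : ℕ} {x x' y : b (𝟙_ C) ⟶ b (𝟙_ C)} (c : Cone n x) (c' : Cone n' x')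
    (hy : Hg.{w} k y) (hn : n = k + n') (hx : x = y ≫ x') :
    ∃ (τ : c.E ⟶ c'.E) (τQ : Q C n ⟶ Q C n'), c.u ≫ τ = c'.u ∧ τ ≫ c'.q = c.q ≫ τQ ∧
      om C n ≫ m τQ = y ≫ om C n' := by
  have hepi := c'.ex.epi_g
  have hmono := c'.ex.mono_f
  obtain ⟨z, hz, h1⟩ := om_surj n (j := 0) (z := y ≫ om C n')
    (hy.comp (hg_om n') (by omega))
  obtain ⟨τQ, rfl⟩ := hg_zero_iff hz
  -- the classes agree
  have h2 : dl.{w} c.ex = m τQ ≫ dl c'.ex := by
    rw [← sub_eq_zero]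
    refine om_inj₀ (C := C) n (j := 0) ((hg_dl c.ex).sub ((hg_m _).comp (hg_dl c'.ex) rfl)) ?_
    rw [Preadditive.comp_sub, c.cl, ← Category.assoc, h1, Category.assoc, c'.cl]
    exact sub_eq_zero.2 hx
  -- the map in the middle
  obtain ⟨z0, hz0, h3⟩ := lift₃ c'.ex (z := m.{w} (c.q ≫ τQ)) (hg_m _) (by
    rw [m_comp, Category.assoc, ← h2]
    exact g_dl c.ex)
  obtain ⟨τ0, rfl⟩ := hg_zero_iff hz0
  have h4 : τ0 ≫ c'.q = c.q ≫ τQ := m_inj ((m_comp _ _).trans h3)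
  obtain ⟨s, hs⟩ := ex_lift c'.ex (c.u ≫ τ0) (by
    change (c.u ≫ τ0) ≫ c'.q = 0
    rw [Category.assoc, h4, ← Category.assoc, c.z, zero_comp])
  change s ≫ c'.u = _ at hs
  have h5 : dl.{w} c.ex ≫ m s = m τQ ≫ dl c'.ex := dl_nat.{w} c.ex c'.ex ⟨s, τ0, τQ, hs, h4⟩
  have h6 : dl.{w} c.ex ≫ m (s - 𝟙 _) = 0 := by
    rw [m_sub, Preadditive.comp_sub, h5, ← h2, m_id, Category.comp_id, sub_self]
  obtain ⟨z1, hz1, h7⟩ := desc₁ c.ex (hg_m (s - 𝟙 _)) h6
  obtain ⟨τ1, rfl⟩ := hg_zero_iff hz1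
  have h8 : c.u ≫ τ1 = s - 𝟙 _ := m_inj ((m_comp _ _).trans h7)
  refine ⟨τ0 - τ1 ≫ c'.u, τQ, ?_, ?_, h1⟩
  · rw [Preadditive.comp_sub, ← hs, ← Category.assoc, h8, Preadditive.sub_comp,
      Category.id_comp]
    abel
  · rw [Preadditive.sub_comp, Category.assoc, c'.z, comp_zero, sub_zero, h4]

/-- An even class acts nilpotently on its cone. -/
lemma Cone.nilp {n k : ℕ} {x : b (𝟙_ C) ⟶ b (𝟙_ C)} (c : Cone n x) (hx : Hg.{w} (2 * k) x)
    (hk : n + 1 = 2 * k) : act c.E x ≫ act c.E x = 0 := by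
  have h1 : m c.u ≫ act c.E x = 0 := by
    rw [← act_m, act_unit, c.comp_u]
  have h2 : act (Q C n) x = dl.{w} c.ex ≫ om C n := by
    rw [← sub_eq_zero]
    refine om_inj₀ (C := C) n (j := n) ((act_hg _ (hk ▸ hx)).sub
      ((hg_dl c.ex).comp (hg_om n) (Nat.add_comm _ _))) ?_
    rw [Preadditive.comp_sub, ← act_cent hx (om C n), act_unit, ← Category.assoc, c.cl, sub_self]
  have h3 : act c.E x ≫ m c.q = 0 := by
    rw [act_m, h2, ← Category.assoc]
    have h := g_dl c.ex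
    change m c.q ≫ dl c.ex = 0 at h
    rw [h, zero_comp]
  obtain ⟨v, -, hv⟩ := lift₂ c.ex (act_hg c.E hx) h3
  change v ≫ m c.u = _ at hv
  calc act c.E x ≫ act c.E x = v ≫ (m c.u ≫ act c.E x) := by
        rw [← Category.assoc, hv]
    _ = 0 := by rw [h1, comp_zero]

/-- If the class annihilates `Z` then the tensor product of the unit map with `Z` splits. -/
lemma Cone.split {n : ℕ} {x : b (𝟙_ C) ⟶ b (𝟙_ C)} (c : Cone n x) (Z : C)
    (h : tR.{w} Z x = 0) : ∃ r : b (c.E ⊗ Z) ⟶ b (𝟙_ C ⊗ Z), m (c.u ▷ Z) ≫ r = 𝟙 _ := by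
  have h1 : tR.{w} Z (dl c.ex) = 0 := by
    refine om_inj (C := C) Z n (j := 0) (tR_hg Z (hg_dl c.ex)) ?_
    rw [← tR_comp, c.cl, h]
  have h2 : dl.{w} (sR_exact c.ex Z) = 0 := by rw [← tR_dl]; exact h1
  obtain ⟨r, -, hr⟩ := desc₁ (sR_exact c.ex Z) (z := m (𝟙 (𝟙_ C ⊗ Z))) (hg_m _) (by
    rw [h2, zero_comp])
  exact ⟨r, hr⟩

end Syz

end Pool.Agent.TPP2
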