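import Pool.Agent.TPP2.Ring

/-!
# Objects on which all positive classes are nilpotent are projective
-/

set_option autoImplicit false
set_option linter.unusedSectionVars false

namespace Pool.Agent.TPP2

open CategoryTheory CategoryTheory.Limits CategoryTheory.Abelian MonoidalCategory
open Pool.Agent.TPP

universe w v u t

section Van

variable {k : Type t} [Field k] {C : Type u} [Category.{v} C] [Abelian C] [Linear k C]
  [MonoidalCategory C] [MonoidalPreadditive C] [RigidCategory C] [HasExt.{w} C]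
  [EnoughProjectives C]

lemma act_comm_even {X : C} {l : ℕ} {f : b (𝟙_ C) ⟶ b (𝟙_ C)} (hf : Hg.{w} (2 * l) f)
    (g : b (𝟙_ C) ⟶ b (𝟙_ C)) : act X f ≫ act X g = act X g ≫ act X f := act_cent hf _

/-- If the element with value `1` at the point is nilpotent as well then all positive classes are
nilpotent. -/
lemma nil_all (p : Point.{w} k C) {e0 : ℕ} (he0 : 0 < e0) (x0 : Ext.{w} (𝟙_ C) (𝟙_ C) (2 * e0))
    (hx0 : p.toFun e0 x0 = 1) {F : C} (hF : SuppAt p F) (h0 : Nil (act F (e x0))) {l : ℕ}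
    (hl : 0 < l) (z : Ext.{w} (𝟙_ C) (𝟙_ C) (2 * l)) : Nil (act F (e z)) := by
  have hc : e0 * l = l * e0 := Nat.mul_comm _ _
  set c := p.toFun l z ^ e0 with hcdef
  set x1 : Ext.{w} (𝟙_ C) (𝟙_ C) (2 * (l * e0)) := hc ▸ epow x0 l with hx1
  have hpx : p.toFun (l * e0) x1 = 1 := by
    rw [hx1, Point.congr p hc, Point.map_epow, hx0, one_pow]
  have hex : e x1 = pw (e x0) l := by
    rw [hx1, ← e_epow]
    generalize epow x0 l = y
    clear_value c
    clear hpx hx1 x1
    revert hc y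
    generalize l * e0 = q
    rintro rfl y
    rfl
  have hy := hF (l * e0) (Nat.mul_pos hl he0) (epow z e0 - c • x1) (by
    rw [sub_eq_add_neg, p.map_add, ← neg_smul, p.map_smul, hpx, Point.map_epow]
    ring)
  rw [kill_iff, e_sub, act_sub, e_epow, e_smul, hex] at hy
  have h1 : Nil (act F (pw (e x0) l ≫ m (c • 𝟙 (𝟙_ C)))) := by
    rw [act_comp, ← act_comm_even (X := F) (l := 0) (f := m (c • 𝟙 (𝟙_ C))) ⟨_, rfl⟩]
    refine Nil.comp (act_comm_even (X := F) (l := 0) (f := m (c • 𝟙 (𝟙_ C))) ⟨_, rfl⟩ _) ?_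
    obtain ⟨n, hn⟩ := h0
    refine ⟨n, ?_⟩
    rw [act_pw, ← pw_mul, Nat.mul_comm l n, pw_mul, hn]
    obtain ⟨l', rfl⟩ := Nat.exists_eq_succ_of_ne_zero hl.ne'
    change pw 0 l' ≫ 0 = 0
    rw [comp_zero]
  have h2 := Nil.add ?_ hy h1
  · rw [sub_add_cancel, act_pw] at h2
    exact h2.pw_iff
  · rw [← act_sub]
    refine act_comm_even (l := l * e0) ?_ _
    exact ((hg_even (hg_e z) e0)).sub (by
      have h3 : Hg.{w} (2 * (l * e0)) (pw (e x0) l) := by
        rw [← hc]; exact hg_even (hg_e x0) l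
      exact h3.comp (hg_m _) (Nat.add_zero _))

/-- products of classes -/
noncomputable def mon {r : ℕ} (x : Fin r → (b (𝟙_ C) ⟶ b (𝟙_ C))) :
    List (Fin r) → (b (𝟙_ C) ⟶ b (𝟙_ C))
  | [] => 𝟙 _
  | i :: l => x i ≫ mon x l

lemma hg_mon {r : ℕ} {d : Fin r → ℕ} {x : Fin r → (b (𝟙_ C) ⟶ b (𝟙_ C))}
    (hx : ∀ i, Hg.{w} (2 * d i) (x i)) (l : List (Fin r)) :
    Hg (2 * (l.map d).sum) (mon x l) := by
  induction l with
  | nil => exact ⟨Ext.mk₀ (𝟙 _), rfl⟩
  | cons i l ih =>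
    refine (hx i).comp ih ?_
    rw [List.map_cons, List.sum_cons]
    ring

/-- Long products of commuting nilpotent classes vanish. -/
lemma mon_zero {r : ℕ} {d : Fin r → ℕ} {x : Fin r → (b (𝟙_ C) ⟶ b (𝟙_ C))}
    (hx : ∀ i, Hg.{w} (2 * d i) (x i)) (F : C) (hF : ∀ i, Nil (act F (x i))) :
    ∃ M, ∀ l : List (Fin r), M ≤ l.length → act F (mon x l) = 0 := by
  let xb : Fin r → Subring.center (End (b F)) := fun i => ⟨End.of (act F (x i)), by
    rw [Subring.mem_center_iff]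
    intro g
    exact act_cent (hx i) (End.asHom g)⟩
  have hnil : ∀ i, IsNilpotent (xb i) := by
    intro i
    obtain ⟨n, hn⟩ := hF i
    refine ⟨n, Subtype.ext ?_⟩
    change (End.of (act F (x i))) ^ n = 0
    rw [pw_end]
    exact hn
  have hI : IsNilpotent (Ideal.span (Set.range xb)) := by
    rw [Ideal.FG.isNilpotent_iff_le_nilradical
      ((Submodule.fg_def).2 ⟨_, Set.finite_range xb, rfl⟩)]
    rw [Ideal.span_le]
    rintro _ ⟨i, rfl⟩
    exact hnil i
  obtain ⟨M, hM⟩ := hI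
  have key : ∀ l : List (Fin r), ∃ q ∈ (Ideal.span (Set.range xb)) ^ l.length,
      End.asHom q.1 = act F (mon x l) := by
    intro l
    induction l with
    | nil => exact ⟨1, by simp, (act_id F).symm⟩
    | cons i l ih =>
      obtain ⟨q, hq, hq'⟩ := ih
      refine ⟨q * xb i, ?_, ?_⟩
      · rw [List.length_cons, pow_succ]
        exact Ideal.mul_mem_mul hq (Ideal.subset_span ⟨i, rfl⟩)
      · change act F (x i) ≫ End.asHom q.1 = act F (x i ≫ mon x l)
        rw [hq', act_comp]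
  refine ⟨M, fun l hl => ?_⟩
  obtain ⟨q, hq, hq'⟩ := key l
  have h1 : (Ideal.span (Set.range xb)) ^ l.length ≤ 0 := by
    rw [← hM]; exact Ideal.pow_le_pow_right hl
  have h2 : q = 0 := by simpa using h1 hq
  rw [← hq', h2]
  rfl

lemma sum_le {r : ℕ} {d : Fin r → ℕ} {D : ℕ} (hD : ∀ i, d i ≤ D) (l : List (Fin r)) :
    (l.map d).sum ≤ D * l.length := by
  induction l with
  | nil => simp
  | cons i l ih =>
    rw [List.map_cons, List.sum_cons, List.length_cons, Nat.mul_succ]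
    have := hD i
    omega

/-- If all positive even classes are nilpotent on `F` then the classes from `F` to a given object
of large degree vanish. -/
lemma big_van (hfg : FGCoh.{w} k C) {F : C}
    (hF : ∀ l, 0 < l → ∀ z : Ext.{w} (𝟙_ C) (𝟙_ C) (2 * l), Nil (act F (e z))) (Y : C) :
    ∃ n0, ∀ n ≥ n0, ∀ z : b F ⟶ b Y, Hg.{w} n z → z = 0 := by
  obtain ⟨r, d, x, hd, h⟩ := hfg
  obtain ⟨s, a, ε, hN⟩ := h (F ⊞ Y)
  obtain ⟨M, hM⟩ := mon_zero (x := fun i => e (x i)) (fun i => hg_e (x i)) F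
    (fun i => hF _ (hd i) (x i))
  obtain ⟨A, hA⟩ : ∃ A, ∀ j, a j ≤ A := ⟨Finset.univ.sup a, fun j => Finset.le_sup (by simp)⟩
  obtain ⟨D, hD⟩ : ∃ D, ∀ j, d j ≤ D := ⟨Finset.univ.sup d, fun j => Finset.le_sup (by simp)⟩
  let N : ∀ n, Submodule k (Ext.{w} (F ⊞ Y) (F ⊞ Y) n) := fun n =>
    { carrier := {z | ∀ l : List (Fin r), A + 2 * (D * M) + 1 ≤ n + 2 * (l.map d).sum →
        m biprod.inl ≫ e z ≫ act (F ⊞ Y) (mon (fun i => e (x i)) l) ≫ m biprod.snd = 0}
      add_mem' := by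
        intro z z' h h' l hl
        rw [e_add, Preadditive.add_comp, Preadditive.comp_add, h l hl, h' l hl, add_zero]
      zero_mem' := by
        intro l hl
        rw [e_zero, zero_comp, comp_zero]
      smul_mem' := by
        intro c z hz l hl
        have h1 := hz l hl
        have h2 : m.{w} (c • 𝟙 (F ⊞ Y)) ≫ act (F ⊞ Y) (mon (fun i => e (x i)) l) ≫ m biprod.snd =
            act (F ⊞ Y) (mon (fun i => e (x i)) l) ≫ m biprod.snd ≫ m (c • 𝟙 Y) := by
          rw [← Category.assoc, ← act_m, Category.assoc, ← m_comp, ← m_comp]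
          congr 2
          rw [Linear.smul_comp, Linear.comp_smul, Category.id_comp, Category.comp_id]
        rw [e_smul, Category.assoc, h2]
        simp only [← Category.assoc] at h1 ⊢
        rw [h1, zero_comp] }
  have h2 := hN N (by
    intro j l hl
    have hlen : M ≤ l.length := by
      by_contra hcon
      have h3 := sum_le hD l
      have h4 : D * l.length ≤ D * M := Nat.mul_le_mul_left D (by omega)
      have h5 := hA j
      omega
    have h6 := act_cent (hg_mon (x := fun i => e (x i)) (fun i => hg_e (x i)) l) (e (ε j))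
    have h7 := act_cent (hg_mon (x := fun i => e (x i)) (fun i => hg_e (x i)) l)
      (m.{w} (biprod.inl : F ⟶ F ⊞ Y))
    rw [← Category.assoc (e (ε j)), ← h6, Category.assoc, ← Category.assoc, ← h7, hM l hlen,
      zero_comp, zero_comp]) (by
    intro n z i hz l hl
    have h3 := hz (i :: l) (by rw [List.map_cons, List.sum_cons]; omega)
    rw [e_comp, e_tensId]
    change m biprod.inl ≫ e z ≫ act (F ⊞ Y) (e (x i) ≫ mon (fun i => e (x i)) l) ≫ _ = 0 at h3
    rw [act_comp] at h3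
    simpa only [Category.assoc] using h3)
  refine ⟨A + 2 * (D * M) + 1, fun n hn z hz => ?_⟩
  have h3 : Hg.{w} n ((m biprod.fst ≫ z ≫ m biprod.inr : b (F ⊞ Y) ⟶ b (F ⊞ Y))) :=
    (hg_m _).comp (hz.comp (hg_m _) (Nat.add_zero n)) (Nat.zero_add n)
  obtain ⟨ζ, hζ⟩ := h3
  have h4 : ζ ∈ N n := by rw [h2 n]; trivial
  have h8 : mon (fun i => e (x i)) [] = 𝟙 _ := rfl
  have h5 : m biprod.inl ≫ e ζ ≫ act (F ⊞ Y) (mon (fun i => e (x i)) []) ≫ m biprod.snd = 0 :=
    h4 [] (by simpa using hn)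
  rw [← hζ, h8, act_id, Category.id_comp] at h5
  have h6 : m.{w} (biprod.inl : F ⟶ F ⊞ Y) ≫ m biprod.fst = 𝟙 _ := by
    rw [← m_comp, biprod.inl_fst, m_id]
  have h7 : m.{w} (biprod.inr : Y ⟶ F ⊞ Y) ≫ m biprod.snd = 𝟙 _ := by
    rw [← m_comp, biprod.inr_snd, m_id]
  rw [Category.assoc, Category.assoc, h7, Category.comp_id, ← Category.assoc, h6,
    Category.id_comp] at h5
  exact h5

/-- A uniform bound. -/
lemma unif (hgen : FinGen C) {F : C}
    (hF : ∀ Y, ∃ n0, ∀ n ≥ n0, ∀ z : b F ⟶ b Y, Hg.{w} n z → z = 0) :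
    ∃ n0, ∀ Y, ∀ n ≥ n0, ∀ z : b F ⟶ b Y, Hg.{w} n z → z = 0 := by
  obtain ⟨r, S, hS⟩ := hgen
  choose n0 hn0 using fun i => hF (S i)
  obtain ⟨A, hA⟩ : ∃ A, ∀ j, n0 j ≤ A := ⟨Finset.univ.sup n0, fun j => Finset.le_sup (by simp)⟩
  refine ⟨A, ?_⟩
  apply hS
  · intro Z hZ n _ z _
    have h1 : (m (𝟙 Z) : b Z ⟶ b Z) = 0 := by rw [hZ.eq_of_src (𝟙 Z) 0, m_zero]
    rw [← Category.comp_id z, ← m_id, h1, comp_zero]
  · intro i n hn z hz
    exact hn0 i n (le_trans (hA i) hn) z hz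
  · intro T hT h1 h3 n hn z hz
    obtain ⟨z', hz', rfl⟩ := lift₂ hT hz (h3 n hn _ (hz.comp (hg_m _) (Nat.add_zero n)))
    rw [h1 n hn z' hz', zero_comp]

/-- An object without classes of large degree is projective. -/
lemma proj_of_unif {F : C} (n0 : ℕ)
    (h : ∀ Y, ∀ n ≥ n0, ∀ z : b F ⟶ b Y, Hg.{w} n z → z = 0) : Projective F := by
  have key : ∀ q : ℕ, ∀ Y, ∀ n, n0 ≤ n + 1 + q → ∀ z : b F ⟶ b Y, Hg.{w} (n + 1) z → z = 0 := by
    intro q
    induction q with
    | zero => exact fun Y n hn z hz => h Y (n + 1) hn z hz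
    | succ q ih =>
      intro Y n hn z hz
      have h1 : z ≫ dO Y = 0 := ih (Om Y) (n + 1) (by omega) _ (hz.comp (hg_dO Y) rfl)
      exact dl_inj' (shortExact_ker (Projective.π Y)) (injective_of_projective (projO Y)) hz h1
  have h1 : dO F = 0 := key n0 (Om F) 0 (by omega) _ (hg_dO F)
  obtain ⟨z', hz', h2⟩ := lift₃ (shortExact_ker (Projective.π F)) (z := m.{w} (𝟙 F)) (hg_m _) (by
    have h3 : dl.{w} (shortExact_ker (Projective.π F)) = 0 := h1
    rw [h3, comp_zero])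
  obtain ⟨s, rfl⟩ := hg_zero_iff hz'
  exact projective_of_retract s (Projective.π F) (m_inj ((m_comp _ _).trans h2)) (projO F)

/-- Objects on which all positive even classes are nilpotent are projective. -/
lemma proj_of_nil (hfg : FGCoh.{w} k C) (hgen : FinGen C) {F : C}
    (hF : ∀ l, 0 < l → ∀ z : Ext.{w} (𝟙_ C) (𝟙_ C) (2 * l), Nil (act F (e z))) :
    Projective F := by
  obtain ⟨n0, h⟩ := unif hgen (big_van hfg hF)
  exact proj_of_unif n0 h

end Van

end Pool.Agent.TPP2
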